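import Pool.Agent.Helper590.Tors6.Final

set_option autoImplicit false

namespace Pool.Agent.Helper590.Tors6

/-- An element of order three from a `ℤ/2 × ℤ/6` torsion subgroup. -/
theorem exists_order3 (G : Type) [AddCommGroup G]
    (e : Nonempty (↥(AddCommGroup.torsion G) ≃+ ZMod 2 × ZMod 6)) :
    ∃ P : G, P ≠ 0 ∧ 3 • P = 0 := by
  obtain ⟨e⟩ := e
  refine ⟨((e.symm (0, 2) : ↥(AddCommGroup.torsion G)) : G), ?_, ?_⟩
  · intro h
    have h1 : e.symm (0, 2) = 0 := by exact_mod_cast h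
    have h2 : ((0, 2) : ZMod 2 × ZMod 6) = 0 := by
      rw [← e.apply_symm_apply (0, 2), h1, map_zero]
    exact absurd h2 (by decide)
  · have h1 : 3 • (e.symm (0, 2)) = 0 := by
      rw [← map_nsmul]
      have : (3 • ((0, 2) : ZMod 2 × ZMod 6)) = 0 := by decide
      rw [this, map_zero]
    have := congrArg (Subtype.val) h1
    simpa using this

theorem sign_fix (U V W : ℤ) (hU : U ≠ 0) (hV : V ≠ 0) (hW : W ≠ 0)
    (h : U*V + U*W + V*W = 0) (huv : |U| < |V|) (hvw : |V| < |W|) :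
    |U| * (|V| + |W|) = |V| * |W| := by
  rcases lt_or_gt_of_ne hU with p1 | p1 <;> rcases lt_or_gt_of_ne hV with p2 | p2 <;>
    rcases lt_or_gt_of_ne hW with p3 | p3 <;>
    simp only [abs_of_neg, abs_of_pos, p1, p2, p3] at huv hvw ⊢ <;>
    first
    | linear_combination h
    | linear_combination -h
    | (exfalso; nlinarith)

/-- All three roots are integers. -/
theorem roots_integral (α β γ : ℤ) (x U V W : ℚ) (hU : U^2 = x + α) (hV : V^2 = x + β)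
    (hW : W^2 = x + γ) (h : U*V + U*W + V*W = 0) :
    ∃ n m k : ℤ, U = n ∧ V = m ∧ W = k := by
  obtain ⟨n, hn⟩ := root_integral α β γ x U V W hU hV hW h
  obtain ⟨m, hm⟩ := root_integral β α γ x V U W hV hU hW (by linear_combination h)
  obtain ⟨k, hk⟩ := root_integral γ α β x W U V hW hU hV (by linear_combination h)
  exact ⟨n, m, k, hn, hm, hk⟩

/-- The integer data attached to a rational point of order three. -/
theorem integer_data (a b c : ℤ) (ha : 0 < a) (hab : a < b) (hbc : b < c)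
    (W : WeierstrassCurve ℚ) (w1 : W.a₁ = 0) (w3 : W.a₃ = 0)
    (w2 : W.a₂ = (a*b + a*c + b*c : ℚ)) (w4 : W.a₄ = (a*b*(a*c) + a*b*(b*c) + a*c*(b*c) : ℚ))
    (w6 : W.a₆ = (a*b*(a*c)*(b*c) : ℚ))
    (P : W.toAffine.Point) (hP : P ≠ 0) (h3P : 3 • P = 0) :
    ∃ x U V Z : ℤ, U ≠ 0 ∧ V ≠ 0 ∧ Z ≠ 0 ∧ U^2 = x + a*b ∧ V^2 = x + a*c ∧ Z^2 = x + b*c ∧
      U*V + U*Z + V*Z = 0 ∧
      ∀ g a' b' c' : ℤ, a = g*a' → b = g*b' → c = g*c' → ∃ x' U' V' Z' : ℤ,
        U = g*U' ∧ V = g*V' ∧ Z = g*Z' ∧ x = g^2*x' := by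
  have hb : 0 < b := lt_trans ha hab
  have hc : 0 < c := lt_trans hb hbc
  obtain ⟨x, y, l, hy, e1, e2, e3⟩ := order3_coords W w1 w3 P hP h3P
  rw [w2, w4, w6] at e1
  rw [w2] at e2
  rw [w2, w4] at e3
  have n1 : ((a*b : ℤ) : ℚ) ≠ ((a*c : ℤ) : ℚ) := by
    intro h
    have h' : a*b = a*c := by exact_mod_cast h
    have := mul_left_cancel₀ ha.ne' h'
    linarith
  have n2 : ((a*b : ℤ) : ℚ) ≠ ((b*c : ℤ) : ℚ) := by
    intro h
    have h' : b*a = b*c := by rw [mul_comm b a]; exact_mod_cast h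
    have := mul_left_cancel₀ hb.ne' h'
    linarith
  have n3 : ((a*c : ℤ) : ℚ) ≠ ((b*c : ℤ) : ℚ) := by
    intro h
    have h' : a*c = b*c := by exact_mod_cast h
    have := mul_right_cancel₀ hc.ne' h'
    linarith
  obtain ⟨U, V, Z, hU, hV, hZ, hs, hU0, hV0, hZ0⟩ := square_roots ((a*b : ℤ) : ℚ) ((a*c : ℤ) : ℚ)
    ((b*c : ℤ) : ℚ) x y l n1 n2 n3 hy (by push_cast; linear_combination e1)
    (by push_cast; linear_combination e2) (by push_cast; linear_combination e3)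
  obtain ⟨n, m, k, hn, hm, hk⟩ := roots_integral (a*b) (a*c) (b*c) x U V Z hU hV hZ hs
  have hx : x = ((n^2 - a*b : ℤ) : ℚ) := by push_cast; rw [← hn]; push_cast at hU; linarith
  refine ⟨n^2-a*b, n, m, k, ?_, ?_, ?_, ?_, ?_, ?_, ?_, ?_⟩
  · rintro rfl; apply hU0; rw [hn]; norm_num
  · rintro rfl; apply hV0; rw [hm]; norm_num
  · rintro rfl; apply hZ0; rw [hk]; norm_num
  · ring
  · rw [hm, hx] at hV
    exact_mod_cast hV
  · rw [hk, hx] at hZ
    exact_mod_cast hZ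
  · rw [hn, hm, hk] at hs
    exact_mod_cast hs
  · intro g a' b' c' ga gb gc
    have hg : g ≠ 0 := by rintro rfl; rw [zero_mul] at ga; linarith
    have hgq : (g : ℚ) ≠ 0 := by exact_mod_cast hg
    have sc (T : ℚ) (p p' q q' : ℤ) (hT : T^2 = x + ((p*q : ℤ) : ℚ)) (hp : p = g*p') (hq : q = g*q') :
        (T/g)^2 = x/g^2 + ((p'*q' : ℤ) : ℚ) := by
      rw [div_pow, hT, hp, hq]; push_cast; field_simp
    obtain ⟨n', m', k', hn', hm', hk'⟩ := roots_integral (a'*b') (a'*c') (b'*c') (x/g^2) (U/g) (V/g)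
      (Z/g) (sc U a a' b b' hU ga gb) (sc V a a' c c' hV ga gc) (sc Z b b' c c' hZ gb gc) (by
        have : U/g*(V/g) + U/g*(Z/g) + V/g*(Z/g) = (U*V+U*Z+V*Z)/g^2 := by field_simp
        rw [this, hs, zero_div])
    have gn : n = g*n' := by
      have : (n:ℚ) = g*n' := by rw [← hn', ← hn]; field_simp
      exact_mod_cast this
    have gm : m = g*m' := by
      have : (m:ℚ) = g*m' := by rw [← hm', ← hm]; field_simp
      exact_mod_cast this
    have gk : k = g*k' := by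
      have : (k:ℚ) = g*k' := by rw [← hk', ← hk]; field_simp
      exact_mod_cast this
    exact ⟨n'^2 - a'*b', n', m', k', gn, gm, gk, by rw [gn, ga, gb]; ring⟩

/-- The whole integer conclusion. -/
theorem curve_main (a b c : ℤ) (ha : 0 < a) (hab : a < b) (hbc : b < c)
    (h1 : IsSquare (a*b+1)) (h2 : IsSquare (a*c+1)) (h3 : IsSquare (b*c+1))
    (W : WeierstrassCurve ℚ) (w1 : W.a₁ = 0) (w3 : W.a₃ = 0)
    (w2 : W.a₂ = (a*b + a*c + b*c : ℚ)) (w4 : W.a₄ = (a*b*(a*c) + a*b*(b*c) + a*c*(b*c) : ℚ))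
    (w6 : W.a₆ = (a*b*(a*c)*(b*c) : ℚ))
    (P : W.toAffine.Point) (hP : P ≠ 0) (h3P : 3 • P = 0) :
    (∀ r : ℤ, r^2 = a*b+1 → c ≠ a + b + 2*r) ∧
    (48 ∣ a*b ∧ 48 ∣ a*c ∧ 48 ∣ b*c) ∧
    4*a*b < c ∧ (3000*c)^3 < a^2*b^7 ∧ (20*a)^4 < b*(b-a)^4 ∧ 1146^4*a < b^4 ∧
    (∀ g a' b' c' : ℤ, 0 < g → a = g*a' → b = g*b' → c = g*c' →
      (∀ p : ℕ, p.Prime → ¬ ((p:ℤ) ∣ a' ∧ (p:ℤ) ∣ b' ∧ (p:ℤ) ∣ c')) →
      ∃ p : ℕ, p.Prime ∧
        (((p:ℤ) ∣ a' ∧ (p:ℤ) ∣ c' - b' ∧ (p:ℤ)^3 ∣ a'*(c'-b')) ∨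
         ((p:ℤ) ∣ b' ∧ (p:ℤ) ∣ c' - a' ∧ (p:ℤ)^3 ∣ b'*(c'-a')) ∨
         ((p:ℤ) ∣ c' ∧ (p:ℤ) ∣ b' - a' ∧ (p:ℤ)^3 ∣ c'*(b'-a')))) := by
  have hb : 0 < b := lt_trans ha hab
  have hc : 0 < c := lt_trans hb hbc
  obtain ⟨x, U, V, Z, hU0, hV0, hZ0, hU, hV, hZ, hs, hsc⟩ :=
    integer_data a b c ha hab hbc W w1 w3 w2 w4 w6 P hP h3P
  have getroot (z : ℤ) (hz : 0 < z) (h : IsSquare z) : ∃ r : ℤ, 0 < r ∧ r^2 = z := by
    obtain ⟨r, hr⟩ := h
    refine ⟨|r|, abs_pos.mpr ?_, by rw [sq_abs, hr]; ring⟩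
    rintro rfl; linarith
  obtain ⟨r, hr, e1⟩ := getroot (a*b+1) (by positivity) h1
  obtain ⟨s, hs', e2⟩ := getroot (a*c+1) (by positivity) h2
  obtain ⟨t, ht, e3⟩ := getroot (b*c+1) (by positivity) h3
  have hu0 : 0 < |U| := abs_pos.mpr hU0
  have hv0 : 0 < |V| := abs_pos.mpr hV0
  have hw0 : 0 < |Z| := abs_pos.mpr hZ0
  have hu : |U|^2 = x + a*b := by rw [sq_abs]; exact hU
  have hv : |V|^2 = x + a*c := by rw [sq_abs]; exact hV
  have hw : |Z|^2 = x + b*c := by rw [sq_abs]; exact hZ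
  have huv : |U| < |V| := by
    have : |U|^2 < |V|^2 := by rw [hu, hv]; nlinarith
    exact lt_of_pow_lt_pow_left₀ 2 hv0.le this
  have hvw : |V| < |Z| := by
    have : |V|^2 < |Z|^2 := by rw [hv, hw]; nlinarith
    exact lt_of_pow_lt_pow_left₀ 2 hw0.le this
  have huvw := sign_fix U V Z hU0 hV0 hZ0 hs huv hvw
  obtain ⟨i1, i2, i3, i4, i5⟩ := integer_main a b c r s t x |U| |V| |Z| ha hab hbc hr hs' ht
    e1 e2 e3 hu0 hv0 hw0 hu hv hw huvw
  refine ⟨?_, i2, i3, i4, i5, ?_, ?_⟩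
  · intro r' hr' h
    have e : (r'-r)*(r'+r) = 0 := by linear_combination hr' - e1
    rcases mul_eq_zero.mp e with e | e
    · apply i1; rw [h]; linear_combination 2*e
    · have h5 : r' = -r := by linarith
      rw [h5] at h
      have har : a < r := by
        have : a^2 < r^2 := by nlinarith
        exact lt_of_pow_lt_pow_left₀ 2 hr.le this
      linarith
  · have j1 : (3000*(4*a*b))^3 < a^2*b^7 := by
      refine lt_trans ?_ i4
      apply pow_lt_pow_left₀ _ (by positivity) (by norm_num)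
      linarith
    have j2 : (1728000000000*a)*(a^2*b^3) < b^4*(a^2*b^3) := by
      calc (1728000000000*a)*(a^2*b^3) = (3000*(4*a*b))^3 := by ring
        _ < a^2*b^7 := j1
        _ = b^4*(a^2*b^3) := by ring
    have j3 : 1728000000000*a < b^4 := lt_of_mul_lt_mul_right j2 (by positivity)
    norm_num
    linarith
  · intro g a' b' c' hgpos ga gb gc hg
    by_contra hno
    push Not at hno
    obtain ⟨x', U', V', Z', gU, gV, gZ, gx⟩ := hsc g a' b' c' ga gb gc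
    have hg0 : g ≠ 0 := by rintro rfl; rw [zero_mul] at ga; linarith
    have hg2 : g^2 ≠ 0 := pow_ne_zero 2 hg0
    obtain ⟨α, hα⟩ := P_cube a' b' c' x' |U'| |V'| |Z'|
      (by
        rw [sq_abs]; apply mul_left_cancel₀ hg2
        rw [gU, gx, ga, gb] at hU; linear_combination hU)
      (by
        rw [sq_abs]; apply mul_left_cancel₀ hg2
        rw [gV, gx, ga, gc] at hV; linear_combination hV)
      (by
        rw [sq_abs]; apply mul_left_cancel₀ hg2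
        rw [gZ, gx, gb, gc] at hZ; linear_combination hZ)
      (by
        apply mul_left_cancel₀ (mul_ne_zero hg0 hg0)
        have := huvw
        rw [gU, gV, gZ, abs_mul, abs_mul, abs_mul, abs_of_pos hgpos] at this
        linear_combination this)
      (fun p hp k1 k2 k3 => hg p hp ⟨k1, k2, k3⟩)
      (fun p hp k1 k2 k3 => (hno p hp).1 k1 k2 k3)
      (fun p hp k1 k2 k3 => (hno p hp).2.1 k1 k2 k3)
      (fun p hp k1 k2 k3 => (hno p hp).2.2 k1 k2 k3)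
    refine P_noncube a b c r s t x |U| |V| |Z| (g*α) ha hab hbc hr hs' ht e1 e2 e3 hu0 hv0 hw0
      hu hv hw huvw ?_
    rw [gU, gV, gZ, abs_mul, abs_mul, abs_mul, abs_of_pos hgpos, ga, gb, gc]
    linear_combination g^3*hα

end Pool.Agent.Helper590.Tors6
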