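import Pool.Agent.Helper590.Tors6.Cubes

set_option autoImplicit false

namespace Pool.Agent.Helper590.Tors6

/-- Regular triples are excluded. -/
theorem regular_excluded (a b c r s t x u v w : ℤ) (ha : 0 < a) (hab : a < b) (_hbc : b < c)
    (hr : 0 < r) (hs : 0 < s) (ht : 0 < t)
    (h1 : r^2 = a*b+1) (h2 : s^2 = a*c+1) (h3 : t^2 = b*c+1)
    (hu0 : 0 < u) (hv0 : 0 < v) (hw0 : 0 < w)
    (hu : u^2 = x+a*b) (hv : v^2 = x+a*c) (hw : w^2 = x+b*c)
    (huvw : u*(v+w) = v*w) (hreg : c = a + b + 2*r) : False := by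
  have hb : 0 < b := lt_trans ha hab
  have hprod : (v-u)*(w-u) = u^2 := by linear_combination -huvw
  have hvu : v^2 - u^2 = a*(a+2*r) := by rw [hv, hu, hreg]; ring
  have hwu : w^2 - u^2 = b*(b+2*r) := by rw [hw, hu, hreg]; ring
  have huv : u < v := by
    have : u^2 < v^2 := by have : 0 < a*(a+2*r) := by positivity
                           linarith
    exact lt_of_pow_lt_pow_left₀ 2 hv0.le this
  have huw : u < w := by
    have : u^2 < w^2 := by have : 0 < b*(b+2*r) := by positivity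
                           linarith
    exact lt_of_pow_lt_pow_left₀ 2 hw0.le this
  rcases le_or_gt 1 x with hx | hx
  · have hur : r ≤ u := by
      have : r^2 ≤ u^2 := by linarith
      exact (sq_le_sq₀ hr.le hu0.le).mp this
    have hs' : s = a + r := by
      have e : (s - (a+r))*(s+(a+r)) = 0 := by
        have : (s - (a+r))*(s+(a+r)) = s^2 - (a+r)^2 := by ring
        rw [this, h2, hreg]; linear_combination -h1
      rcases mul_eq_zero.mp e with h | h <;> linarith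
    have ht' : t = b + r := by
      have e : (t - (b+r))*(t+(b+r)) = 0 := by
        have : (t - (b+r))*(t+(b+r)) = t^2 - (b+r)^2 := by ring
        rw [this, h3, hreg]; linear_combination -h1
      rcases mul_eq_zero.mp e with h | h <;> linarith
    have hvs : s ≤ v := by
      have : s^2 ≤ v^2 := by linarith
      exact (sq_le_sq₀ hs.le hv0.le).mp this
    have hwt : t ≤ w := by
      have : t^2 ≤ w^2 := by linarith
      exact (sq_le_sq₀ ht.le hw0.le).mp this
    have k1 : v - u ≤ a := by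
      by_contra hlt
      push Not at hlt
      have : a*(a+2*r) < (v-u)*(v+u) := by
        apply mul_lt_mul hlt (by linarith) (by positivity) (by linarith)
      nlinarith
    have k2 : w - u ≤ b := by
      by_contra hlt
      push Not at hlt
      have : b*(b+2*r) < (w-u)*(w+u) := by
        apply mul_lt_mul hlt (by linarith) (by positivity) (by linarith)
      nlinarith
    have k3 : (v-u)*(w-u) ≤ a*b := by
      apply mul_le_mul k1 k2 (by linarith) ha.le
    nlinarith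
  · have hur : u < r := by
      have : u^2 < r^2 := by linarith
      exact lt_of_pow_lt_pow_left₀ 2 hr.le this
    have k1 : a < v - u := by
      by_contra hle
      push Not at hle
      have : (v-u)*(v+u) ≤ a*(a+2*u) := by
        apply mul_le_mul hle (by linarith) (by linarith) ha.le
      nlinarith
    have k2 : b < w - u := by
      by_contra hle
      push Not at hle
      have : (w-u)*(w+u) ≤ b*(b+2*u) := by
        apply mul_le_mul hle (by linarith) (by linarith) hb.le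
      nlinarith
    have k3 : a*b < (v-u)*(w-u) := by
      apply mul_lt_mul k1 k2.le hb (by linarith)
    nlinarith

/-- The two basic inequalities. -/
theorem two_ineqs (a b c R u v w : ℤ) (_ha : 0 < a) (_hab : a < b) (_hbc : b < c)
    (hR : 0 < R)
    (hu0 : 0 < u) (huv : u < v) (hvw : v < w)
    (hA : v^2 - u^2 = a*(c-b)) (hB : w^2 - u^2 = b*(c-a))
    (huvw : u*(v+w) = v*w) (hmain : 108*u^2 < R*(v+w-4*u)) :
    108^6*(a*(c-b))^4 < 16*R^6*(b*(c-a)) ∧
    196608*(a*(c-b))^5 < R^2*(c*(b-a))^4 := by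
  obtain ⟨m, rfl⟩ : ∃ m, v = u + m := ⟨v-u, by ring⟩
  obtain ⟨n, rfl⟩ : ∃ n, w = u + n := ⟨w-u, by ring⟩
  have hm : 0 < m := by linarith
  have hn : 0 < n := by linarith
  have hmn : m*n = u^2 := by linear_combination -huvw
  have hmlt : m < n := by linarith
  have hmu : m < u := by
    have : m^2 < u^2 := by nlinarith
    exact lt_of_pow_lt_pow_left₀ 2 hu0.le this
  have eA : a*(c-b) = m*(2*u+m) := by rw [← hA]; ring
  have eB : b*(c-a) = n*(2*u+n) := by rw [← hB]; ring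
  have eBA : c*(b-a) = n*(2*u+n) - m*(2*u+m) := by rw [← eB, ← eA]; ring
  have eBm : n*(2*u+n)*m^2 = u^3*(u+2*m) := by
    have : n*(2*u+n)*m^2 = (m*n)*(2*u*m + m*n) := by ring
    rw [this, hmn]; ring
  have hi : 108*u^2*m < R*(u-m)^2 := by
    have e : R*(u-m)^2 = R*(u+m+(u+n)-4*u)*m := by linear_combination (-R)*hmn
    rw [e]
    exact mul_lt_mul_of_pos_right hmain hm
  have hum : 0 < u - m := by linarith
  constructor
  · rw [eA, eB]
    have i6 : (108*u^2*m)^6 < (R*(u-m)^2)^6 := pow_lt_pow_left₀ hi (by positivity) (by norm_num)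
    have ii : (u-m)^2*(2*u+m) ≤ 2*u^3 := by
      have h1 : 2*u^3 - (u-m)^2*(2*u+m) = m*(3*u^2-m^2) := by ring
      have h2 : 0 ≤ m*(3*u^2-m^2) := mul_nonneg hm.le (by nlinarith)
      linarith
    have ii4 : ((u-m)^2*(2*u+m))^4 ≤ (2*u^3)^4 := pow_le_pow_left₀ (by positivity) ii 4
    have iii : (u-m)^4 ≤ u^4 := pow_le_pow_left₀ hum.le (by linarith) 4
    have j1 : (108*u^2*m)^6*(2*u+m)^4 < (R*(u-m)^2)^6*(2*u+m)^4 :=
      mul_lt_mul_of_pos_right i6 (by positivity)
    have j2 : (R*(u-m)^2)^6*(2*u+m)^4 = R^6*((u-m)^4*((u-m)^2*(2*u+m))^4) := by ring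
    have j3 : (u-m)^4*((u-m)^2*(2*u+m))^4 ≤ u^4*(2*u^3)^4 :=
      mul_le_mul iii ii4 (by positivity) (by positivity)
    have j4 : R^6*((u-m)^4*((u-m)^2*(2*u+m))^4) ≤ R^6*(u^4*(2*u^3)^4) :=
      mul_le_mul_of_nonneg_left j3 (by positivity)
    have j5 : (108^6*m^6*(2*u+m)^4)*u^12 < (16*R^6*u^4)*u^12 := by
      calc (108^6*m^6*(2*u+m)^4)*u^12 = (108*u^2*m)^6*(2*u+m)^4 := by ring
        _ < (R*(u-m)^2)^6*(2*u+m)^4 := j1
        _ = R^6*((u-m)^4*((u-m)^2*(2*u+m))^4) := j2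
        _ ≤ R^6*(u^4*(2*u^3)^4) := j4
        _ = (16*R^6*u^4)*u^12 := by ring
    have j6 : 108^6*m^6*(2*u+m)^4 < 16*R^6*u^4 := lt_of_mul_lt_mul_right j5 (by positivity)
    have j7 : (108^6*(m*(2*u+m))^4)*m^2 < (16*R^6*(n*(2*u+n)))*m^2 := by
      calc (108^6*(m*(2*u+m))^4)*m^2 = 108^6*m^6*(2*u+m)^4 := by ring
        _ < 16*R^6*u^4 := j6
        _ ≤ 16*R^6*(u^3*(u+2*m)) := by
          apply mul_le_mul_of_nonneg_left _ (by positivity)
          have : u^3*(u+2*m) - u^4 = 2*u^3*m := by ring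
          have : 0 ≤ 2*u^3*m := by positivity
          linarith
        _ = (16*R^6*(n*(2*u+n)))*m^2 := by rw [← eBm]; ring
    exact lt_of_mul_lt_mul_right j7 (by positivity)
  · rw [eBA, eA]
    have i2 : (108*u^2*m)^2 < (R*(u-m)^2)^2 := pow_lt_pow_left₀ hi (by positivity) (by norm_num)
    have k0 : (3888*m^4*(m*(2*u+m)))*(3*u) < (R^2*(u-m)^4)*(3*u) := by
      calc (3888*m^4*(m*(2*u+m)))*(3*u) = 11664*(m^3*u)*m^2*(2*u+m) := by ring
        _ ≤ 11664*(u^3*u)*m^2*(2*u+m) := by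
          have : m^3 ≤ u^3 := pow_le_pow_left₀ hm.le hmu.le 3
          gcongr
        _ = (108*u^2*m)^2*(2*u+m) := by ring
        _ < (R*(u-m)^2)^2*(2*u+m) := mul_lt_mul_of_pos_right i2 (by positivity)
        _ ≤ (R*(u-m)^2)^2*(3*u) := by
          apply mul_le_mul_of_nonneg_left (by linarith) (by positivity)
        _ = (R^2*(u-m)^4)*(3*u) := by ring
    have k1 : 3888*m^4*(m*(2*u+m)) < R^2*(u-m)^4 := lt_of_mul_lt_mul_right k0 (by positivity)
    have k2 : 8*(u-m)*(m*(2*u+m)) ≤ 3*m*(n*(2*u+n) - m*(2*u+m)) := by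
      have e : (3*m*(n*(2*u+n) - m*(2*u+m)) - 8*(u-m)*(m*(2*u+m)))*m
          = (u-m)^2*(3*u^2+12*u*m+5*m^2) := by
        have : (3*m*(n*(2*u+n) - m*(2*u+m)) - 8*(u-m)*(m*(2*u+m)))*m
          = 3*(n*(2*u+n)*m^2) - 3*m^3*(2*u+m) - 8*(u-m)*m^2*(2*u+m) := by ring
        rw [this, eBm]; ring
      have : 0 ≤ (3*m*(n*(2*u+n) - m*(2*u+m)) - 8*(u-m)*(m*(2*u+m)))*m := by
        rw [e]; positivity
      have := nonneg_of_mul_nonneg_left this hm
      linarith
    have k3 : (8*(u-m)*(m*(2*u+m)))^4 ≤ (3*m*(n*(2*u+n) - m*(2*u+m)))^4 :=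
      pow_le_pow_left₀ (by positivity) k2 4
    have k4 : (196608*(m*(2*u+m))^5)*(81*m^4) < (R^2*(n*(2*u+n) - m*(2*u+m))^4)*(81*m^4) := by
      calc (196608*(m*(2*u+m))^5)*(81*m^4)
          = (4096*(m*(2*u+m))^4)*(3888*m^4*(m*(2*u+m))) := by ring
        _ < (4096*(m*(2*u+m))^4)*(R^2*(u-m)^4) := mul_lt_mul_of_pos_left k1 (by positivity)
        _ = R^2*(8*(u-m)*(m*(2*u+m)))^4 := by ring
        _ ≤ R^2*(3*m*(n*(2*u+n) - m*(2*u+m)))^4 := mul_le_mul_of_nonneg_left k3 (by positivity)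
        _ = (R^2*(n*(2*u+n) - m*(2*u+m))^4)*(81*m^4) := by ring
    exact lt_of_mul_lt_mul_right k4 (by positivity)

/-- Final integer statement. -/
theorem integer_main (a b c r s t x u v w : ℤ) (ha : 0 < a) (hab : a < b) (hbc : b < c)
    (hr : 0 < r) (hs : 0 < s) (ht : 0 < t)
    (h1 : r^2 = a*b+1) (h2 : s^2 = a*c+1) (h3 : t^2 = b*c+1)
    (hu0 : 0 < u) (hv0 : 0 < v) (hw0 : 0 < w)
    (hu : u^2 = x+a*b) (hv : v^2 = x+a*c) (hw : w^2 = x+b*c)
    (huvw : u*(v+w) = v*w) :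
    c ≠ a + b + 2*r ∧ (48 ∣ a*b ∧ 48 ∣ a*c ∧ 48 ∣ b*c) ∧ 4*a*b < c ∧
      (3000*c)^3 < a^2*b^7 ∧ (20*a)^4 < b*(b-a)^4 := by
  have hb : 0 < b := lt_trans ha hab
  have hc : 0 < c := lt_trans hb hbc
  obtain ⟨c1, c2, c3⟩ := coprime_triple a b c r s t ha hb hc hr hs ht h1 h2 h3
  have hreg : c ≠ a + b + 2*r := fun h =>
    regular_excluded a b c r s t x u v w ha hab hbc hr hs ht h1 h2 h3 hu0 hv0 hw0 hu hv hw huvw h
  have h48 := dvd48 a b c r s t x u v w h1 h2 h3 hu hv hw huvw c1 c2 c3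
  have hlarge : 4*a*b < c := by
    rcases regular_or_large a b c r s t ha hab hbc hr hs ht h1 h2 h3 with h | h
    · exact absurd h hreg
    · exact h
  have hmain := main_ineq a b c r s t x u v w ha hab hbc hr hs ht h1 h2 h3 hu0 hv0 hw0 hu hv hw huvw
  have huv : u < v := by
    have : u^2 < v^2 := by nlinarith
    exact lt_of_pow_lt_pow_left₀ 2 hv0.le this
  have hvw : v < w := by
    have : v^2 < w^2 := by nlinarith
    exact lt_of_pow_lt_pow_left₀ 2 hw0.le this
  rw [h1] at hmain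
  have habpos : 0 < a*b := mul_pos ha hb
  obtain ⟨I1, I2⟩ := two_ineqs a b c (a*b+1) u v w ha hab hbc (by linarith) hu0 huv hvw
    (by rw [hv, hu]; ring) (by rw [hw, hu]; ring) huvw hmain
  have hab48 : 48 ≤ a*b := Int.le_of_dvd habpos h48.1
  have hR : 48*(a*b+1) ≤ 49*(a*b) := by linarith
  have hcb : 3*c ≤ 4*(c-b) := by nlinarith
  have hacb : 3*(a*c) ≤ 4*(a*(c-b)) := by nlinarith
  have hcb0 : 0 < c - b := by linarith
  refine ⟨hreg, h48, hlarge, ?_, ?_⟩
  · have s1 : (3*(a*c))^4 ≤ (4*(a*(c-b)))^4 := pow_le_pow_left₀ (by positivity) hacb 4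
    have s2 : (48*(a*b+1))^6 ≤ (49*(a*b))^6 := pow_le_pow_left₀ (by positivity) hR 6
    have s3 : b*(c-a) ≤ b*c := by nlinarith
    have s4 : (48^6*108^6*81*c^3)*(a^4*c) < (4096*49^6*(a^2*b^7))*(a^4*c) := by
      calc (48^6*108^6*81*c^3)*(a^4*c) = 48^6*108^6*(3*(a*c))^4 := by ring
        _ ≤ 48^6*108^6*(4*(a*(c-b)))^4 := by gcongr
        _ = 48^6*256*(108^6*(a*(c-b))^4) := by ring
        _ < 48^6*256*(16*(a*b+1)^6*(b*(c-a))) := mul_lt_mul_of_pos_left I1 (by positivity)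
        _ = 4096*(48*(a*b+1))^6*(b*(c-a)) := by ring
        _ ≤ 4096*(49*(a*b))^6*(b*c) := by
          have : 0 ≤ b*(c-a) := mul_nonneg hb.le (by linarith)
          gcongr
        _ = (4096*49^6*(a^2*b^7))*(a^4*c) := by ring
    have s5 : 48^6*108^6*81*c^3 < 4096*49^6*(a^2*b^7) := lt_of_mul_lt_mul_right s4 (by positivity)
    have s6 : 0 < c^3 := by positivity
    have s7 : (3000*c)^3 = 27000000000*c^3 := by ring
    rw [s7]
    norm_num at s5
    linarith
  · have s1 : (3*(a*c))^5 ≤ (4*(a*(c-b)))^5 := pow_le_pow_left₀ (by positivity) hacb 5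
    have s2 : (48*(a*b+1))^2 ≤ (49*(a*b))^2 := pow_le_pow_left₀ (by positivity) hR 2
    have hba : 0 < b - a := by linarith
    have s4 : (48^2*196608*243*a^3*c)*(a^2*c^4) < (1024*49^2*(b^2*(b-a)^4))*(a^2*c^4) := by
      calc (48^2*196608*243*a^3*c)*(a^2*c^4) = 48^2*196608*(3*(a*c))^5 := by ring
        _ ≤ 48^2*196608*(4*(a*(c-b)))^5 := by gcongr
        _ = 48^2*1024*(196608*(a*(c-b))^5) := by ring
        _ < 48^2*1024*((a*b+1)^2*(c*(b-a))^4) := mul_lt_mul_of_pos_left I2 (by positivity)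
        _ = 1024*(48*(a*b+1))^2*(c*(b-a))^4 := by ring
        _ ≤ 1024*(49*(a*b))^2*(c*(b-a))^4 := by gcongr
        _ = (1024*49^2*(b^2*(b-a)^4))*(a^2*c^4) := by ring
    have s5 : 48^2*196608*243*a^3*c < 1024*49^2*(b^2*(b-a)^4) :=
      lt_of_mul_lt_mul_right s4 (by positivity)
    have s6 : (48^2*196608*243*4*a^4)*b < (1024*49^2*(b*(b-a)^4))*b := by
      calc (48^2*196608*243*4*a^4)*b = 48^2*196608*243*a^3*(4*a*b) := by ring
        _ < 48^2*196608*243*a^3*c := mul_lt_mul_of_pos_left hlarge (by positivity)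
        _ < 1024*49^2*(b^2*(b-a)^4) := s5
        _ = (1024*49^2*(b*(b-a)^4))*b := by ring
    have s7 : 48^2*196608*243*4*a^4 < 1024*49^2*(b*(b-a)^4) :=
      lt_of_mul_lt_mul_right s6 hb.le
    have s8 : 0 < a^4 := by positivity
    have s9 : (20*a)^4 = 160000*a^4 := by ring
    rw [s9]
    norm_num at s7
    linarith

end Pool.Agent.Helper590.Tors6
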