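import Mathlib

set_option autoImplicit false

namespace Pool.Agent.Helper590.Tors6

/-- One descent step `{a,b,c} → {a,b,d₋}`. -/
theorem descent_step (a b c r s t : ℤ) (ha : 0 < a) (hb : 0 < b) (hac : a < c) (hbc : b < c)
    (hr : 0 < r) (hs : 0 < s) (ht : 0 < t) (h1 : r^2 = a*b+1) (h2 : s^2 = a*c+1)
    (h3 : t^2 = b*c+1) :
    ∃ d s' t' : ℤ, 0 ≤ d ∧ d < c ∧ 0 < s' ∧ 0 < t' ∧ s'^2 = a*d+1 ∧ t'^2 = b*d+1 ∧
      (a + b - c - d)^2 = 4*(a*b+1)*(c*d+1) ∧
      (IsCoprime r t' → IsCoprime r s) ∧ (IsCoprime r s' → IsCoprime r t) ∧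
      (IsCoprime s' t' → IsCoprime s t) := by
  have hc : 0 < c := lt_trans ha hac
  have hs' : 0 < r*s - a*t := by
    have h : (a*t)^2 < (r*s)^2 := by
      have : (r*s)^2 - (a*t)^2 = a*(b+c-a)+1 := by
        rw [mul_pow, mul_pow, h1, h2, h3]; ring
      have h4 : 0 < a*(b+c-a) := by
        apply mul_pos ha; linarith
      linarith
    have := lt_of_pow_lt_pow_left₀ 2 (by positivity) h
    linarith
  have ht' : 0 < r*t - b*s := by
    have h : (b*s)^2 < (r*t)^2 := by
      have : (r*t)^2 - (b*s)^2 = b*(a+c-b)+1 := by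
        rw [mul_pow, mul_pow, h1, h2, h3]; ring
      have h4 : 0 < b*(a+c-b) := by
        apply mul_pos hb; linarith
      linarith
    have := lt_of_pow_lt_pow_left₀ 2 (by positivity) h
    linarith
  have e1 : (r*s - a*t)^2 = a*(a + b + c + 2*a*b*c - 2*r*s*t) + 1 := by
    have : (r*s - a*t)^2 = r^2*s^2 - 2*a*r*s*t + a^2*t^2 := by ring
    rw [this, h1, h2, h3]; ring
  have e2 : (r*t - b*s)^2 = b*(a + b + c + 2*a*b*c - 2*r*s*t) + 1 := by
    have : (r*t - b*s)^2 = r^2*t^2 - 2*b*r*s*t + b^2*s^2 := by ring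
    rw [this, h1, h2, h3]; ring
  have hd0 : 0 ≤ a + b + c + 2*a*b*c - 2*r*s*t := by
    by_contra hneg
    push Not at hneg
    have h5 : a*(a + b + c + 2*a*b*c - 2*r*s*t) ≤ a * (-1) := by
      apply mul_le_mul_of_nonneg_left _ ha.le; linarith
    have h6 : 0 < (r*s - a*t)^2 := by positivity
    linarith
  have e3 : (r*s*t)^2 = (a*b+1)*(a*c+1)*(b*c+1) := by
    rw [mul_pow, mul_pow, h1, h2, h3]
  refine ⟨a + b + c + 2*a*b*c - 2*r*s*t, r*s - a*t, r*t - b*s, hd0, ?_, hs', ht', e1, e2, ?_, ?_, ?_, ?_⟩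
  · by_contra hge
    push Not at hge
    have hp : (a + b + c + 2*a*b*c - 2*r*s*t) * (a + b + c + 2*a*b*c + 2*r*s*t)
        = a^2+b^2+c^2-2*a*b-2*a*c-2*b*c-4 := by
      have : (a + b + c + 2*a*b*c - 2*r*s*t) * (a + b + c + 2*a*b*c + 2*r*s*t)
        = (a + b + c + 2*a*b*c)^2 - 4*(r*s*t)^2 := by ring
      rw [this, e3]; ring
    have hpos : c ≤ a + b + c + 2*a*b*c + 2*r*s*t := by
      have h8 : 0 < 2*a*b*c := by positivity
      have h9 : 0 < 2*r*s*t := by positivity
      linarith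
    have h7 : c * c ≤ (a + b + c + 2*a*b*c - 2*r*s*t) * (a + b + c + 2*a*b*c + 2*r*s*t) := by
      apply mul_le_mul hge hpos hc.le hd0
    nlinarith [mul_pos ha hc, mul_pos hb hc, mul_pos ha hb]
  · have : (a + b - c - (a + b + c + 2*a*b*c - 2*r*s*t))^2
        = 4*(c + a*b*c)^2 - 8*(c+a*b*c)*(r*s*t) + 4*(r*s*t)^2 := by ring
    rw [this, e3]; ring
  · rintro ⟨x, y, hxy⟩
    exact ⟨x + y*t, -(y*b), by linear_combination hxy⟩
  · rintro ⟨x, y, hxy⟩
    exact ⟨x + y*s, -(y*a), by linear_combination hxy⟩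
  · rintro ⟨x, y, hxy⟩
    exact ⟨x*r - y*b, y*r - x*a, by linear_combination hxy⟩

theorem no_sq_add_one (a r : ℤ) (ha : 0 < a) (hr : 0 < r) (h : r^2 = a*a+1) : False := by
  have h1 : a < r := by
    have : a^2 < r^2 := by linarith [h, sq a]
    exact lt_of_pow_lt_pow_left₀ 2 hr.le this
  nlinarith

theorem coprime_max (n : ℕ)
    (IH : ∀ a b c r s t : ℤ, 0 ≤ a → 0 ≤ b → 0 ≤ c → a + b + c ≤ n → 0 < r → 0 < s → 0 < t →
      r^2 = a*b+1 → s^2 = a*c+1 → t^2 = b*c+1 → IsCoprime r s ∧ IsCoprime r t ∧ IsCoprime s t)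
    (a b c r s t : ℤ) (ha : 0 < a) (hb : 0 < b) (hac : a < c) (hbc : b < c)
    (hn : a + b + c ≤ n + 1)
    (hr : 0 < r) (hs : 0 < s) (ht : 0 < t) (h1 : r^2 = a*b+1) (h2 : s^2 = a*c+1)
    (h3 : t^2 = b*c+1) : IsCoprime r s ∧ IsCoprime r t ∧ IsCoprime s t := by
  obtain ⟨d, s', t', hd0, hdc, hs', ht', e1, e2, -, c1, c2, c3⟩ :=
    descent_step a b c r s t ha hb hac hbc hr hs ht h1 h2 h3
  obtain ⟨i1, i2, i3⟩ := IH a b d r s' t' ha.le hb.le hd0 (by linarith) hr hs' ht' h1 e1 e2
  exact ⟨c1 i2, c2 i1, c3 i3⟩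

theorem eq_one_of_sq (r : ℤ) (hr : 0 < r) (h : r^2 = 1) : r = 1 := by
  have : (r-1)*(r+1) = 0 := by linear_combination h
  rcases mul_eq_zero.mp this with h | h <;> linarith

/-- For a triple of nonnegative integers with the `D(1)` property the three square roots are
pairwise coprime. -/
theorem coprime_all : ∀ n : ℕ, ∀ a b c r s t : ℤ, 0 ≤ a → 0 ≤ b → 0 ≤ c → a + b + c ≤ n →
    0 < r → 0 < s → 0 < t → r^2 = a*b+1 → s^2 = a*c+1 → t^2 = b*c+1 →
    IsCoprime r s ∧ IsCoprime r t ∧ IsCoprime s t := by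
  intro n
  induction n with
  | zero =>
    intro a b c r s t ha hb hc hn hr hs ht h1 h2 h3
    have ha0 : a = 0 := by push_cast at hn; linarith
    subst ha0
    have hr1 := eq_one_of_sq r hr (by linarith)
    have hs1 := eq_one_of_sq s hs (by linarith)
    subst hr1; subst hs1
    exact ⟨isCoprime_one_left, isCoprime_one_left, isCoprime_one_left⟩
  | succ n IH =>
    intro a b c r s t ha hb hc hn hr hs ht h1 h2 h3
    push_cast at hn
    rcases ha.eq_or_lt with ha0 | ha0
    · subst ha0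
      have hr1 := eq_one_of_sq r hr (by linarith)
      have hs1 := eq_one_of_sq s hs (by linarith)
      subst hr1; subst hs1
      exact ⟨isCoprime_one_left, isCoprime_one_left, isCoprime_one_left⟩
    rcases hb.eq_or_lt with hb0 | hb0
    · subst hb0
      have hr1 := eq_one_of_sq r hr (by linarith)
      have ht1 := eq_one_of_sq t ht (by linarith)
      subst hr1; subst ht1
      exact ⟨isCoprime_one_left, isCoprime_one_left, isCoprime_one_right⟩
    rcases hc.eq_or_lt with hc0 | hc0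
    · subst hc0
      have hs1 := eq_one_of_sq s hs (by linarith)
      have ht1 := eq_one_of_sq t ht (by linarith)
      subst hs1; subst ht1
      exact ⟨isCoprime_one_right, isCoprime_one_right, isCoprime_one_left⟩
    have hab : a ≠ b := fun h => by
      subst h; exact no_sq_add_one a r ha0 hr h1
    have hac : a ≠ c := fun h => by
      subst h; exact no_sq_add_one a s ha0 hs h2
    have hbc : b ≠ c := fun h => by
      subst h; exact no_sq_add_one b t hb0 ht h3
    rcases lt_or_gt_of_ne hac with h | h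
    · rcases lt_or_gt_of_ne hbc with h' | h'
      · exact coprime_max n IH a b c r s t ha0 hb0 h h' hn hr hs ht h1 h2 h3
      · -- b max
        obtain ⟨i1, i2, i3⟩ := coprime_max n IH a c b s r t ha0 hc0 (lt_trans h h') h'
          (by linarith) hs hr ht h2 h1 (by linarith)
        exact ⟨i1.symm, i3, i2⟩
    · rcases lt_or_gt_of_ne hab with h' | h'
      · -- c < a < b : b max
        obtain ⟨i1, i2, i3⟩ := coprime_max n IH a c b s r t ha0 hc0 h' (lt_trans h h')
          (by linarith) hs hr ht h2 h1 (by linarith)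
        exact ⟨i1.symm, i3, i2⟩
      · -- a max : order (b, c, a) with roots t, r, s
        obtain ⟨i1, i2, i3⟩ := coprime_max n IH b c a t r s hb0 hc0 h' h
          (by linarith) ht hr hs h3 (by linarith) (by linarith)
        exact ⟨i3, i1.symm, i2.symm⟩

theorem coprime_triple (a b c r s t : ℤ) (ha : 0 < a) (hb : 0 < b) (hc : 0 < c)
    (hr : 0 < r) (hs : 0 < s) (ht : 0 < t) (h1 : r^2 = a*b+1) (h2 : s^2 = a*c+1)
    (h3 : t^2 = b*c+1) : IsCoprime r s ∧ IsCoprime r t ∧ IsCoprime s t :=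
  coprime_all (a+b+c).toNat a b c r s t ha.le hb.le hc.le (by
    rw [Int.toNat_of_nonneg (by positivity)]) hr hs ht h1 h2 h3

/-- A triple `a < b < c` is regular (`c = a + b + 2r`) or has `c > 4ab`. -/
theorem regular_or_large (a b c r s t : ℤ) (ha : 0 < a) (hab : a < b) (hbc : b < c)
    (hr : 0 < r) (hs : 0 < s) (ht : 0 < t) (h1 : r^2 = a*b+1) (h2 : s^2 = a*c+1)
    (h3 : t^2 = b*c+1) : c = a + b + 2*r ∨ 4*a*b < c := by
  have hb : 0 < b := lt_trans ha hab
  have hac : a < c := lt_trans hab hbc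
  have hc : 0 < c := lt_trans ha hac
  obtain ⟨d, s', t', hd0, hdc, hs', ht', e1, e2, e3, -, -, -⟩ :=
    descent_step a b c r s t ha hb hac hbc hr hs ht h1 h2 h3
  rcases hd0.eq_or_lt with hd | hd
  · left
    subst hd
    have h4 : (a+b-c-2*r)*(a+b-c+2*r) = 0 := by
      have : (a+b-c-2*r)*(a+b-c+2*r) = (a+b-c-0)^2 - 4*r^2 := by ring
      rw [this, e3, h1]; ring
    rcases mul_eq_zero.mp h4 with h | h
    · exfalso
      -- c = a + b - 2r, but a < r
      have har : a < r := by
        have : a^2 < r^2 := by nlinarith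
        exact lt_of_pow_lt_pow_left₀ 2 hr.le this
      linarith
    · linarith
  · right
    have hd1 : 1 ≤ d := hd
    have key : 4*a*b*(c*d) < (a+b-c-d)^2 := by
      rw [e3]
      have : 0 < a*b := mul_pos ha hb
      have : 0 < c*d := mul_pos hc hd
      nlinarith
    rcases le_or_gt d (a+b) with hle | hgt
    · have h5 : (a+b-c-d)^2 ≤ c^2 := by
        apply sq_le_sq'
        · linarith
        · linarith
      have h6 : 4*a*b*c ≤ 4*a*b*(c*d) := by
        have : 0 < 4*a*b*c := by positivity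
        nlinarith
      have h7 : (4*a*b)*c < c*c := by nlinarith
      exact lt_of_mul_lt_mul_right h7 hc.le
    · have h5 : (a+b-c-d)^2 < (2*c)^2 := by
        apply sq_lt_sq'
        · linarith
        · linarith
      have h6 : (a*b*d)*(4*c) < c*(4*c) := by nlinarith
      have h7 : a*b*d < c := lt_of_mul_lt_mul_right h6 (by positivity)
      have h8 : 4 ≤ d := by
        by_contra hlt
        push Not at hlt
        -- d ≤ 3, a + b < d so a = 1, b = 1, contradiction with a < b
        have : a = 1 ∧ b = 1 := by constructor <;> linarith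
        linarith [this.1, this.2]
      have h9 : 0 < a*b := mul_pos ha hb
      nlinarith

end Pool.Agent.Helper590.Tors6
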