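import Pool.Agent.Helper590.Tors6.Bounds

set_option autoImplicit false

namespace Pool.Agent.Helper590.Tors6

/-- collinearity identity -/
theorem collinear_identity (U V W a b c : ℤ) (h1 : V^2-U^2 = a*(c-b)) (h2 : W^2-U^2 = b*(c-a))
    (h : U*V + U*W + V*W = 0) :
    (U^3 + (-U-V-W-c)*(a*b)) * (U^3 + (-U-V-W-c)*((c-a)*(c-b))) = (U*(-V-W-c))^3 := by
  have e1 : (a*b)*((c-a)*(c-b)) = U^3*(U - 2*V - 2*W) := by
    have : (a*b)*((c-a)*(c-b)) = (a*(c-b))*(b*(c-a)) := by ring
    rw [this, ← h1, ← h2]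
    linear_combination (V*W - U*V - U*W + 2*U^2)*h
  have e2 : a*b + (c-a)*(c-b) = c^2 + 2*U^2 - V^2 - W^2 := by
    linear_combination h1 + h2
  have e3 : (U^3 + (-U-V-W-c)*(a*b)) * (U^3 + (-U-V-W-c)*((c-a)*(c-b)))
      = U^6 + U^3*(-U-V-W-c)*(a*b + (c-a)*(c-b)) + (-U-V-W-c)^2*((a*b)*((c-a)*(c-b))) := by ring
  rw [e3, e1, e2]
  linear_combination (2*U^3*(-U-V-W-c))*h

theorem cube_of_multiples (M A B C E y1 y2 y3 y4 : ℤ) (h1 : M*A = y1^3) (h2 : M*B = y2^3)
    (h3 : M*C = y3^3) (h4 : M*E = y4^3)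
    (hcop : ∀ p : ℕ, p.Prime → (p:ℤ) ∣ M → (p:ℤ) ∣ A → (p:ℤ) ∣ B → (p:ℤ) ∣ C → (p:ℤ) ∣ E → False) :
    ∃ α : ℤ, M = α^3 := by
  obtain ⟨G, hG⟩ : ∃ G, G = Nat.gcd (Nat.gcd A.natAbs B.natAbs) (Nat.gcd C.natAbs E.natAbs) := ⟨_, rfl⟩
  obtain ⟨Y, hY⟩ : ∃ Y, Y = Nat.gcd (Nat.gcd y1.natAbs y2.natAbs) (Nat.gcd y3.natAbs y4.natAbs) :=
    ⟨_, rfl⟩
  have k1 : M.natAbs * A.natAbs = y1.natAbs^3 := by rw [← Int.natAbs_mul, h1, Int.natAbs_pow]
  have k2 : M.natAbs * B.natAbs = y2.natAbs^3 := by rw [← Int.natAbs_mul, h2, Int.natAbs_pow]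
  have k3 : M.natAbs * C.natAbs = y3.natAbs^3 := by rw [← Int.natAbs_mul, h3, Int.natAbs_pow]
  have k4 : M.natAbs * E.natAbs = y4.natAbs^3 := by rw [← Int.natAbs_mul, h4, Int.natAbs_pow]
  have hMG : M.natAbs * G = Y^3 := by
    rw [hG, hY, ← Nat.pow_gcd_pow, ← Nat.pow_gcd_pow, ← Nat.pow_gcd_pow, ← k1, ← k2, ← k3, ← k4,
      Nat.gcd_mul_left, Nat.gcd_mul_left, Nat.gcd_mul_left]
  have hc : Nat.Coprime M.natAbs G := by
    apply Nat.Coprime.symm
    apply Nat.coprime_of_dvd
    intro p hp hpG hpM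
    rw [hG] at hpG
    have g1 := hpG.trans (Nat.gcd_dvd_left _ _)
    have g2 := hpG.trans (Nat.gcd_dvd_right _ _)
    exact hcop p hp (Int.natCast_dvd.mpr hpM) (Int.natCast_dvd.mpr (g1.trans (Nat.gcd_dvd_left _ _)))
      (Int.natCast_dvd.mpr (g1.trans (Nat.gcd_dvd_right _ _)))
      (Int.natCast_dvd.mpr (g2.trans (Nat.gcd_dvd_left _ _)))
      (Int.natCast_dvd.mpr (g2.trans (Nat.gcd_dvd_right _ _)))
  have hcZ : IsCoprime (M.natAbs : ℤ) (G : ℤ) := Nat.isCoprime_iff_coprime.mpr hc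
  have hZ : (M.natAbs : ℤ) * (G : ℤ) = (Y:ℤ)^3 := by exact_mod_cast hMG
  obtain ⟨α, hα⟩ := Int.eq_pow_of_mul_eq_pow_odd_left hcZ (by decide : Odd 3) hZ
  rcases Int.natAbs_eq M with h | h
  · exact ⟨α, by rw [h, hα]⟩
  · exact ⟨-α, by rw [h, hα]; ring⟩

/-- general norm identity -/
theorem norm_identity (u v w R S T D : ℤ) (hR : D = u^2-R) (hS : D = v^2-S)
    (hT : D = w^2-T) (huvw : u*(v+w) = v*w) :
    (u^3 + (v+w-u)*R)^2 - R*S*T = D^3 := by
  have hr : R = u^2 - D := by linarith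
  have hs : S = v^2 - D := by linarith
  have ht : T = w^2 - D := by linarith
  have e0 : u^3 + (v+w-u)*R = u*v*w - (v+w-u)*D := by
    rw [hr]; linear_combination u*huvw
  rw [e0, hr, hs, ht]
  linear_combination (-2*D^2 + (u*(v+w) - v*w)*D)*huvw

/-- Arithmetic condition forcing `P` to be a cube. -/
theorem P_cube (a b c x u v w : ℤ)
    (hu : u^2 = x+a*b) (hv : v^2 = x+a*c) (hw : w^2 = x+b*c)
    (huvw : u*(v+w) = v*w)
    (hgcd : ∀ p : ℕ, p.Prime → (p:ℤ) ∣ a → (p:ℤ) ∣ b → (p:ℤ) ∣ c → False)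
    (ha : ∀ p : ℕ, p.Prime → (p:ℤ) ∣ a → (p:ℤ) ∣ c - b → (p:ℤ)^3 ∣ a*(c-b) → False)
    (hb : ∀ p : ℕ, p.Prime → (p:ℤ) ∣ b → (p:ℤ) ∣ c - a → (p:ℤ)^3 ∣ b*(c-a) → False)
    (hc : ∀ p : ℕ, p.Prime → (p:ℤ) ∣ c → (p:ℤ) ∣ b - a → (p:ℤ)^3 ∣ c*(b-a) → False) :
    ∃ α : ℤ, u^3 + (v+w-u)*(a*b) - a*b*c = α^3 := by
  have huv2 : v^2 - u^2 = a*(c-b) := by rw [hv, hu]; ring
  have huw2 : w^2 - u^2 = b*(c-a) := by rw [hw, hu]; ring
  have hvw2 : w^2 - v^2 = c*(b-a) := by rw [hw, hv]; ring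
  -- the four multiples
  have m1 : (u^3 + (v+w-u)*(a*b) - a*b*c) * (u^3 + (v+w-u)*(a*b) + a*b*c) = x^3 := by
    have := norm_identity u v w (a*b) (a*c) (b*c) x (by linarith) (by linarith) (by linarith) huvw
    linear_combination this
  have m2 : (u^3 + (v+w-u)*(a*b) - a*b*c) * (u^3 + (v+w-u-c)*((c-a)*(c-b)))
      = (u*(v+w-c))^3 := by
    have := collinear_identity u (-v) (-w) a b c (by linear_combination huv2)
      (by linear_combination huw2) (by linear_combination -huvw)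
    linear_combination this
  have m3 : (u^3 + (v+w-u)*(a*b) - a*b*c) * ((-v)^3 + (v+w-u-b)*((b-a)*(b-c)))
      = ((-v)*(w-u-b))^3 := by
    have h1 := collinear_identity (-v) u (-w) a c b (by linear_combination -huv2)
      (by linear_combination hvw2) (by linear_combination -huvw)
    have h2 : (u^3 + (v+w-u)*(a*b) - a*b*c) = (-v)^3 + (v+w-u-b)*(a*c) := by
      linear_combination (v+w-u)*huv2 + (u + v)*huvw
    rw [h2]
    linear_combination h1
  have m4 : (u^3 + (v+w-u)*(a*b) - a*b*c) * ((-w)^3 + (v+w-u-a)*((a-b)*(a-c)))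
      = ((-w)*(v-u-a))^3 := by
    have h1 := collinear_identity (-w) u (-v) b c a (by linear_combination -huw2)
      (by linear_combination -hvw2) (by linear_combination -huvw)
    have h2 : (u^3 + (v+w-u)*(a*b) - a*b*c) = (-w)^3 + (v+w-u-a)*(b*c) := by
      linear_combination (v+w-u)*huw2 + (u + w)*huvw
    rw [h2]
    linear_combination h1
  refine cube_of_multiples _ _ _ _ _ _ _ _ _ m1 m2 m3 m4 ?_
  intro p hp d0 d1 d2 d3 d4
  have hP : Prime (p:ℤ) := Nat.prime_iff_prime_int.mp hp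
  have hx : (p:ℤ) ∣ x := by
    apply hP.dvd_of_dvd_pow (n := 3)
    rw [← m1]; exact Dvd.dvd.mul_right d0 _
  have up (y z : ℤ) (hy : y^2 = x + z) (hz : (p:ℤ) ∣ z) : (p:ℤ) ∣ y := by
    apply hP.dvd_of_dvd_pow (n := 2)
    rw [hy]; exact dvd_add hx hz
  have down (y z : ℤ) (hy : y^2 = x + z) (hz : (p:ℤ) ∣ y) : (p:ℤ) ∣ z := by
    have e : z = y*y - x := by linear_combination -hy
    rw [e]; exact dvd_sub (Dvd.dvd.mul_left hz _) hx
  -- p ∣ 2abc
  have h2abc : (p:ℤ) ∣ 2*(a*b*c) := by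
    have e : 2*(a*b*c) = (u^3 + (v+w-u)*(a*b) + a*b*c) - (u^3 + (v+w-u)*(a*b) - a*b*c) := by ring
    rw [e]; exact dvd_sub d1 d0
  have : Fact p.Prime := ⟨hp⟩
  have key (z : ℤ) : (p:ℤ) ∣ z ↔ (z : ZMod p) = 0 := (ZMod.intCast_zmod_eq_zero_iff_dvd z p).symm
  have hxz : (x : ZMod p) = 0 := (key x).mp hx
  have D2 : ((u : ZMod p))^3 + (v+w-u-c)*((c-a)*(c-b)) = 0 := by
    have := (key _).mp d2; push_cast at this; exact this
  have D3 : (-(v : ZMod p))^3 + (v+w-u-b)*((b-a)*(b-c)) = 0 := by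
    have := (key _).mp d3; push_cast at this; exact this
  have D4 : (-(w : ZMod p))^3 + (v+w-u-a)*((a-b)*(a-c)) = 0 := by
    have := (key _).mp d4; push_cast at this; exact this
  have HU : (u : ZMod p)^2 = x + a*b := by exact_mod_cast congrArg (Int.cast : ℤ → ZMod p) hu
  have HV : (v : ZMod p)^2 = x + a*c := by exact_mod_cast congrArg (Int.cast : ℤ → ZMod p) hv
  have HW : (w : ZMod p)^2 = x + b*c := by exact_mod_cast congrArg (Int.cast : ℤ → ZMod p) hw
  -- p | a, not b, not c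
  have caseA : (p:ℤ) ∣ a → ¬ (p:ℤ) ∣ b → ¬ (p:ℤ) ∣ c → False := by
    intro pa pb pc
    have pu := up u _ hu (Dvd.dvd.mul_right pa _)
    have pv := up v _ hv (Dvd.dvd.mul_right pa _)
    have pw : ¬ (p:ℤ) ∣ w := by
      intro h
      rcases hP.dvd_or_dvd (down w _ hw h) with h | h
      · exact pb h
      · exact pc h
    have za := (key a).mp pa
    have zu := (key u).mp pu
    have zv := (key v).mp pv
    have zc : (c : ZMod p) ≠ 0 := fun h => pc ((key c).mpr h)
    have k1 : (c : ZMod p) - b = 0 := by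
      rw [za, zu, zv] at D2
      have : ((w : ZMod p) - c)*(c*(c-b)) = 0 := by linear_combination D2
      rcases mul_eq_zero.mp this with h | h
      · have hwc : (w : ZMod p) = c := by linear_combination h
        rw [hwc, hxz] at HW
        have : (c : ZMod p)*(c-b) = 0 := by linear_combination HW
        exact (mul_eq_zero.mp this).resolve_left zc
      · exact (mul_eq_zero.mp h).resolve_left zc
    have k2 : (p:ℤ) ∣ c - b := (key _).mpr (by push_cast; exact k1)
    refine ha p hp pa k2 ?_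
    rw [← huv2]
    have k3 : (p:ℤ)^2 ∣ w*(v-u) := by
      have e : w*(v-u) = u*v := by linear_combination -huvw
      rw [e, sq]; exact mul_dvd_mul pu pv
    have k4 : (p:ℤ)^2 ∣ v-u := by
      have hcop : IsCoprime ((p:ℤ)^2) w := IsCoprime.pow_left ((Prime.coprime_iff_not_dvd hP).mpr pw)
      exact hcop.dvd_of_dvd_mul_left k3
    have e : v^2-u^2 = (v-u)*(v+u) := by ring
    rw [e, pow_succ]
    exact mul_dvd_mul k4 (dvd_add pv pu)
  -- p | b, not a, not c
  have caseB : (p:ℤ) ∣ b → ¬ (p:ℤ) ∣ a → ¬ (p:ℤ) ∣ c → False := by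
    intro pb pa pc
    have pu := up u _ hu (Dvd.dvd.mul_left pb _)
    have pw := up w _ hw (Dvd.dvd.mul_right pb _)
    have pv : ¬ (p:ℤ) ∣ v := by
      intro h
      rcases hP.dvd_or_dvd (down v _ hv h) with h | h
      · exact pa h
      · exact pc h
    have zb := (key b).mp pb
    have zu := (key u).mp pu
    have zw := (key w).mp pw
    have zc : (c : ZMod p) ≠ 0 := fun h => pc ((key c).mpr h)
    have k1 : (c : ZMod p) - a = 0 := by
      rw [zb, zu, zw] at D2
      have : ((v : ZMod p) - c)*(c*(c-a)) = 0 := by linear_combination D2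
      rcases mul_eq_zero.mp this with h | h
      · have hvc : (v : ZMod p) = c := by linear_combination h
        rw [hvc, hxz] at HV
        have : (c : ZMod p)*(c-a) = 0 := by linear_combination HV
        exact (mul_eq_zero.mp this).resolve_left zc
      · exact (mul_eq_zero.mp h).resolve_left zc
    have k2 : (p:ℤ) ∣ c - a := (key _).mpr (by push_cast; exact k1)
    refine hb p hp pb k2 ?_
    rw [← huw2]
    have k3 : (p:ℤ)^2 ∣ v*(w-u) := by
      have e : v*(w-u) = u*w := by linear_combination -huvw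
      rw [e, sq]; exact mul_dvd_mul pu pw
    have k4 : (p:ℤ)^2 ∣ w-u := by
      have hcop : IsCoprime ((p:ℤ)^2) v := IsCoprime.pow_left ((Prime.coprime_iff_not_dvd hP).mpr pv)
      exact hcop.dvd_of_dvd_mul_left k3
    have e : w^2-u^2 = (w-u)*(w+u) := by ring
    rw [e, pow_succ]
    exact mul_dvd_mul k4 (dvd_add pw pu)
  -- p | c, not a, not b
  have caseC : (p:ℤ) ∣ c → ¬ (p:ℤ) ∣ a → ¬ (p:ℤ) ∣ b → False := by
    intro pc pa pb
    have pv := up v _ hv (Dvd.dvd.mul_left pc _)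
    have pw := up w _ hw (Dvd.dvd.mul_left pc _)
    have pu : ¬ (p:ℤ) ∣ u := by
      intro h
      rcases hP.dvd_or_dvd (down u _ hu h) with h | h
      · exact pa h
      · exact pb h
    have zc := (key c).mp pc
    have zv := (key v).mp pv
    have zw := (key w).mp pw
    have zb : (b : ZMod p) ≠ 0 := fun h => pb ((key b).mpr h)
    have k1 : (b : ZMod p) - a = 0 := by
      rw [zc, zv, zw] at D3
      have : ((u : ZMod p) + b)*(b*(b-a)) = 0 := by linear_combination -D3
      rcases mul_eq_zero.mp this with h | h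
      · have hub : (u : ZMod p) = -b := by linear_combination h
        rw [hub, hxz] at HU
        have : (b : ZMod p)*(b-a) = 0 := by linear_combination HU
        exact (mul_eq_zero.mp this).resolve_left zb
      · exact (mul_eq_zero.mp h).resolve_left zb
    have k2 : (p:ℤ) ∣ b - a := (key _).mpr (by push_cast; exact k1)
    refine hc p hp pc k2 ?_
    rw [← hvw2]
    have k3 : (p:ℤ)^2 ∣ u*(w+v) := by
      have e : u*(w+v) = v*w := by linear_combination huvw
      rw [e, sq]; exact mul_dvd_mul pv pw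
    have k4 : (p:ℤ)^2 ∣ w+v := by
      have hcop : IsCoprime ((p:ℤ)^2) u := IsCoprime.pow_left ((Prime.coprime_iff_not_dvd hP).mpr pu)
      exact hcop.dvd_of_dvd_mul_left k3
    have e : w^2-v^2 = (w+v)*(w-v) := by ring
    rw [e, pow_succ]
    exact mul_dvd_mul k4 (dvd_sub pw pv)
  -- two of them
  have caseAB : (p:ℤ) ∣ a → (p:ℤ) ∣ b → ¬ (p:ℤ) ∣ c → False := by
    intro pa pb pc
    have zu := (key u).mp (up u _ hu (Dvd.dvd.mul_right pa _))
    have zv := (key v).mp (up v _ hv (Dvd.dvd.mul_right pa _))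
    have zw := (key w).mp (up w _ hw (Dvd.dvd.mul_right pb _))
    have za := (key a).mp pa
    have zb := (key b).mp pb
    rw [za, zb, zu, zv, zw] at D2
    have : (c : ZMod p)^3 = 0 := by linear_combination -D2
    exact pc ((key c).mpr (pow_eq_zero_iff (by norm_num) |>.mp this))
  have caseAC : (p:ℤ) ∣ a → (p:ℤ) ∣ c → ¬ (p:ℤ) ∣ b → False := by
    intro pa pc pb
    have zu := (key u).mp (up u _ hu (Dvd.dvd.mul_right pa _))
    have zv := (key v).mp (up v _ hv (Dvd.dvd.mul_right pa _))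
    have zw := (key w).mp (up w _ hw (Dvd.dvd.mul_left pc _))
    have za := (key a).mp pa
    have zc := (key c).mp pc
    rw [za, zc, zu, zv, zw] at D3
    have : (b : ZMod p)^3 = 0 := by linear_combination -D3
    exact pb ((key b).mpr (pow_eq_zero_iff (by norm_num) |>.mp this))
  have caseBC : (p:ℤ) ∣ b → (p:ℤ) ∣ c → ¬ (p:ℤ) ∣ a → False := by
    intro pb pc pa
    have zu := (key u).mp (up u _ hu (Dvd.dvd.mul_left pb _))
    have zv := (key v).mp (up v _ hv (Dvd.dvd.mul_left pc _))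
    have zw := (key w).mp (up w _ hw (Dvd.dvd.mul_left pc _))
    have zb := (key b).mp pb
    have zc := (key c).mp pc
    rw [zb, zc, zu, zv, zw] at D4
    have : (a : ZMod p)^3 = 0 := by linear_combination -D4
    exact pa ((key a).mpr (pow_eq_zero_iff (by norm_num) |>.mp this))
  by_cases pa : (p:ℤ) ∣ a
  · by_cases pb : (p:ℤ) ∣ b
    · by_cases pc : (p:ℤ) ∣ c
      · exact hgcd p hp pa pb pc
      · exact caseAB pa pb pc
    · by_cases pc : (p:ℤ) ∣ c
      · exact caseAC pa pc pb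
      · exact caseA pa pb pc
  · by_cases pb : (p:ℤ) ∣ b
    · by_cases pc : (p:ℤ) ∣ c
      · exact caseBC pb pc pa
      · exact caseB pb pa pc
    · by_cases pc : (p:ℤ) ∣ c
      · exact caseC pc pa pb
      · -- p = 2, all odd
        have hp2 : (p:ℤ) ∣ 2 := by
          rcases hP.dvd_or_dvd h2abc with h | h
          · exact h
          · rcases hP.dvd_or_dvd h with h | h
            · rcases hP.dvd_or_dvd h with h | h
              · exact absurd h pa
              · exact absurd h pb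
            · exact absurd h pc
        have hp2' : p = 2 := by
          have : p ∣ 2 := by exact_mod_cast hp2
          exact (Nat.prime_dvd_prime_iff_eq hp Nat.prime_two).mp this
        subst hp2'
        have pu : ¬ ((2:ℕ):ℤ) ∣ u := fun h => by
          rcases hP.dvd_or_dvd (down u _ hu h) with h | h
          · exact pa h
          · exact pb h
        have pv : ¬ ((2:ℕ):ℤ) ∣ v := fun h => by
          rcases hP.dvd_or_dvd (down v _ hv h) with h | h
          · exact pa h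
          · exact pc h
        have pw : ¬ ((2:ℕ):ℤ) ∣ w := fun h => by
          rcases hP.dvd_or_dvd (down w _ hw h) with h | h
          · exact pb h
          · exact pc h
        have h1 : ((2:ℕ):ℤ) ∣ v*w := by
          rw [← huvw]
          apply Dvd.dvd.mul_left
          push_cast at pv pw ⊢
          omega
        rcases hP.dvd_or_dvd h1 with h | h
        · exact pv h
        · exact pw h

end Pool.Agent.Helper590.Tors6
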