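import Pool.Agent.Helper590.Tors6.Local

set_option autoImplicit false

namespace Pool.Agent.Helper590.Tors6

/-- A prime dividing `D = u²-r²` does not divide `rst`. -/
theorem prime_not_dvd (u v w r s t D : ℤ) (hD1 : D = u^2-r^2) (hD2 : D = v^2-s^2)
    (hD3 : D = w^2-t^2) (huvw : u*(v+w) = v*w)
    (c1 : IsCoprime r s) (c2 : IsCoprime r t) (c3 : IsCoprime s t) (p : ℤ) (hp : Prime p)
    (hpD : p ∣ D) (hpr : p ∣ r*s*t) : False := by
  have down (y z : ℤ) (hD : D = y^2-z^2) (hz : p ∣ z) : p ∣ y := by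
    apply hp.dvd_of_dvd_pow (n := 2)
    have : y^2 = D + z*z := by rw [hD]; ring
    rw [this]; exact dvd_add hpD (Dvd.dvd.mul_left hz _)
  have up (y z : ℤ) (hD : D = y^2-z^2) (hy : p ∣ y) : p ∣ z := by
    apply hp.dvd_of_dvd_pow (n := 2)
    have : z^2 = y*y - D := by rw [hD]; ring
    rw [this]; exact dvd_sub (Dvd.dvd.mul_left hy _) hpD
  have k1 : ¬ (p ∣ r ∧ p ∣ s) := not_both_dvd c1 p hp.not_isUnit
  have k2 : ¬ (p ∣ r ∧ p ∣ t) := not_both_dvd c2 p hp.not_isUnit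
  have k3 : ¬ (p ∣ s ∧ p ∣ t) := not_both_dvd c3 p hp.not_isUnit
  rcases hp.dvd_or_dvd hpr with h | h
  · rcases hp.dvd_or_dvd h with h | h
    · -- p ∣ r
      have hu := down u r hD1 h
      have : p ∣ v*w := by rw [← huvw]; exact Dvd.dvd.mul_right hu _
      rcases hp.dvd_or_dvd this with h' | h'
      · exact k1 ⟨h, up v s hD2 h'⟩
      · exact k2 ⟨h, up w t hD3 h'⟩
    · have hv := down v s hD2 h
      have : p ∣ u*w := by
        have e : u*w = v*w - u*v := by linear_combination huvw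
        rw [e]; exact dvd_sub (Dvd.dvd.mul_right hv _) (Dvd.dvd.mul_left hv _)
      rcases hp.dvd_or_dvd this with h' | h'
      · exact k1 ⟨up u r hD1 h', h⟩
      · exact k3 ⟨h, up w t hD3 h'⟩
  · have hw := down w t hD3 h
    have : p ∣ u*v := by
      have e : u*v = v*w - u*w := by linear_combination huvw
      rw [e]; exact dvd_sub (Dvd.dvd.mul_left hw _) (Dvd.dvd.mul_left hw _)
    rcases hp.dvd_or_dvd this with h' | h'
    · exact k2 ⟨up u r hD1 h', h⟩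
    · exact k3 ⟨up v s hD2 h', h⟩

/-- the key identity -/
theorem key_identity (u v w r s t D : ℤ) (hD1 : D = u^2-r^2) (hD2 : D = v^2-s^2)
    (hD3 : D = w^2-t^2) (huvw : u*(v+w) = v*w) :
    (u^3 + (v+w-u)*r^2 - r*s*t) * (u^3 + (v+w-u)*r^2 + r*s*t) = D^3 := by
  have hr : r^2 = u^2 - D := by linarith
  have hs : s^2 = v^2 - D := by linarith
  have ht : t^2 = w^2 - D := by linarith
  have e1 : (u^3 + (v+w-u)*r^2 - r*s*t) * (u^3 + (v+w-u)*r^2 + r*s*t)
      = (u^3 + (v+w-u)*r^2)^2 - r^2*s^2*t^2 := by ring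
  have e0 : u^3 + (v+w-u)*r^2 = u*v*w - (v+w-u)*D := by
    rw [hr]; linear_combination u*huvw
  rw [e1, e0, hr, hs, ht]
  linear_combination (-2*D^2 + (u*(v+w) - v*w)*D)*huvw

/-- existence of the cube roots -/
theorem exists_cubes (u v w r s t D : ℤ) (hD1 : D = u^2-r^2) (hD2 : D = v^2-s^2)
    (hD3 : D = w^2-t^2) (huvw : u*(v+w) = v*w)
    (c1 : IsCoprime r s) (c2 : IsCoprime r t) (c3 : IsCoprime s t) (hodd : ¬ 2 ∣ D) :
    ∃ α β : ℤ, α^3 = u^3 + (v+w-u)*r^2 - r*s*t ∧ β^3 = u^3 + (v+w-u)*r^2 + r*s*t ∧ α*β = D := by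
  have hprod := key_identity u v w r s t D hD1 hD2 hD3 huvw
  have hD0 : D ≠ 0 := by rintro rfl; exact hodd (dvd_zero 2)
  have hcop : IsCoprime (u^3 + (v+w-u)*r^2 - r*s*t) (u^3 + (v+w-u)*r^2 + r*s*t) := by
    apply isCoprime_of_prime_dvd
    · rintro ⟨h1, h2⟩
      rw [h1, zero_mul] at hprod
      exact hD0 (by simpa using hprod.symm)
    · intro p hp h1 h2
      have hpD : p ∣ D := by
        apply hp.dvd_of_dvd_pow (n := 3)
        rw [← hprod]; exact Dvd.dvd.mul_right h1 _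
      have h3 : p ∣ 2*(r*s*t) := by
        have e : 2*(r*s*t) = (u^3 + (v+w-u)*r^2 + r*s*t) - (u^3 + (v+w-u)*r^2 - r*s*t) := by ring
        rw [e]; exact dvd_sub h2 h1
      rcases hp.dvd_or_dvd h3 with h | h
      · -- p ∣ 2
        apply hp.not_isUnit
        have : p ∣ 1 := by
          obtain ⟨j, hj⟩ : ∃ j, D = 2*j+1 := ⟨D/2, by omega⟩
          have e : (1:ℤ) = D - 2*j := by linarith
          rw [e]; exact dvd_sub hpD (Dvd.dvd.mul_right h _)
        exact isUnit_of_dvd_one this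
      · exact prime_not_dvd u v w r s t D hD1 hD2 hD3 huvw c1 c2 c3 p hp hpD h
  obtain ⟨α, hα⟩ := Int.eq_pow_of_mul_eq_pow_odd_left hcop (by decide : Odd 3) hprod
  obtain ⟨β, hβ⟩ := Int.eq_pow_of_mul_eq_pow_odd_right hcop (by decide : Odd 3) hprod
  refine ⟨α, β, hα.symm, hβ.symm, ?_⟩
  have h : (α*β)^3 = D^3 := by rw [mul_pow, ← hα, ← hβ, hprod]
  exact (Odd.strictMono_pow (by decide : Odd 3)).injective h

theorem three_dvd_cube_sub (α : ℤ) : 3 ∣ α^3 - α := by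
  have h3 : α % 3 = 0 ∨ α % 3 = 1 ∨ α % 3 = 2 := by omega
  have e : α^3 - α = α * (α-1) * (α+1) := by ring
  rw [e]
  rcases h3 with h | h | h
  · exact Dvd.dvd.mul_right (Dvd.dvd.mul_right (by omega) _) _
  · exact Dvd.dvd.mul_right (Dvd.dvd.mul_left (by omega) _) _
  · exact Dvd.dvd.mul_left (by omega) _

/-- The main arithmetic step: `108 u² < r² (v + w - 4u)`. -/
theorem main_ineq (a b c r s t x u v w : ℤ) (ha : 0 < a) (hab : a < b) (hbc : b < c)
    (hr : 0 < r) (hs : 0 < s) (ht : 0 < t)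
    (h1 : r^2 = a*b+1) (h2 : s^2 = a*c+1) (h3 : t^2 = b*c+1)
    (hu0 : 0 < u) (hv0 : 0 < v) (hw0 : 0 < w)
    (hu : u^2 = x+a*b) (hv : v^2 = x+a*c) (hw : w^2 = x+b*c)
    (huvw : u*(v+w) = v*w) :
    108*u^2 < r^2*(v+w-4*u) := by
  have hb : 0 < b := lt_trans ha hab
  have hc : 0 < c := lt_trans hb hbc
  obtain ⟨c1, c2, c3⟩ := coprime_triple a b c r s t ha hb hc hr hs ht h1 h2 h3
  have h12 : u^2-r^2 = v^2-s^2 := by linarith
  have h23 : v^2-s^2 = w^2-t^2 := by linarith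
  obtain ⟨hu4, hv4, hw4⟩ := local2b u v w r s t h12 h23 huvw c1 c2 c3
  obtain ⟨hx16, -, -, -⟩ := local2c a b c r s t x u v w h1 h2 h3 hu hv hw huvw c1 c2 c3
  obtain ⟨h3h, -, -, -⟩ := local3 u v w r s t h12 h23 huvw c1 c2 c3
  have hodd : ¬ 2 ∣ (x-1) := by omega
  obtain ⟨α, β, hα, hβ, hαβ⟩ := exists_cubes u v w r s t (x-1) (by linarith) (by linarith)
    (by linarith) huvw c1 c2 c3 hodd
  -- 8 ∣ α + β
  have h8 : 8 ∣ α + β := by
    have hα2 : ¬ 2 ∣ α := by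
      intro h; apply hodd; rw [← hαβ]; exact Dvd.dvd.mul_right h _
    obtain ⟨j, hj⟩ := odd_sq_mod8 α hα2
    obtain ⟨i, hi⟩ := hx16
    refine ⟨2*i*α - j*β, ?_⟩
    have e : α^2*β = α*(x-1) := by rw [← hαβ]; ring
    rw [hj, hi] at e
    linear_combination e
  -- 3 ∣ k
  have h3k : 3 ∣ α + β - 2*u := by
    obtain ⟨i1, hi1⟩ := three_dvd_cube_sub α
    obtain ⟨i2, hi2⟩ := three_dvd_cube_sub β
    obtain ⟨i3, hi3⟩ := three_dvd_cube_sub u
    obtain ⟨i4, hi4⟩ := h3h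
    refine ⟨2*i4*r^2 + 2*i3 - i1 - i2, ?_⟩
    linear_combination hα + hβ - hi1 - hi2 + 2*hi3 + 2*r^2*hi4
  have h24 : 24 ∣ α + β - 2*u := by
    obtain ⟨i, hi⟩ := hu4
    omega
  have hx : x - 1 = u^2 - r^2 := by linarith
  -- the cubic relation
  have hk : (α+β-2*u)*((3*u+(α+β-2*u))^2+3*r^2) = 2*r^2*(v+w-4*u) := by
    have e : (α+β)^3 = α^3 + β^3 + 3*(α*β)*(α+β) := by ring
    rw [hα, hβ, hαβ, hx] at e
    linear_combination e
  have hg : 0 < v+w-4*u := by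
    have hvw : v < w := by
      have : v^2 < w^2 := by nlinarith
      exact lt_of_pow_lt_pow_left₀ 2 hw0.le this
    have : 0 < (v+w)*(v+w-4*u) := by
      have e : (v+w)*(v+w-4*u) = (w-v)^2 := by linear_combination (-4)*huvw
      rw [e]; have : 0 < w - v := by linarith
      positivity
    exact (mul_pos_iff_of_pos_left (by linarith)).mp this
  have hkpos : 0 < α+β-2*u := by
    have h5 : 0 < (α+β-2*u)*((3*u+(α+β-2*u))^2+3*r^2) := by rw [hk]; positivity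
    have h6 : 0 < (3*u+(α+β-2*u))^2+3*r^2 := by positivity
    exact (mul_pos_iff_of_pos_right h6).mp h5
  have hk24 : 24 ≤ α+β-2*u := by
    obtain ⟨i, hi⟩ := h24
    omega
  have h7 : 9*u^2 < (3*u+(α+β-2*u))^2+3*r^2 := by nlinarith [mul_pos hu0 hkpos, sq_nonneg r, sq_nonneg (α+β-2*u)]
  have h8 : 24*(9*u^2) < 2*r^2*(v+w-4*u) := by
    rw [← hk]
    calc 24*(9*u^2) < 24*((3*u+(α+β-2*u))^2+3*r^2) := by linarith
      _ ≤ _ := by
        apply mul_le_mul_of_nonneg_right hk24; positivity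
  linarith

end Pool.Agent.Helper590.Tors6
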