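import Mathlib

set_option autoImplicit false

namespace Pool.Agent.Helper590.Tors6

open WeierstrassCurve

/-- Coordinates of a rational point of order three on `Y² = X³ + a₂X² + a₄X + a₆`. -/
theorem order3_coords (W : WeierstrassCurve ℚ) (h1 : W.a₁ = 0) (h3 : W.a₃ = 0)
    (P : W.toAffine.Point) (hP : P ≠ 0) (h3P : 3 • P = 0) :
    ∃ x y l : ℚ, y ≠ 0 ∧ y^2 = x^3 + W.a₂*x^2 + W.a₄*x + W.a₆ ∧ l^2 = 3*x + W.a₂ ∧
      2*y*l = 3*x^2 + 2*W.a₂*x + W.a₄ := by
  have h2P : P + P = -P := by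
    have : P + P + P = 0 := by
      have e : 3 • P = P + P + P := by
        rw [show (3:ℕ) = 1+1+1 from rfl, add_smul, add_smul, one_smul]
      rw [← e, h3P]
    exact eq_neg_of_add_eq_zero_left this
  rcases P with _ | ⟨x, y, h⟩
  · exact absurd rfl hP
  · by_cases hy : y = W.toAffine.negY x y
    · exfalso
      rw [Affine.Point.add_self_of_Y_eq hy] at h2P
      apply hP
      rw [← neg_eq_zero, ← h2P]
    · rw [Affine.Point.add_self_of_Y_ne hy, Affine.Point.neg_some] at h2P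
      rw [Affine.Point.some.injEq] at h2P
      have hx := h2P.1
      have heq := (Affine.equation_iff x y).mp h.1
      have hny : W.toAffine.negY x y = -y := by
        simp [Affine.negY, h1, h3]
      have hy0 : y ≠ 0 := by
        intro h0
        apply hy
        rw [hny, h0, neg_zero]
      rw [Affine.slope_of_Y_ne rfl hy, hny] at hx
      simp only [Affine.addX, h1] at hx
      refine ⟨x, y, (3 * x ^ 2 + 2 * W.a₂ * x + W.a₄)/(2*y), hy0, ?_, ?_, ?_⟩
      · rw [h1, h3] at heq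
        linear_combination heq
      · have e : (3 * x ^ 2 + 2 * W.toAffine.a₂ * x + W.toAffine.a₄ - 0 * y) / (y - -y)
            = (3 * x ^ 2 + 2 * W.a₂ * x + W.a₄)/(2*y) := by
          congr 1 <;> ring
        rw [e] at hx
        linear_combination hx
      · field_simp

/-- From the coordinates to three square roots. -/
theorem square_roots (α β γ x y l : ℚ) (hαβ : α ≠ β) (hαγ : α ≠ γ) (hβγ : β ≠ γ) (hy : y ≠ 0)
    (h1 : y^2 = x^3 + (α+β+γ)*x^2 + (α*β+α*γ+β*γ)*x + α*β*γ)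
    (h2 : l^2 = 3*x + (α+β+γ))
    (h3 : 2*y*l = 3*x^2 + 2*(α+β+γ)*x + (α*β+α*γ+β*γ)) :
    ∃ U V W : ℚ, U^2 = x + α ∧ V^2 = x + β ∧ W^2 = x + γ ∧ U*V + U*W + V*W = 0 ∧
      U ≠ 0 ∧ V ≠ 0 ∧ W ≠ 0 := by
  have hprod : y^2 = (x+α)*(x+β)*(x+γ) := by rw [h1]; ring
  have hA : x + α ≠ 0 := by
    intro h; apply hy; rw [h] at hprod; simpa using hprod
  have hB : x + β ≠ 0 := by
    intro h; apply hy; rw [h] at hprod; simpa using hprod
  have hC : x + γ ≠ 0 := by
    intro h; apply hy; rw [h] at hprod; simpa using hprod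
  have kA : (y - l*(x+α))^2 = (x+α)^3 := by
    linear_combination h1 + (x+α)^2*h2 - (x+α)*h3
  have kB : (y - l*(x+β))^2 = (x+β)^3 := by
    linear_combination h1 + (x+β)^2*h2 - (x+β)*h3
  have kC : (y - l*(x+γ))^2 = (x+γ)^3 := by
    linear_combination h1 + (x+γ)^2*h2 - (x+γ)*h3
  obtain ⟨U, hU⟩ : ∃ U, U = (y - l*(x+α))/(x+α) := ⟨_, rfl⟩
  obtain ⟨V, hV⟩ : ∃ V, V = (y - l*(x+β))/(x+β) := ⟨_, rfl⟩
  obtain ⟨W, hW⟩ : ∃ W, W = (y - l*(x+γ))/(x+γ) := ⟨_, rfl⟩
  have U2 : U^2 = x+α := by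
    rw [hU, div_pow, kA]; field_simp
  have V2 : V^2 = x+β := by
    rw [hV, div_pow, kB]; field_simp
  have W2 : W^2 = x+γ := by
    rw [hW, div_pow, kC]; field_simp
  have U3 : U^3 + l*U^2 = y := by
    have : U*(x+α) = y - l*(x+α) := by rw [hU]; field_simp
    rw [pow_succ, U2]; linear_combination this
  have V3 : V^3 + l*V^2 = y := by
    have : V*(x+β) = y - l*(x+β) := by rw [hV]; field_simp
    rw [pow_succ, V2]; linear_combination this
  have W3 : W^3 + l*W^2 = y := by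
    have : W*(x+γ) = y - l*(x+γ) := by rw [hW]; field_simp
    rw [pow_succ, W2]; linear_combination this
  have hUV : U - V ≠ 0 := by
    intro h
    have : U = V := by linarith
    apply hαβ
    have : x + α = x + β := by rw [← U2, ← V2, this]
    linarith
  have hUW : U - W ≠ 0 := by
    intro h
    have : U = W := by linarith
    apply hαγ
    have : x + α = x + γ := by rw [← U2, ← W2, this]
    linarith
  have hVW : V - W ≠ 0 := by
    intro h
    have : V = W := by linarith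
    apply hβγ
    have : x + β = x + γ := by rw [← V2, ← W2, this]
    linarith
  have q1 : U^2+U*V+V^2 + l*(U+V) = 0 := by
    have : (U-V)*(U^2+U*V+V^2 + l*(U+V)) = 0 := by linear_combination U3 - V3
    exact (mul_eq_zero.mp this).resolve_left hUV
  have q2 : U^2+U*W+W^2 + l*(U+W) = 0 := by
    have : (U-W)*(U^2+U*W+W^2 + l*(U+W)) = 0 := by linear_combination U3 - W3
    exact (mul_eq_zero.mp this).resolve_left hUW
  have q3 : U + V + W + l = 0 := by
    have : (V-W)*(U+V+W+l) = 0 := by linear_combination q1 - q2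
    exact (mul_eq_zero.mp this).resolve_left hVW
  refine ⟨U, V, W, U2, V2, W2, ?_, ?_, ?_, ?_⟩
  · linear_combination (U+V)*q3 - q1
  · rintro rfl; apply hA; rw [← U2]; norm_num
  · rintro rfl; apply hB; rw [← V2]; norm_num
  · rintro rfl; apply hC; rw [← W2]; norm_num

/-- Integrality: the square roots are integers. -/
theorem root_integral (α β γ : ℤ) (x U V W : ℚ) (hU : U^2 = x + α) (hV : V^2 = x + β)
    (hW : W^2 = x + γ) (h : U*V + U*W + V*W = 0) : ∃ n : ℤ, U = n := by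
  -- quartic equation for z = U²
  have hx : x = U^2 - α := by linarith
  obtain ⟨z, hz⟩ : ∃ z, z = U^2 := ⟨_, rfl⟩
  have hV' : V^2 = z + (β-α) := by rw [hV, hx, hz]; ring
  have hW' : W^2 = z + (γ-α) := by rw [hW, hx, hz]; ring
  obtain ⟨b, hb⟩ : ∃ b : ℤ, b = β - α := ⟨_, rfl⟩
  obtain ⟨c, hc⟩ : ∃ c : ℤ, c = γ - α := ⟨_, rfl⟩
  have hbq : (b:ℚ) = β - α := by rw [hb]; push_cast; ring
  have hcq : (c:ℚ) = γ - α := by rw [hc]; push_cast; ring
  rw [← hbq] at hV'
  rw [← hcq] at hW'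
  -- f(z) = z (z+b) (z+c), f' = 3z²+2(b+c)z+bc, 4 f (3z+b+c) = f'^2
  have hq : 3*z^4 + 4*(b+c)*z^3 + 6*(b*c)*z^2 - (b*c)^2 = 0 := by
    have e1 : (U+V+W)^2 = 3*z + (b+c) := by
      linear_combination 2*h + hV' + hW' - hz
    have e2 : (U*V*W)^2 = z*(z+b)*(z+c) := by
      have : (U*V*W)^2 = U^2*V^2*W^2 := by ring
      rw [this, hV', hW', ← hz]
    have e3 : 2*(U*V*W)*(U+V+W) = -(3*z^2+2*(b+c)*z+b*c) := by
      have : 2*(U*V*W)*(U+V+W) = (U*V+U*W+V*W)^2 - (U^2*V^2+U^2*W^2+V^2*W^2) := by ring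
      rw [this, h, hV', hW', ← hz]; ring
    have e4 : (2*(U*V*W)*(U+V+W))^2 = 4*(U*V*W)^2*(U+V+W)^2 := by ring
    rw [e3, e2, e1] at e4
    linear_combination -e4
  -- denominators
  have hzden : (z.den : ℤ) ∣ 3 := by
    have hd0 : (z.den : ℚ) ≠ 0 := by exact_mod_cast z.den_nz
    have hzz : z = (z.num : ℚ)/(z.den : ℚ) := (Rat.num_div_den z).symm
    have hint : 3*z.num^4 = (z.den:ℤ)*(-(4*(b+c)*z.num^3 + 6*(b*c)*z.num^2*z.den - (b*c)^2*z.den^3)) := by
      have : (3*z.num^4 : ℚ) = (z.den:ℚ)*(-(4*(b+c)*z.num^3 + 6*(b*c)*z.num^2*z.den - (b*c)^2*z.den^3)) := by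
        rw [hzz] at hq
        field_simp at hq
        linear_combination hq
      exact_mod_cast this
    have hdvd : (z.den : ℤ) ∣ 3*z.num^4 := ⟨_, hint⟩
    have hcop : IsCoprime (z.den : ℤ) (z.num^4) := by
      apply IsCoprime.pow_right
      rw [Int.isCoprime_iff_gcd_eq_one, Int.gcd_comm]
      exact z.reduced
    exact hcop.dvd_of_dvd_mul_right hdvd
  have hUden : z.den = U.den^2 := by rw [hz, Rat.den_pow]
  have hden1 : U.den = 1 := by
    rw [hUden] at hzden
    have h3 : U.den^2 ∣ 3 := by exact_mod_cast hzden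
    have h4 : U.den^2 ≤ 3 := Nat.le_of_dvd (by norm_num) h3
    have h5 : 0 < U.den := U.den_pos
    have h6 : U.den < 2 := by nlinarith
    omega
  exact ⟨U.num, by rw [← Rat.num_div_den U, hden1]; simp⟩

end Pool.Agent.Helper590.Tors6
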