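import Pool.Agent.Helper590.Tors6.D4Final
import Pool.Agent.Helper590.Tors6.Assemble

set_option autoImplicit false

namespace Pool.Agent.Helper590.Tors6.D4

open Pool.Agent.Helper590.Tors6

/-- The integer data attached to a rational point of order three (`D(4)` normalisation). -/
theorem integer_data (a b c : ℤ) (ha : 0 < a) (hab : a < b) (hbc : b < c)
    (W : WeierstrassCurve ℚ) (w1 : W.a₁ = 0) (w3 : W.a₃ = 0)
    (w2 : W.a₂ = (4*(a*b + a*c + b*c) : ℚ))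
    (w4 : W.a₄ = (16*(a*b*(a*c) + a*b*(b*c) + a*c*(b*c)) : ℚ))
    (w6 : W.a₆ = (64*(a*b)*(a*c)*(b*c) : ℚ))
    (P : W.toAffine.Point) (hP : P ≠ 0) (h3P : 3 • P = 0) :
    ∃ x U V Z : ℤ, U ≠ 0 ∧ V ≠ 0 ∧ Z ≠ 0 ∧ U^2 = x + a*b ∧ V^2 = x + a*c ∧ Z^2 = x + b*c ∧
      U*V + U*Z + V*Z = 0 ∧
      ∀ g a' b' c' : ℤ, a = g*a' → b = g*b' → c = g*c' → ∃ x' U' V' Z' : ℤ,
        U = g*U' ∧ V = g*V' ∧ Z = g*Z' ∧ x = g^2*x' := by
  have hb : 0 < b := lt_trans ha hab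
  have hc : 0 < c := lt_trans hb hbc
  obtain ⟨x, y, l, hy, e1, e2, e3⟩ := order3_coords W w1 w3 P hP h3P
  rw [w2, w4, w6] at e1
  rw [w2] at e2
  rw [w2, w4] at e3
  have n1 : ((4*(a*b) : ℤ) : ℚ) ≠ ((4*(a*c) : ℤ) : ℚ) := by
    intro h
    have h0 : 4*(a*b) = 4*(a*c) := by exact_mod_cast h
    have h' : a*b = a*c := by linarith
    have := mul_left_cancel₀ ha.ne' h'
    linarith
  have n2 : ((4*(a*b) : ℤ) : ℚ) ≠ ((4*(b*c) : ℤ) : ℚ) := by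
    intro h
    have h0 : 4*(a*b) = 4*(b*c) := by exact_mod_cast h
    have h' : b*a = b*c := by linarith
    have := mul_left_cancel₀ hb.ne' h'
    linarith
  have n3 : ((4*(a*c) : ℤ) : ℚ) ≠ ((4*(b*c) : ℤ) : ℚ) := by
    intro h
    have h0 : 4*(a*c) = 4*(b*c) := by exact_mod_cast h
    have h' : a*c = b*c := by linarith
    have := mul_right_cancel₀ hc.ne' h'
    linarith
  obtain ⟨U, V, Z, hU, hV, hZ, hs, hU0, hV0, hZ0⟩ := square_roots ((4*(a*b) : ℤ) : ℚ)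
    ((4*(a*c) : ℤ) : ℚ) ((4*(b*c) : ℤ) : ℚ) x y l n1 n2 n3 hy (by push_cast; linear_combination e1)
    (by push_cast; linear_combination e2) (by push_cast; linear_combination e3)
  -- halve
  obtain ⟨U1, hU1⟩ : ∃ U1, U = 2*U1 := ⟨U/2, by ring⟩
  obtain ⟨V1, hV1⟩ : ∃ V1, V = 2*V1 := ⟨V/2, by ring⟩
  obtain ⟨Z1, hZ1⟩ : ∃ Z1, Z = 2*Z1 := ⟨Z/2, by ring⟩
  obtain ⟨x1, hx1⟩ : ∃ x1, x = 4*x1 := ⟨x/4, by ring⟩
  have kU : U1^2 = x1 + ((a*b : ℤ) : ℚ) := by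
    rw [hU1, hx1] at hU; push_cast at hU ⊢; linarith
  have kV : V1^2 = x1 + ((a*c : ℤ) : ℚ) := by
    rw [hV1, hx1] at hV; push_cast at hV ⊢; linarith
  have kZ : Z1^2 = x1 + ((b*c : ℤ) : ℚ) := by
    rw [hZ1, hx1] at hZ; push_cast at hZ ⊢; linarith
  have ks : U1*V1 + U1*Z1 + V1*Z1 = 0 := by
    rw [hU1, hV1, hZ1] at hs; linarith
  have kU0 : U1 ≠ 0 := by rintro rfl; apply hU0; rw [hU1]; norm_num
  have kV0 : V1 ≠ 0 := by rintro rfl; apply hV0; rw [hV1]; norm_num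
  have kZ0 : Z1 ≠ 0 := by rintro rfl; apply hZ0; rw [hZ1]; norm_num
  obtain ⟨n, m, k, hn, hm, hk⟩ := roots_integral (a*b) (a*c) (b*c) x1 U1 V1 Z1 kU kV kZ ks
  have hx : x1 = ((n^2 - a*b : ℤ) : ℚ) := by push_cast; rw [← hn]; push_cast at kU; linarith
  refine ⟨n^2-a*b, n, m, k, ?_, ?_, ?_, ?_, ?_, ?_, ?_, ?_⟩
  · rintro rfl; apply kU0; rw [hn]; norm_num
  · rintro rfl; apply kV0; rw [hm]; norm_num
  · rintro rfl; apply kZ0; rw [hk]; norm_num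
  · ring
  · rw [hm, hx] at kV
    exact_mod_cast kV
  · rw [hk, hx] at kZ
    exact_mod_cast kZ
  · rw [hn, hm, hk] at ks
    exact_mod_cast ks
  · intro g a' b' c' ga gb gc
    have hg : g ≠ 0 := by rintro rfl; rw [zero_mul] at ga; linarith
    have hgq : (g : ℚ) ≠ 0 := by exact_mod_cast hg
    have sc (T : ℚ) (p p' q q' : ℤ) (hT : T^2 = x1 + ((p*q : ℤ) : ℚ)) (hp : p = g*p') (hq : q = g*q') :
        (T/g)^2 = x1/g^2 + ((p'*q' : ℤ) : ℚ) := by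
      rw [div_pow, hT, hp, hq]; push_cast; field_simp
    obtain ⟨n', m', k', hn', hm', hk'⟩ := roots_integral (a'*b') (a'*c') (b'*c') (x1/g^2) (U1/g)
      (V1/g) (Z1/g) (sc U1 a a' b b' kU ga gb) (sc V1 a a' c c' kV ga gc)
      (sc Z1 b b' c c' kZ gb gc) (by
        have : U1/g*(V1/g) + U1/g*(Z1/g) + V1/g*(Z1/g) = (U1*V1+U1*Z1+V1*Z1)/g^2 := by field_simp
        rw [this, ks, zero_div])
    have gn : n = g*n' := by
      have : (n:ℚ) = g*n' := by rw [← hn', ← hn]; field_simp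
      exact_mod_cast this
    have gm : m = g*m' := by
      have : (m:ℚ) = g*m' := by rw [← hm', ← hm]; field_simp
      exact_mod_cast this
    have gk : k = g*k' := by
      have : (k:ℚ) = g*k' := by rw [← hk', ← hk]; field_simp
      exact_mod_cast this
    exact ⟨n'^2 - a'*b', n', m', k', gn, gm, gk, by rw [gn, ga, gb]; ring⟩

/-- The whole conclusion for `D(4)`-triples. -/
theorem curve_main (a b c : ℤ) (ha : 0 < a) (hab : a < b) (hbc : b < c)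
    (h1 : IsSquare (a*b+4)) (h2 : IsSquare (a*c+4)) (h3 : IsSquare (b*c+4))
    (W : WeierstrassCurve ℚ) (w1 : W.a₁ = 0) (w3 : W.a₃ = 0)
    (w2 : W.a₂ = (4*(a*b + a*c + b*c) : ℚ))
    (w4 : W.a₄ = (16*(a*b*(a*c) + a*b*(b*c) + a*c*(b*c)) : ℚ))
    (w6 : W.a₆ = (64*(a*b)*(a*c)*(b*c) : ℚ))
    (P : W.toAffine.Point) (hP : P ≠ 0) (h3P : 3 • P = 0) :
    (∀ r : ℤ, r^2 = a*b+4 → c ≠ a + b + 2*r) ∧
    (3 ∣ a*b ∧ 3 ∣ a*c ∧ 3 ∣ b*c) ∧
    (¬ 16 ∣ a*b+4 ∧ ¬ 16 ∣ a*c+4 ∧ ¬ 16 ∣ b*c+4) ∧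
    (¬ 2 ∣ a → ¬ 2 ∣ b → 32 ∣ c) ∧ (¬ 2 ∣ a → ¬ 2 ∣ c → 32 ∣ b) ∧ (¬ 2 ∣ b → ¬ 2 ∣ c → 32 ∣ a) ∧
    a*b < c ∧ (150*c)^3 < a^2*b^7 ∧ (7*a)^4 < b*(b-a)^4 ∧ 42^4*a < b^4 ∧
    (∀ g a' b' c' : ℤ, 0 < g → a = g*a' → b = g*b' → c = g*c' →
      (∀ p : ℕ, p.Prime → ¬ ((p:ℤ) ∣ a' ∧ (p:ℤ) ∣ b' ∧ (p:ℤ) ∣ c')) →
      ∃ p : ℕ, p.Prime ∧
        (((p:ℤ) ∣ a' ∧ (p:ℤ) ∣ c' - b' ∧ (p:ℤ)^3 ∣ a'*(c'-b')) ∨
         ((p:ℤ) ∣ b' ∧ (p:ℤ) ∣ c' - a' ∧ (p:ℤ)^3 ∣ b'*(c'-a')) ∨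
         ((p:ℤ) ∣ c' ∧ (p:ℤ) ∣ b' - a' ∧ (p:ℤ)^3 ∣ c'*(b'-a')))) := by
  have hb : 0 < b := lt_trans ha hab
  have hc : 0 < c := lt_trans hb hbc
  obtain ⟨x, U, V, Z, hU0, hV0, hZ0, hU, hV, hZ, hs, hsc⟩ :=
    integer_data a b c ha hab hbc W w1 w3 w2 w4 w6 P hP h3P
  have getroot (z : ℤ) (hz : 0 < z) (h : IsSquare z) : ∃ r : ℤ, 0 < r ∧ r^2 = z := by
    obtain ⟨r, hr⟩ := h
    refine ⟨|r|, abs_pos.mpr ?_, by rw [sq_abs, hr]; ring⟩
    rintro rfl; linarith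
  obtain ⟨r, hr, e1⟩ := getroot (a*b+4) (by positivity) h1
  obtain ⟨s, hs', e2⟩ := getroot (a*c+4) (by positivity) h2
  obtain ⟨t, ht, e3⟩ := getroot (b*c+4) (by positivity) h3
  have hu0 : 0 < |U| := abs_pos.mpr hU0
  have hv0 : 0 < |V| := abs_pos.mpr hV0
  have hw0 : 0 < |Z| := abs_pos.mpr hZ0
  have hu : |U|^2 = x + a*b := by rw [sq_abs]; exact hU
  have hv : |V|^2 = x + a*c := by rw [sq_abs]; exact hV
  have hw : |Z|^2 = x + b*c := by rw [sq_abs]; exact hZ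
  have huv : |U| < |V| := by
    have : |U|^2 < |V|^2 := by
      rw [hu, hv]
      have : 0 < a*(c-b) := mul_pos ha (by linarith)
      linarith
    exact lt_of_pow_lt_pow_left₀ 2 hv0.le this
  have hvw : |V| < |Z| := by
    have : |V|^2 < |Z|^2 := by
      rw [hv, hw]
      have : 0 < c*(b-a) := mul_pos hc (by linarith)
      linarith
    exact lt_of_pow_lt_pow_left₀ 2 hw0.le this
  have huvw := sign_fix U V Z hU0 hV0 hZ0 hs huv hvw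
  obtain ⟨i1, ⟨q1, q2, q3⟩, ⟨t1, t2, t3⟩, o1, o2, o3, i21, i3, -, i4, i5, -⟩ :=
    integer_main a b c r s t x |U| |V| |Z| ha hab hbc hr hs' ht
    e1 e2 e3 hu0 hv0 hw0 hu hv hw huvw
  have three (m z : ℤ) (hm : ¬ 3 ∣ m) (h : m^2 = z + 4) : 3 ∣ z := by
    have := not3_sq m (z+3) hm (by linarith)
    omega
  have sixteen (m z : ℤ) (hm : ¬ 4 ∣ m) (h : m^2 = z + 4) : ¬ 16 ∣ z + 4 := by
    intro h16
    apply hm
    have h4 : (4:ℤ)^2 ∣ m^2 := by rw [h]; norm_num; exact h16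
    exact (Int.pow_dvd_pow_iff (by norm_num)).mp h4
  refine ⟨?_, ⟨three r _ t1 e1, three s _ t2 e2, three t _ t3 e3⟩,
    ⟨sixteen r _ q1 e1, sixteen s _ q2 e2, sixteen t _ q3 e3⟩, o1, o2, o3, i3, i4, i5, ?_, ?_⟩
  · intro r' hr' h
    have e : (r'-r)*(r'+r) = 0 := by linear_combination hr' - e1
    rcases mul_eq_zero.mp e with e | e
    · apply i1; rw [h]; linear_combination 2*e
    · have h5 : r' = -r := by linarith
      rw [h5] at h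
      have har : a < r := by
        have : a^2 < r^2 := by nlinarith
        exact lt_of_pow_lt_pow_left₀ 2 hr.le this
      linarith
  · have j1 : (150*(a*b))^3 < a^2*b^7 := by
      refine lt_trans ?_ i4
      apply pow_lt_pow_left₀ _ (by positivity) (by norm_num)
      linarith
    have j2 : (3375000*a)*(a^2*b^3) < b^4*(a^2*b^3) := by
      calc (3375000*a)*(a^2*b^3) = (150*(a*b))^3 := by ring
        _ < a^2*b^7 := j1
        _ = b^4*(a^2*b^3) := by ring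
    have j3 : 3375000*a < b^4 := lt_of_mul_lt_mul_right j2 (by positivity)
    norm_num
    linarith
  · intro g a' b' c' hgpos ga gb gc hg
    by_contra hno
    push Not at hno
    obtain ⟨x', U', V', Z', gU, gV, gZ, gx⟩ := hsc g a' b' c' ga gb gc
    have hg0 : g ≠ 0 := by rintro rfl; rw [zero_mul] at ga; linarith
    have hg2 : g^2 ≠ 0 := pow_ne_zero 2 hg0
    obtain ⟨α, hα⟩ := P_cube a' b' c' x' |U'| |V'| |Z'|
      (by
        rw [sq_abs]; apply mul_left_cancel₀ hg2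
        rw [gU, gx, ga, gb] at hU; linear_combination hU)
      (by
        rw [sq_abs]; apply mul_left_cancel₀ hg2
        rw [gV, gx, ga, gc] at hV; linear_combination hV)
      (by
        rw [sq_abs]; apply mul_left_cancel₀ hg2
        rw [gZ, gx, gb, gc] at hZ; linear_combination hZ)
      (by
        apply mul_left_cancel₀ (mul_ne_zero hg0 hg0)
        have := huvw
        rw [gU, gV, gZ, abs_mul, abs_mul, abs_mul, abs_of_pos hgpos] at this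
        linear_combination this)
      (fun p hp k1 k2 k3 => hg p hp ⟨k1, k2, k3⟩)
      (fun p hp k1 k2 k3 => (hno p hp).1 k1 k2 k3)
      (fun p hp k1 k2 k3 => (hno p hp).2.1 k1 k2 k3)
      (fun p hp k1 k2 k3 => (hno p hp).2.2 k1 k2 k3)
    refine P_noncube a b c r s t x |U| |V| |Z| (g*α) ha hab hbc hr hs' ht e1 e2 e3 hu0 hv0 hw0
      hu hv hw huvw ?_
    rw [gU, gV, gZ, abs_mul, abs_mul, abs_mul, abs_of_pos hgpos, ga, gb, gc]
    linear_combination g^3*hα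

end Pool.Agent.Helper590.Tors6.D4
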