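import Pool.Agent.Helper590.Tors6.Final

set_option autoImplicit false

namespace Pool.Agent.Helper590.Tors6.D4

open Pool.Agent.Helper590.Tors6

set_option synthInstance.maxSize 2000 in
set_option maxRecDepth 100000 in
theorem zmod2_fact : ∀ a b c r s t : ZMod 2, r^2 = a*b+4 → s^2 = a*c+4 → t^2 = b*c+4 →
    r*s - a*t = 0 ∧ r*t - b*s = 0 ∧ a*b*c - r*s*t = 0 := by
  decide

theorem parity_fact (a b c r s t : ℤ) (h1 : r^2 = a*b+4) (h2 : s^2 = a*c+4)
    (h3 : t^2 = b*c+4) : 2 ∣ r*s - a*t ∧ 2 ∣ r*t - b*s ∧ 2 ∣ a*b*c - r*s*t := by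
  have e (z : ℤ) : ((z : ℤ) : ZMod 2) = 0 ↔ (2:ℤ) ∣ z := by
    rw [ZMod.intCast_zmod_eq_zero_iff_dvd]; norm_num
  have key := zmod2_fact (a : ZMod 2) b c r s t
    (by exact_mod_cast congrArg (Int.cast : ℤ → ZMod 2) h1)
    (by exact_mod_cast congrArg (Int.cast : ℤ → ZMod 2) h2)
    (by exact_mod_cast congrArg (Int.cast : ℤ → ZMod 2) h3)
  obtain ⟨k1, k2, k3⟩ := key
  refine ⟨?_, ?_, ?_⟩
  · rw [← e]; push_cast; exact k1
  · rw [← e]; push_cast; exact k2
  · rw [← e]; push_cast; exact k3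

theorem sq_ge (s z : ℤ) (h : s^2 = z + 4) (hs : 0 < s) (hz : z < 0) : z = -3 := by
  have h1 : s < 2 := by
    by_contra h2
    push Not at h2
    nlinarith
  have h2 : s = 1 := by linarith
  rw [h2] at h
  linarith

/-- One descent step `{a,b,c} → {a,b,d₋}` for `D(4)`-triples. -/
theorem descent_step (a b c r s t : ℤ) (ha : 0 < a) (hb : 0 < b) (hab : a ≠ b)
    (hac : a < c) (hbc : b < c)
    (hr : 0 < r) (hs : 0 < s) (ht : 0 < t) (h1 : r^2 = a*b+4) (h2 : s^2 = a*c+4)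
    (h3 : t^2 = b*c+4) :
    ∃ d s' t' : ℤ, 0 ≤ d ∧ d < c ∧ 0 < s' ∧ 0 < t' ∧ s'^2 = a*d+4 ∧ t'^2 = b*d+4 ∧
      (a + b - c - d)^2 = (a*b+4)*(c*d+4) ∧ 2*s' = r*s - a*t ∧ 2*t' = r*t - b*s := by
  have hc : 0 < c := lt_trans ha hac
  obtain ⟨⟨s', hs'⟩, ⟨t', ht'⟩, ⟨q, hq⟩⟩ := parity_fact a b c r s t h1 h2 h3
  have hs0 : 0 < s' := by
    have h : (a*t)^2 < (r*s)^2 := by
      have : (r*s)^2 - (a*t)^2 = 4*(a*(b+c-a)+4) := by
        rw [mul_pow, mul_pow, h1, h2, h3]; ring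
      have h4 : 0 < a*(b+c-a) := by
        apply mul_pos ha; linarith
      linarith
    have := lt_of_pow_lt_pow_left₀ 2 (by positivity) h
    linarith
  have ht0 : 0 < t' := by
    have h : (b*s)^2 < (r*t)^2 := by
      have : (r*t)^2 - (b*s)^2 = 4*(b*(a+c-b)+4) := by
        rw [mul_pow, mul_pow, h1, h2, h3]; ring
      have h4 : 0 < b*(a+c-b) := by
        apply mul_pos hb; linarith
      linarith
    have := lt_of_pow_lt_pow_left₀ 2 (by positivity) h
    linarith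
  have e1 : s'^2 = a*(a + b + c + q) + 4 := by
    have h5 : (2*s')^2 = (r*s - a*t)^2 := by rw [hs']
    have : (r*s - a*t)^2 = r^2*s^2 - 2*a*(r*s*t) + a^2*t^2 := by ring
    rw [this, h1, h2, h3] at h5
    have h6 : 4*s'^2 = 4*(a*(a + b + c + q) + 4) := by linear_combination h5 + 2*a*hq
    linarith
  have e2 : t'^2 = b*(a + b + c + q) + 4 := by
    have h5 : (2*t')^2 = (r*t - b*s)^2 := by rw [ht']
    have : (r*t - b*s)^2 = r^2*t^2 - 2*b*(r*s*t) + b^2*s^2 := by ring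
    rw [this, h1, h2, h3] at h5
    have h6 : 4*t'^2 = 4*(b*(a + b + c + q) + 4) := by linear_combination h5 + 2*b*hq
    linarith
  have e3 : (r*s*t)^2 = (a*b+4)*(a*c+4)*(b*c+4) := by
    rw [mul_pow, mul_pow, h1, h2, h3]
  have hd0 : 0 ≤ a + b + c + q := by
    by_contra hneg
    push Not at hneg
    have k1 := sq_ge s' _ e1 hs0 (mul_neg_of_pos_of_neg ha hneg)
    have k2 := sq_ge t' _ e2 ht0 (mul_neg_of_pos_of_neg hb hneg)
    apply hab
    exact mul_right_cancel₀ (ne_of_lt hneg) (k1.trans k2.symm)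
  refine ⟨a + b + c + q, s', t', hd0, ?_, hs0, ht0, e1, e2, ?_, hs'.symm, ht'.symm⟩
  · by_contra hge
    push Not at hge
    have hp : (a + b + c + q) * (a + b + c + a*b*c - q)
        = a^2+b^2+c^2-2*a*b-2*a*c-2*b*c-16 := by
      have h5 : (a*b*c - 2*q)^2 = (a*b+4)*(a*c+4)*(b*c+4) := by
        rw [← e3]; congr 1; linarith
      have h6 : 4*((a + b + c + q) * (a + b + c + a*b*c - q))
        = 4*(a^2+b^2+c^2-2*a*b-2*a*c-2*b*c-16) := by linear_combination -h5
      linarith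
    have hpos : c ≤ a + b + c + a*b*c - q := by
      have h8 : 0 < a*b*c := by positivity
      have h9 : 0 < r*s*t := by positivity
      linarith
    have h7 : c * c ≤ (a + b + c + q) * (a + b + c + a*b*c - q) := by
      apply mul_le_mul hge hpos hc.le hd0
    nlinarith [mul_pos ha hc, mul_pos hb hc, mul_pos ha hb]
  · have h5 : (a*b*c - 2*q)^2 = (a*b+4)*(a*c+4)*(b*c+4) := by
      rw [← e3]; congr 1; linarith
    have h6 : 4*(a + b - c - (a + b + c + q))^2 = 4*((a*b+4)*(c*(a + b + c + q)+4)) := by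
      linear_combination h5
    linarith

/-- no two of `r, s, t` are divisible by `p` -/
def NoTwo (p r s t : ℤ) : Prop := ¬ (p ∣ r ∧ p ∣ s) ∧ ¬ (p ∣ r ∧ p ∣ t) ∧ ¬ (p ∣ s ∧ p ∣ t)

theorem noTwo_max (p : ℤ) (hp : Prime p) (hp2 : ¬ p ∣ 2) (n : ℕ)
    (IH : ∀ a b c r s t : ℤ, 0 ≤ a → 0 ≤ b → 0 ≤ c → a + b + c ≤ n → 0 < r → 0 < s → 0 < t →
      r^2 = a*b+4 → s^2 = a*c+4 → t^2 = b*c+4 → NoTwo p r s t)
    (a b c r s t : ℤ) (ha : 0 < a) (hb : 0 < b) (hab : a ≠ b) (hac : a < c) (hbc : b < c)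
    (hn : a + b + c ≤ n + 1)
    (hr : 0 < r) (hs : 0 < s) (ht : 0 < t) (h1 : r^2 = a*b+4) (h2 : s^2 = a*c+4)
    (h3 : t^2 = b*c+4) : NoTwo p r s t := by
  obtain ⟨d, s', t', hd0, hdc, hs', ht', e1, e2, -, f1, f2⟩ :=
    descent_step a b c r s t ha hb hab hac hbc hr hs ht h1 h2 h3
  obtain ⟨i1, i2, i3⟩ := IH a b d r s' t' ha.le hb.le hd0 (by linarith) hr hs' ht' h1 e1 e2
  have half (z : ℤ) (h : p ∣ 2*z) : p ∣ z := (hp.dvd_or_dvd h).resolve_left hp2
  refine ⟨?_, ?_, ?_⟩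
  · rintro ⟨a1, a2⟩
    apply i2
    refine ⟨a1, half t' ?_⟩
    rw [f2]; exact dvd_sub (Dvd.dvd.mul_right a1 _) (Dvd.dvd.mul_left a2 _)
  · rintro ⟨a1, a2⟩
    apply i1
    refine ⟨a1, half s' ?_⟩
    rw [f1]; exact dvd_sub (Dvd.dvd.mul_right a1 _) (Dvd.dvd.mul_left a2 _)
  · rintro ⟨a1, a2⟩
    apply i3
    refine ⟨half s' ?_, half t' ?_⟩
    · rw [f1]; exact dvd_sub (Dvd.dvd.mul_left a1 _) (Dvd.dvd.mul_left a2 _)
    · rw [f2]; exact dvd_sub (Dvd.dvd.mul_left a2 _) (Dvd.dvd.mul_left a1 _)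

theorem no_sq_add_four (a r : ℤ) (ha : 0 < a) (hr : 0 < r) (h : r^2 = a*a+4) : False := by
  have h1 : a < r := by
    have : a^2 < r^2 := by linarith [h, sq a]
    exact lt_of_pow_lt_pow_left₀ 2 hr.le this
  have h2 : r < a + 2 := by
    have : r^2 < (a+2)^2 := by nlinarith
    exact lt_of_pow_lt_pow_left₀ 2 (by linarith) this
  have h3 : r = a + 1 := by linarith
  rw [h3] at h
  have : 2*a = 3 := by linarith
  omega

theorem not_dvd_two (p r : ℤ) (hp : Prime p) (hp2 : ¬ p ∣ 2) (h : r^2 = 4) : ¬ p ∣ r := by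
  intro hpr
  have h1 : p ∣ 2*2 := by
    have : (2*2:ℤ) = r*r := by linarith [sq r]
    rw [this]; exact Dvd.dvd.mul_left hpr _
  rcases hp.dvd_or_dvd h1 with h | h <;> exact hp2 h

theorem noTwo_all (p : ℤ) (hp : Prime p) (hp2 : ¬ p ∣ 2) : ∀ n : ℕ, ∀ a b c r s t : ℤ,
    0 ≤ a → 0 ≤ b → 0 ≤ c → a + b + c ≤ n →
    0 < r → 0 < s → 0 < t → r^2 = a*b+4 → s^2 = a*c+4 → t^2 = b*c+4 → NoTwo p r s t := by
  have base1 (r s t : ℤ) (h1 : r^2 = 4) (h2 : s^2 = 4) : NoTwo p r s t :=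
    ⟨fun h => not_dvd_two p r hp hp2 h1 h.1, fun h => not_dvd_two p r hp hp2 h1 h.1,
      fun h => not_dvd_two p s hp hp2 h2 h.1⟩
  have base2 (r s t : ℤ) (h1 : r^2 = 4) (h2 : t^2 = 4) : NoTwo p r s t :=
    ⟨fun h => not_dvd_two p r hp hp2 h1 h.1, fun h => not_dvd_two p r hp hp2 h1 h.1,
      fun h => not_dvd_two p t hp hp2 h2 h.2⟩
  have base3 (r s t : ℤ) (h1 : s^2 = 4) (h2 : t^2 = 4) : NoTwo p r s t :=
    ⟨fun h => not_dvd_two p s hp hp2 h1 h.2, fun h => not_dvd_two p t hp hp2 h2 h.2,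
      fun h => not_dvd_two p t hp hp2 h2 h.2⟩
  intro n
  induction n with
  | zero =>
    intro a b c r s t ha hb hc hn hr hs ht h1 h2 h3
    have ha0 : a = 0 := by push_cast at hn; linarith
    subst ha0
    exact base1 r s t (by linarith) (by linarith)
  | succ n IH =>
    intro a b c r s t ha hb hc hn hr hs ht h1 h2 h3
    push_cast at hn
    rcases ha.eq_or_lt with ha0 | ha0
    · subst ha0
      exact base1 r s t (by linarith) (by linarith)
    rcases hb.eq_or_lt with hb0 | hb0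
    · subst hb0
      exact base2 r s t (by linarith) (by linarith)
    rcases hc.eq_or_lt with hc0 | hc0
    · subst hc0
      exact base3 r s t (by linarith) (by linarith)
    have hab : a ≠ b := fun h => by
      subst h; exact no_sq_add_four a r ha0 hr h1
    have hac : a ≠ c := fun h => by
      subst h; exact no_sq_add_four a s ha0 hs h2
    have hbc : b ≠ c := fun h => by
      subst h; exact no_sq_add_four b t hb0 ht h3
    rcases lt_or_gt_of_ne hac with h | h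
    · rcases lt_or_gt_of_ne hbc with h' | h'
      · exact noTwo_max p hp hp2 n IH a b c r s t ha0 hb0 hab h h' hn hr hs ht h1 h2 h3
      · obtain ⟨i1, i2, i3⟩ := noTwo_max p hp hp2 n IH a c b s r t ha0 hc0 hac (lt_trans h h') h'
          (by linarith) hs hr ht h2 h1 (by linarith)
        exact ⟨fun k => i1 ⟨k.2, k.1⟩, i3, i2⟩
    · rcases lt_or_gt_of_ne hab with h' | h'
      · obtain ⟨i1, i2, i3⟩ := noTwo_max p hp hp2 n IH a c b s r t ha0 hc0 hac h' (lt_trans h h')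
          (by linarith) hs hr ht h2 h1 (by linarith)
        exact ⟨fun k => i1 ⟨k.2, k.1⟩, i3, i2⟩
      · obtain ⟨i1, i2, i3⟩ := noTwo_max p hp hp2 n IH b c a t r s hb0 hc0 hbc h' h
          (by linarith) ht hr hs h3 (by linarith) (by linarith)
        exact ⟨i3, fun k => i1 ⟨k.2, k.1⟩, fun k => i2 ⟨k.2, k.1⟩⟩

theorem noTwo (p : ℤ) (hp : Prime p) (hp2 : ¬ p ∣ 2) (a b c r s t : ℤ) (ha : 0 < a) (hb : 0 < b)
    (hc : 0 < c) (hr : 0 < r) (hs : 0 < s) (ht : 0 < t) (h1 : r^2 = a*b+4) (h2 : s^2 = a*c+4)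
    (h3 : t^2 = b*c+4) : NoTwo p r s t :=
  noTwo_all p hp hp2 (a+b+c).toNat a b c r s t ha.le hb.le hc.le (by
    rw [Int.toNat_of_nonneg (by positivity)]) hr hs ht h1 h2 h3

/-- A `D(4)`-triple `a < b < c` with `ab ≥ 8` is regular or has `c > ab`, `c > 5b`. -/
theorem regular_or_large (a b c r s t : ℤ) (ha : 0 < a) (hab : a < b) (hbc : b < c)
    (hr : 0 < r) (hs : 0 < s) (ht : 0 < t) (h1 : r^2 = a*b+4) (h2 : s^2 = a*c+4)
    (h3 : t^2 = b*c+4) (h8 : 8 ≤ a*b) : c = a + b + 2*r ∨ (a*b < c ∧ 5*b < c) := by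
  have hb : 0 < b := lt_trans ha hab
  have hac : a < c := lt_trans hab hbc
  have hc : 0 < c := lt_trans ha hac
  obtain ⟨d, s', t', hd0, hdc, hs', ht', e1, e2, e3, -, -⟩ :=
    descent_step a b c r s t ha hb hab.ne hac hbc hr hs ht h1 h2 h3
  rcases hd0.eq_or_lt with hd | hd
  · left
    subst hd
    have h4 : (a+b-c-2*r)*(a+b-c+2*r) = 0 := by
      have : (a+b-c-2*r)*(a+b-c+2*r) = (a+b-c-0)^2 - 4*r^2 := by ring
      rw [this, e3, h1]; ring
    rcases mul_eq_zero.mp h4 with h | h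
    · exfalso
      have har : a < r := by
        have : a^2 < r^2 := by nlinarith
        exact lt_of_pow_lt_pow_left₀ 2 hr.le this
      linarith
    · linarith
  · right
    have hd1 : 1 ≤ d := hd
    have habp : 0 < a*b := mul_pos ha hb
    have hcdp : 0 < c*d := mul_pos hc hd
    have key : a*b*(c*d) < (a+b-c-d)^2 := by
      rw [e3]
      nlinarith
    rcases le_or_gt d (a+b) with hle | hgt
    · have h5 : (a+b-c-d)^2 ≤ c^2 := by
        apply sq_le_sq'
        · linarith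
        · linarith
      have h6 : (a*b*d)*c < c*c := by
        have : a*b*(c*d) = (a*b*d)*c := by ring
        rw [this] at key
        have : c^2 = c*c := sq c
        linarith
      have h7 : a*b*d < c := lt_of_mul_lt_mul_right h6 hc.le
      have h9 : 5 ≤ a*d := by
        have hadp : 0 < a*d := mul_pos ha hd
        have hs3 : 3 ≤ s' := by
          by_contra hlt
          push Not at hlt
          have h2 : s' ≤ 2 := by linarith
          have h3 : s'^2 ≤ 2^2 := pow_le_pow_left₀ hs'.le h2 2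
          linarith
        have h4 : (3:ℤ)^2 ≤ s'^2 := pow_le_pow_left₀ (by norm_num) hs3 2
        linarith
      constructor
      · have h10 : a*b*1 ≤ a*b*d := mul_le_mul_of_nonneg_left hd1 habp.le
        linarith
      · have h10 : 5*b ≤ (a*d)*b := mul_le_mul_of_nonneg_right h9 hb.le
        have : a*b*d = (a*d)*b := by ring
        linarith
    · have h5 : (a+b-c-d)^2 < (c+d)^2 := by
        apply sq_lt_sq'
        · linarith
        · linarith
      have h6 : (c+d)^2 < c^2 + 3*(c*d) := by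
        have h61 : d*d < c*d := mul_lt_mul_of_pos_right hdc hd
        have h62 : (c+d)^2 = c^2 + 2*(c*d) + d*d := by ring
        linarith
      have h7 : (a*b*d)*c < (c+3*d)*c := by
        have e : a*b*(c*d) = (a*b*d)*c := by ring
        rw [e] at key
        have e2 : c^2 + 3*(c*d) = (c+3*d)*c := by ring
        linarith
      have h9 : a*b*d < c+3*d := lt_of_mul_lt_mul_right h7 hc.le
      have h10 : 5*d < c := by
        have : 8*d ≤ a*b*d := mul_le_mul_of_nonneg_right h8 hd.le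
        linarith
      constructor
      · have h11 : a*b*3 ≤ a*b*d := by
          apply mul_le_mul_of_nonneg_left _ habp.le
          linarith
        have h12 : (a*b-3)*3 ≤ (a*b-3)*d := by
          apply mul_le_mul_of_nonneg_left _ (by linarith)
          linarith
        linarith
      · linarith

end Pool.Agent.Helper590.Tors6.D4
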