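import Pool.Agent.Helper590.Tors6.D4Main

set_option autoImplicit false

namespace Pool.Agent.Helper590.Tors6.D4

open Pool.Agent.Helper590.Tors6

/-- A prime dividing `D = u²-r²` does not divide `rst`. -/
theorem prime_not_dvd (u v w r s t D : ℤ) (hD1 : D = u^2-r^2) (hD2 : D = v^2-s^2)
    (hD3 : D = w^2-t^2) (huvw : u*(v+w) = v*w) (p : ℤ) (hp : Prime p) (hnt : NoTwo p r s t)
    (hpD : p ∣ D) (hpr : p ∣ r*s*t) : False := by
  have down (y z : ℤ) (hD : D = y^2-z^2) (hz : p ∣ z) : p ∣ y := by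
    apply hp.dvd_of_dvd_pow (n := 2)
    have : y^2 = D + z*z := by rw [hD]; ring
    rw [this]; exact dvd_add hpD (Dvd.dvd.mul_left hz _)
  have up (y z : ℤ) (hD : D = y^2-z^2) (hy : p ∣ y) : p ∣ z := by
    apply hp.dvd_of_dvd_pow (n := 2)
    have : z^2 = y*y - D := by rw [hD]; ring
    rw [this]; exact dvd_sub (Dvd.dvd.mul_left hy _) hpD
  obtain ⟨k1, k2, k3⟩ := hnt
  rcases hp.dvd_or_dvd hpr with h | h
  · rcases hp.dvd_or_dvd h with h | h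
    · have hu := down u r hD1 h
      have : p ∣ v*w := by rw [← huvw]; exact Dvd.dvd.mul_right hu _
      rcases hp.dvd_or_dvd this with h' | h'
      · exact k1 ⟨h, up v s hD2 h'⟩
      · exact k2 ⟨h, up w t hD3 h'⟩
    · have hv := down v s hD2 h
      have : p ∣ u*w := by
        have e : u*w = v*w - u*v := by linear_combination huvw
        rw [e]; exact dvd_sub (Dvd.dvd.mul_right hv _) (Dvd.dvd.mul_left hv _)
      rcases hp.dvd_or_dvd this with h' | h'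
      · exact k1 ⟨up u r hD1 h', h⟩
      · exact k3 ⟨h, up w t hD3 h'⟩
  · have hw := down w t hD3 h
    have : p ∣ u*v := by
      have e : u*v = v*w - u*w := by linear_combination huvw
      rw [e]; exact dvd_sub (Dvd.dvd.mul_left hw _) (Dvd.dvd.mul_left hw _)
    rcases hp.dvd_or_dvd this with h' | h'
    · exact k2 ⟨up u r hD1 h', h⟩
    · exact k3 ⟨up v s hD2 h', h⟩

/-- existence of the cube roots -/
theorem exists_cubes (u v w r s t D : ℤ) (hD1 : D = u^2-r^2) (hD2 : D = v^2-s^2)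
    (hD3 : D = w^2-t^2) (huvw : u*(v+w) = v*w)
    (hnt : ∀ p : ℤ, Prime p → ¬ p ∣ 2 → NoTwo p r s t)
    (hg : Good2 D (u^3 + (v+w-u)*r^2) (r*s*t)) :
    ∃ α β : ℤ, (2*α)^3 = u^3 + (v+w-u)*r^2 - r*s*t ∧ (2*β)^3 = u^3 + (v+w-u)*r^2 + r*s*t ∧
      (2*α)*(2*β) = D := by
  have hprod := key_identity u v w r s t D hD1 hD2 hD3 huvw
  obtain ⟨⟨D1, hD⟩, ⟨m1, hm1⟩, ⟨m2, hm2⟩, hn⟩ := hg
  have hmm : m1 * m2 = D1^3 := by
    rw [hm1, hm2, hD] at hprod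
    have : 64*(m1*m2) = 64*D1^3 := by linear_combination hprod
    linarith
  have hnot : ¬ (2 ∣ m1 ∧ 2 ∣ m2) := by
    rintro ⟨⟨i, hi⟩, ⟨j, hj⟩⟩
    exact hn ⟨⟨i, by rw [hm1, hi]; ring⟩, ⟨j, by rw [hm2, hj]; ring⟩⟩
  have hcop : IsCoprime m1 m2 := by
    apply isCoprime_of_prime_dvd
    · rintro ⟨e1, e2⟩; exact hnot ⟨by rw [e1]; exact dvd_zero _, by rw [e2]; exact dvd_zero _⟩
    · intro p hp p1 p2
      by_cases hp2 : p ∣ 2
      · have : Associated p 2 := (hp.dvd_prime_iff_associated Int.prime_two).mp hp2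
        exact hnot ⟨this.symm.dvd.trans p1, this.symm.dvd.trans p2⟩
      · have hpD : p ∣ D := by
          have : p ∣ D1 := by
            apply hp.dvd_of_dvd_pow (n := 3)
            rw [← hmm]; exact Dvd.dvd.mul_right p1 _
          rw [hD]; exact Dvd.dvd.mul_left this _
        have h3 : p ∣ 2*(r*s*t) := by
          have e : 2*(r*s*t) = (u^3 + (v+w-u)*r^2 + r*s*t) - (u^3 + (v+w-u)*r^2 - r*s*t) := by ring
          rw [e, hm1, hm2]
          exact dvd_sub (Dvd.dvd.mul_left p2 _) (Dvd.dvd.mul_left p1 _)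
        exact prime_not_dvd u v w r s t D hD1 hD2 hD3 huvw p hp (hnt p hp hp2) hpD
          ((hp.dvd_or_dvd h3).resolve_left hp2)
  obtain ⟨α, hα⟩ := Int.eq_pow_of_mul_eq_pow_odd_left hcop (by decide : Odd 3) hmm
  obtain ⟨β, hβ⟩ := Int.eq_pow_of_mul_eq_pow_odd_right hcop (by decide : Odd 3) hmm
  refine ⟨α, β, ?_, ?_, ?_⟩
  · rw [hm1, hα]; ring
  · rw [hm2, hβ]; ring
  · have h : (α*β)^3 = D1^3 := by rw [mul_pow, ← hα, ← hβ, hmm]
    have h' : α*β = D1 := (Odd.strictMono_pow (by decide : Odd 3)).injective h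
    rw [hD, ← h']; ring

theorem local3' (u v w r s t : ℤ) (h12 : u^2-r^2 = v^2-s^2) (h23 : v^2-s^2 = w^2-t^2)
    (huvw : u*(v+w) = v*w) (hn : NoTwo 3 r s t) :
    3 ∣ (v+w-u) ∧ ¬ 3 ∣ r ∧ ¬ 3 ∣ s ∧ ¬ 3 ∣ t := by
  have e (z : ℤ) : ((z : ℤ) : ZMod 3) = 0 ↔ (3:ℤ) ∣ z := by
    rw [ZMod.intCast_zmod_eq_zero_iff_dvd]; norm_num
  have key := zmod3_fact (u : ZMod 3) v w r s t (by exact_mod_cast congrArg (Int.cast : ℤ → ZMod 3) h12)
    (by exact_mod_cast congrArg (Int.cast : ℤ → ZMod 3) h23)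
    (by exact_mod_cast congrArg (Int.cast : ℤ → ZMod 3) huvw)
    (by rw [e, e]; exact hn.1)
    (by rw [e, e]; exact hn.2.1)
    (by rw [e, e]; exact hn.2.2)
  obtain ⟨k1, k2, k3, k4⟩ := key
  refine ⟨?_, ?_, ?_, ?_⟩
  · rw [← e]; push_cast; exact k1
  · rw [← e]; exact k2
  · rw [← e]; exact k3
  · rw [← e]; exact k4

/-- The integer `k` attached to `S`. -/
theorem exists_k (a b c r s t x u v w : ℤ) (ha : 0 < a) (hb : 0 < b) (hc : 0 < c)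
    (hr : 0 < r) (hs : 0 < s) (ht : 0 < t)
    (h1 : r^2 = a*b+4) (h2 : s^2 = a*c+4) (h3 : t^2 = b*c+4)
    (hu : u^2 = x+a*b) (hv : v^2 = x+a*c) (hw : w^2 = x+b*c)
    (huvw : u*(v+w) = v*w) :
    (¬ 4 ∣ r ∧ ¬ 4 ∣ s ∧ ¬ 4 ∣ t) ∧ (¬ 3 ∣ r ∧ ¬ 3 ∣ s ∧ ¬ 3 ∣ t) ∧
    (¬ 2 ∣ a → ¬ 2 ∣ b → 32 ∣ c) ∧ (¬ 2 ∣ a → ¬ 2 ∣ c → 32 ∣ b) ∧ (¬ 2 ∣ b → ¬ 2 ∣ c → 32 ∣ a) ∧
    ∃ k : ℤ, 6 ∣ k ∧ k*((3*u+k)^2+3*(a*b+4)) = 2*(a*b+4)*(v+w-4*u) := by
  have hnt : ∀ p : ℤ, Prime p → ¬ p ∣ 2 → NoTwo p r s t := fun p hp hp2 =>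
    noTwo p hp hp2 a b c r s t ha hb hc hr hs ht h1 h2 h3
  have h12 : u^2-r^2 = v^2-s^2 := by linarith
  have h23 : v^2-s^2 = w^2-t^2 := by linarith
  obtain ⟨g1, g2, g3, g4, hg⟩ := good2_all a b c r s t x u v w ha hb hc hr hs ht h1 h2 h3 hu hv hw huvw
  obtain ⟨h3h, h3r⟩ := local3' u v w r s t h12 h23 huvw (hnt 3 Int.prime_three (by decide))
  obtain ⟨α, β, hα, hβ, hαβ⟩ := exists_cubes u v w r s t (x-4) (by linarith) (by linarith)
    (by linarith) huvw hnt hg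
  refine ⟨g1, h3r, g2, g3, g4, 2*α+2*β-2*u, ?_, ?_⟩
  · have h3k : 3 ∣ 2*α + 2*β - 2*u := by
      obtain ⟨i1, hi1⟩ := three_dvd_cube_sub (2*α)
      obtain ⟨i2, hi2⟩ := three_dvd_cube_sub (2*β)
      obtain ⟨i3, hi3⟩ := three_dvd_cube_sub u
      obtain ⟨i4, hi4⟩ := h3h
      refine ⟨2*i4*r^2 + 2*i3 - i1 - i2, ?_⟩
      linear_combination hα + hβ - hi1 - hi2 + 2*hi3 + 2*r^2*hi4
    omega
  · have hx : x - 4 = u^2 - (a*b+4) := by linarith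
    exact cubic_rel (2*α) (2*β) u v w (a*b+4) (x-4) hx hαβ (by rw [hα, hβ, h1]; ring)

/-- The main arithmetic step: `27 u² < r² (v + w - 4u)`. -/
theorem main_ineq (R u v w k : ℤ) (hR : 0 < R) (hu0 : 0 < u) (hv0 : 0 < v) (_hw0 : 0 < w)
    (hvw : v < w) (huvw : u*(v+w) = v*w) (h6 : 6 ∣ k)
    (hk : k*((3*u+k)^2+3*R) = 2*R*(v+w-4*u)) : 27*u^2 < R*(v+w-4*u) := by
  have hg : 0 < v+w-4*u := by
    have : 0 < (v+w)*(v+w-4*u) := by
      have e : (v+w)*(v+w-4*u) = (w-v)^2 := by linear_combination (-4)*huvw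
      rw [e]; have : 0 < w - v := by linarith
      positivity
    exact (mul_pos_iff_of_pos_left (by linarith)).mp this
  have hkpos : 0 < k := by
    have h5 : 0 < k*((3*u+k)^2+3*R) := by rw [hk]; positivity
    have h6 : 0 < (3*u+k)^2+3*R := by positivity
    exact (mul_pos_iff_of_pos_right h6).mp h5
  have hk6 : 6 ≤ k := by
    obtain ⟨i, hi⟩ := h6
    omega
  have h7 : 9*u^2 < (3*u+k)^2+3*R := by nlinarith [mul_pos hu0 hkpos, sq_nonneg k]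
  have h8 : 6*(9*u^2) < 2*R*(v+w-4*u) := by
    rw [← hk]
    calc 6*(9*u^2) < 6*((3*u+k)^2+3*R) := by linarith
      _ ≤ _ := by
        apply mul_le_mul_of_nonneg_right hk6; positivity
  linarith

/-- The two basic inequalities, with a general constant. -/
theorem two_ineqs (K a b c R u v w : ℤ) (hK : 0 < K)
    (hR : 0 < R)
    (hu0 : 0 < u) (huv : u < v) (hvw : v < w)
    (hA : v^2 - u^2 = a*(c-b)) (hB : w^2 - u^2 = b*(c-a))
    (huvw : u*(v+w) = v*w) (hmain : K*u^2 < R*(v+w-4*u)) :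
    K^6*(a*(c-b))^4 < 16*R^6*(b*(c-a)) ∧
    4096*K^2*(a*(c-b))^5 < 243*R^2*(c*(b-a))^4 := by
  obtain ⟨m, rfl⟩ : ∃ m, v = u + m := ⟨v-u, by ring⟩
  obtain ⟨n, rfl⟩ : ∃ n, w = u + n := ⟨w-u, by ring⟩
  have hm : 0 < m := by linarith
  have hn : 0 < n := by linarith
  have hmn : m*n = u^2 := by linear_combination -huvw
  have hmlt : m < n := by linarith
  have hmu : m < u := by
    have : m^2 < u^2 := by
      rw [← hmn, sq]; exact mul_lt_mul_of_pos_left hmlt hm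
    exact lt_of_pow_lt_pow_left₀ 2 hu0.le this
  have eA : a*(c-b) = m*(2*u+m) := by rw [← hA]; ring
  have eB : b*(c-a) = n*(2*u+n) := by rw [← hB]; ring
  have eBA : c*(b-a) = n*(2*u+n) - m*(2*u+m) := by rw [← eB, ← eA]; ring
  have eBm : n*(2*u+n)*m^2 = u^3*(u+2*m) := by
    have : n*(2*u+n)*m^2 = (m*n)*(2*u*m + m*n) := by ring
    rw [this, hmn]; ring
  have hi : K*u^2*m < R*(u-m)^2 := by
    have e : R*(u-m)^2 = R*(u+m+(u+n)-4*u)*m := by linear_combination (-R)*hmn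
    rw [e]
    exact mul_lt_mul_of_pos_right hmain hm
  have hum : 0 < u - m := by linarith
  constructor
  · rw [eA, eB]
    have i6 : (K*u^2*m)^6 < (R*(u-m)^2)^6 := pow_lt_pow_left₀ hi (by positivity) (by norm_num)
    have ii : (u-m)^2*(2*u+m) ≤ 2*u^3 := by
      have h1 : 2*u^3 - (u-m)^2*(2*u+m) = m*(3*u^2-m^2) := by ring
      have h2 : 0 ≤ m*(3*u^2-m^2) := mul_nonneg hm.le (by nlinarith)
      linarith
    have ii4 : ((u-m)^2*(2*u+m))^4 ≤ (2*u^3)^4 := pow_le_pow_left₀ (by positivity) ii 4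
    have iii : (u-m)^4 ≤ u^4 := pow_le_pow_left₀ hum.le (by linarith) 4
    have j1 : (K*u^2*m)^6*(2*u+m)^4 < (R*(u-m)^2)^6*(2*u+m)^4 :=
      mul_lt_mul_of_pos_right i6 (by positivity)
    have j3 : (u-m)^4*((u-m)^2*(2*u+m))^4 ≤ u^4*(2*u^3)^4 :=
      mul_le_mul iii ii4 (by positivity) (by positivity)
    have j4 : R^6*((u-m)^4*((u-m)^2*(2*u+m))^4) ≤ R^6*(u^4*(2*u^3)^4) :=
      mul_le_mul_of_nonneg_left j3 (by positivity)
    have j5 : (K^6*m^6*(2*u+m)^4)*u^12 < (16*R^6*u^4)*u^12 := by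
      calc (K^6*m^6*(2*u+m)^4)*u^12 = (K*u^2*m)^6*(2*u+m)^4 := by ring
        _ < (R*(u-m)^2)^6*(2*u+m)^4 := j1
        _ = R^6*((u-m)^4*((u-m)^2*(2*u+m))^4) := by ring
        _ ≤ R^6*(u^4*(2*u^3)^4) := j4
        _ = (16*R^6*u^4)*u^12 := by ring
    have j6 : K^6*m^6*(2*u+m)^4 < 16*R^6*u^4 := lt_of_mul_lt_mul_right j5 (by positivity)
    have j7 : (K^6*(m*(2*u+m))^4)*m^2 < (16*R^6*(n*(2*u+n)))*m^2 := by
      calc (K^6*(m*(2*u+m))^4)*m^2 = K^6*m^6*(2*u+m)^4 := by ring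
        _ < 16*R^6*u^4 := j6
        _ ≤ 16*R^6*(u^3*(u+2*m)) := by
          apply mul_le_mul_of_nonneg_left _ (by positivity)
          have : u^3*(u+2*m) - u^4 = 2*u^3*m := by ring
          have : 0 ≤ 2*u^3*m := by positivity
          linarith
        _ = (16*R^6*(n*(2*u+n)))*m^2 := by rw [← eBm]; ring
    exact lt_of_mul_lt_mul_right j7 (by positivity)
  · rw [eBA, eA]
    have i2 : (K*u^2*m)^2 < (R*(u-m)^2)^2 := pow_lt_pow_left₀ hi (by positivity) (by norm_num)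
    have k0 : (K^2*m^4*(m*(2*u+m)))*u < (3*R^2*(u-m)^4)*u := by
      calc (K^2*m^4*(m*(2*u+m)))*u = K^2*(m^3*u)*m^2*(2*u+m) := by ring
        _ ≤ K^2*(u^3*u)*m^2*(2*u+m) := by
          have : m^3 ≤ u^3 := pow_le_pow_left₀ hm.le hmu.le 3
          gcongr
        _ = (K*u^2*m)^2*(2*u+m) := by ring
        _ < (R*(u-m)^2)^2*(2*u+m) := mul_lt_mul_of_pos_right i2 (by positivity)
        _ ≤ (R*(u-m)^2)^2*(3*u) := by
          apply mul_le_mul_of_nonneg_left (by linarith) (by positivity)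
        _ = (3*R^2*(u-m)^4)*u := by ring
    have k1 : K^2*m^4*(m*(2*u+m)) < 3*R^2*(u-m)^4 := lt_of_mul_lt_mul_right k0 hu0.le
    have k2 : 8*(u-m)*(m*(2*u+m)) ≤ 3*m*(n*(2*u+n) - m*(2*u+m)) := by
      have e : (3*m*(n*(2*u+n) - m*(2*u+m)) - 8*(u-m)*(m*(2*u+m)))*m
          = (u-m)^2*(3*u^2+12*u*m+5*m^2) := by
        have : (3*m*(n*(2*u+n) - m*(2*u+m)) - 8*(u-m)*(m*(2*u+m)))*m
          = 3*(n*(2*u+n)*m^2) - 3*m^3*(2*u+m) - 8*(u-m)*m^2*(2*u+m) := by ring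
        rw [this, eBm]; ring
      have : 0 ≤ (3*m*(n*(2*u+n) - m*(2*u+m)) - 8*(u-m)*(m*(2*u+m)))*m := by
        rw [e]; positivity
      have := nonneg_of_mul_nonneg_left this hm
      linarith
    have k3 : (8*(u-m)*(m*(2*u+m)))^4 ≤ (3*m*(n*(2*u+n) - m*(2*u+m)))^4 :=
      pow_le_pow_left₀ (by positivity) k2 4
    have k4 : (4096*K^2*(m*(2*u+m))^5)*m^4 < (243*R^2*(n*(2*u+n) - m*(2*u+m))^4)*m^4 := by
      calc (4096*K^2*(m*(2*u+m))^5)*m^4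
          = (4096*(m*(2*u+m))^4)*(K^2*m^4*(m*(2*u+m))) := by ring
        _ < (4096*(m*(2*u+m))^4)*(3*R^2*(u-m)^4) := mul_lt_mul_of_pos_left k1 (by positivity)
        _ = 3*R^2*(8*(u-m)*(m*(2*u+m)))^4 := by ring
        _ ≤ 3*R^2*(3*m*(n*(2*u+n) - m*(2*u+m)))^4 := mul_le_mul_of_nonneg_left k3 (by positivity)
        _ = (243*R^2*(n*(2*u+n) - m*(2*u+m))^4)*m^4 := by ring
    exact lt_of_mul_lt_mul_right k4 (by positivity)

end Pool.Agent.Helper590.Tors6.D4
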