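import Pool.Agent.Helper590.Tors6.D4Cubes

set_option autoImplicit false

namespace Pool.Agent.Helper590.Tors6.D4

open Pool.Agent.Helper590.Tors6

/-- Regular triples are excluded. -/
theorem regular_excluded (a b c r s t x u v w : ℤ) (ha : 0 < a) (hab : a < b)
    (hr : 0 < r) (hs : 0 < s) (ht : 0 < t)
    (h1 : r^2 = a*b+4) (h2 : s^2 = a*c+4) (h3 : t^2 = b*c+4)
    (hu0 : 0 < u) (hv0 : 0 < v) (hw0 : 0 < w)
    (hu : u^2 = x+a*b) (hv : v^2 = x+a*c) (hw : w^2 = x+b*c)
    (huvw : u*(v+w) = v*w) (hreg : c = a + b + 2*r) : False := by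
  have hb : 0 < b := lt_trans ha hab
  have hprod : (v-u)*(w-u) = u^2 := by linear_combination -huvw
  have hvu : v^2 - u^2 = a*(a+2*r) := by rw [hv, hu, hreg]; ring
  have hwu : w^2 - u^2 = b*(b+2*r) := by rw [hw, hu, hreg]; ring
  have huv : u < v := by
    have : u^2 < v^2 := by have : 0 < a*(a+2*r) := by positivity
                           linarith
    exact lt_of_pow_lt_pow_left₀ 2 hv0.le this
  have huw : u < w := by
    have : u^2 < w^2 := by have : 0 < b*(b+2*r) := by positivity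
                           linarith
    exact lt_of_pow_lt_pow_left₀ 2 hw0.le this
  have habp : 0 < a*b := mul_pos ha hb
  rcases le_or_gt 4 x with hx | hx
  · have hur : r ≤ u := by
      have : r^2 ≤ u^2 := by linarith
      exact (sq_le_sq₀ hr.le hu0.le).mp this
    have hs' : s = a + r := by
      have e : (s - (a+r))*(s+(a+r)) = 0 := by
        have : (s - (a+r))*(s+(a+r)) = s^2 - (a+r)^2 := by ring
        rw [this, h2, hreg]; linear_combination -h1
      rcases mul_eq_zero.mp e with h | h <;> linarith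
    have ht' : t = b + r := by
      have e : (t - (b+r))*(t+(b+r)) = 0 := by
        have : (t - (b+r))*(t+(b+r)) = t^2 - (b+r)^2 := by ring
        rw [this, h3, hreg]; linear_combination -h1
      rcases mul_eq_zero.mp e with h | h <;> linarith
    have hvs : s ≤ v := by
      have : s^2 ≤ v^2 := by linarith
      exact (sq_le_sq₀ hs.le hv0.le).mp this
    have hwt : t ≤ w := by
      have : t^2 ≤ w^2 := by linarith
      exact (sq_le_sq₀ ht.le hw0.le).mp this
    have k1 : v - u ≤ a := by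
      by_contra hlt
      push Not at hlt
      have : a*(a+2*r) < (v-u)*(v+u) := by
        apply mul_lt_mul hlt (by linarith) (by positivity) (by linarith)
      nlinarith
    have k2 : w - u ≤ b := by
      by_contra hlt
      push Not at hlt
      have : b*(b+2*r) < (w-u)*(w+u) := by
        apply mul_lt_mul hlt (by linarith) (by positivity) (by linarith)
      nlinarith
    have k3 : (v-u)*(w-u) ≤ a*b := by
      apply mul_le_mul k1 k2 (by linarith) ha.le
    nlinarith
  · rcases le_or_gt x 0 with hx0 | hx0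
    · have hur : u < r := by
        have : u^2 < r^2 := by linarith
        exact lt_of_pow_lt_pow_left₀ 2 hr.le this
      have k1 : a < v - u := by
        by_contra hle
        push Not at hle
        have : (v-u)*(v+u) ≤ a*(a+2*u) := by
          apply mul_le_mul hle (by linarith) (by linarith) ha.le
        nlinarith
      have k2 : b < w - u := by
        by_contra hle
        push Not at hle
        have : (w-u)*(w+u) ≤ b*(b+2*u) := by
          apply mul_le_mul hle (by linarith) (by linarith) hb.le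
        nlinarith
      have k3 : a*b < (v-u)*(w-u) := by
        apply mul_lt_mul k1 k2.le hb (by linarith)
      nlinarith
    · -- x = 1, 2, 3
      have hur : u < r := by
        have : u^2 < r^2 := by linarith
        exact lt_of_pow_lt_pow_left₀ 2 hr.le this
      have e1 : r^2 - u^2 = 4 - x := by linarith
      have e2 : (r-u)*(r+u) = 4 - x := by linear_combination e1
      have e3 : 1 ≤ r - u := by linarith
      have e4 : 1*(r+u) ≤ (r-u)*(r+u) := mul_le_mul_of_nonneg_right e3 (by linarith)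
      have e5 : r + u ≤ 3 := by linarith
      have e6 : r ≤ 2 := by linarith
      have e7 : r^2 ≤ 2^2 := pow_le_pow_left₀ hr.le e6 2
      linarith

theorem x_pos (a b c r x u v w : ℤ) (ha : 0 < a) (hab : a < b)
    (hr : 0 < r) (h1 : r^2 = a*b+4)
    (hu0 : 0 < u) (huv0 : u < v) (huw0 : u < w)
    (hu : u^2 = x+a*b) (hv : v^2 = x+a*c) (hw : w^2 = x+b*c)
    (huvw : u*(v+w) = v*w) (h21 : 21 ≤ a*b) (hlarge : 5*b < c) : 0 < x := by
  by_contra hx
  push Not at hx
  have hb : 0 < b := lt_trans ha hab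
  have hur : u < r := by
    have : u^2 < r^2 := by linarith
    exact lt_of_pow_lt_pow_left₀ 2 hr.le this
  have hb5 : 5 ≤ b := by
    by_contra h
    push Not at h
    have h1 : b ≤ 4 := by linarith
    have h2 : a ≤ 3 := by linarith
    have h3 : a*b ≤ 3*4 := mul_le_mul h2 h1 hb.le (by norm_num)
    linarith
  have hrb : r ≤ b := by
    have h2 : a*b ≤ (b-1)*b := mul_le_mul_of_nonneg_right (by linarith) hb.le
    have h3 : r^2 ≤ b^2 := by
      have : (b-1)*b = b^2 - b := by ring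
      linarith
    exact (sq_le_sq₀ hr.le hb.le).mp h3
  have hprod : (v-u)*(w-u) = u^2 := by linear_combination -huvw
  have k1 : a < v - u := by
    by_contra hle
    push Not at hle
    have h2 : (v-u)*(v+u) ≤ a*(a+2*u) := by
      apply mul_le_mul hle (by linarith) (by linarith) ha.le
    have h3 : a*(c-b) ≤ a*(a+2*u) := by
      have : (v-u)*(v+u) = a*(c-b) := by linear_combination hv - hu
      linarith
    have h4 : c - b ≤ a + 2*u := le_of_mul_le_mul_left h3 ha
    linarith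
  have k2 : b < w - u := by
    by_contra hle
    push Not at hle
    have h2 : (w-u)*(w+u) ≤ b*(b+2*u) := by
      apply mul_le_mul hle (by linarith) (by linarith) hb.le
    have h3 : b*(c-a) ≤ b*(b+2*u) := by
      have : (w-u)*(w+u) = b*(c-a) := by linear_combination hw - hu
      linarith
    have h4 : c - a ≤ b + 2*u := le_of_mul_le_mul_left h3 hb
    linarith
  have k3 : a*b < (v-u)*(w-u) := by
    apply mul_lt_mul k1 k2.le hb (by linarith)
  linarith

/-- Final integer statement for `D(4)`-triples. -/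
theorem integer_main (a b c r s t x u v w : ℤ) (ha : 0 < a) (hab : a < b) (hbc : b < c)
    (hr : 0 < r) (hs : 0 < s) (ht : 0 < t)
    (h1 : r^2 = a*b+4) (h2 : s^2 = a*c+4) (h3 : t^2 = b*c+4)
    (hu0 : 0 < u) (hv0 : 0 < v) (hw0 : 0 < w)
    (hu : u^2 = x+a*b) (hv : v^2 = x+a*c) (hw : w^2 = x+b*c)
    (huvw : u*(v+w) = v*w) :
    c ≠ a + b + 2*r ∧ (¬ 4 ∣ r ∧ ¬ 4 ∣ s ∧ ¬ 4 ∣ t) ∧ (¬ 3 ∣ r ∧ ¬ 3 ∣ s ∧ ¬ 3 ∣ t) ∧
      (¬ 2 ∣ a → ¬ 2 ∣ b → 32 ∣ c) ∧ (¬ 2 ∣ a → ¬ 2 ∣ c → 32 ∣ b) ∧
      (¬ 2 ∣ b → ¬ 2 ∣ c → 32 ∣ a) ∧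
      21 ≤ a*b ∧ a*b < c ∧ 5*b < c ∧ (150*c)^3 < a^2*b^7 ∧ (7*a)^4 < b*(b-a)^4 ∧
      ∃ k : ℤ, k*((3*u+k)^2+3*(a*b+4)) = 2*(a*b+4)*(v+w-4*u) := by
  have hb : 0 < b := lt_trans ha hab
  have hc : 0 < c := lt_trans hb hbc
  have hreg : c ≠ a + b + 2*r := fun h =>
    regular_excluded a b c r s t x u v w ha hab hr hs ht h1 h2 h3 hu0 hv0 hw0 hu hv hw huvw h
  obtain ⟨g4, g3, p1, p2, p3, k, hk6, hk⟩ := exists_k a b c r s t x u v w ha hb hc hr hs ht
    h1 h2 h3 hu hv hw huvw
  have habpos : 0 < a*b := mul_pos ha hb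
  have hab21 : 21 ≤ a*b := by
    have hr5 : 5 ≤ r := by
      by_contra hlt
      push Not at hlt
      have h4 := g4.1
      have h5 := g3.1
      have h6 : 2 < r := by
        have : (2:ℤ)^2 < r^2 := by linarith
        exact lt_of_pow_lt_pow_left₀ 2 hr.le this
      omega
    have : (5:ℤ)^2 ≤ r^2 := pow_le_pow_left₀ (by norm_num) hr5 2
    linarith
  obtain ⟨hlarge, h5b⟩ : a*b < c ∧ 5*b < c := by
    rcases regular_or_large a b c r s t ha hab hbc hr hs ht h1 h2 h3 (by linarith) with h | h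
    · exact absurd h hreg
    · exact h
  have huv : u < v := by
    have : u^2 < v^2 := by
      have : 0 < a*(c-b) := mul_pos ha (by linarith)
      linarith
    exact lt_of_pow_lt_pow_left₀ 2 hv0.le this
  have hvw : v < w := by
    have : v^2 < w^2 := by
      have : 0 < c*(b-a) := mul_pos hc (by linarith)
      linarith
    exact lt_of_pow_lt_pow_left₀ 2 hw0.le this
  have hmain := main_ineq (a*b+4) u v w k (by linarith) hu0 hv0 hw0 hvw huvw hk6 hk
  obtain ⟨I1, I2⟩ := two_ineqs 27 a b c (a*b+4) u v w (by norm_num) (by linarith) hu0 huv hvw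
    (by rw [hv, hu]; ring) (by rw [hw, hu]; ring) huvw hmain
  have hR : 21*(a*b+4) ≤ 25*(a*b) := by linarith
  have hcb : 4*c ≤ 5*(c-b) := by linarith
  have hacb : 4*(a*c) ≤ 5*(a*(c-b)) := by
    have : a*(4*c) ≤ a*(5*(c-b)) := mul_le_mul_of_nonneg_left hcb ha.le
    linarith
  have hcb0 : 0 < c - b := by linarith
  have hba : 0 < b - a := by linarith
  refine ⟨hreg, g4, g3, p1, p2, p3, hab21, hlarge, h5b, ?_, ?_, k, hk⟩
  · have s1 : (4*(a*c))^4 ≤ (5*(a*(c-b)))^4 := pow_le_pow_left₀ (by positivity) hacb 4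
    have s2 : (21*(a*b+4))^6 ≤ (25*(a*b))^6 := pow_le_pow_left₀ (by positivity) hR 6
    have s3 : b*(c-a) ≤ b*c := mul_le_mul_of_nonneg_left (by linarith) hb.le
    have s4 : (27^6*21^6*256*c^3)*(a^4*c) < (10000*25^6*(a^2*b^7))*(a^4*c) := by
      calc (27^6*21^6*256*c^3)*(a^4*c) = 27^6*21^6*(4*(a*c))^4 := by ring
        _ ≤ 27^6*21^6*(5*(a*(c-b)))^4 := by gcongr
        _ = 21^6*625*(27^6*(a*(c-b))^4) := by ring
        _ < 21^6*625*(16*(a*b+4)^6*(b*(c-a))) := mul_lt_mul_of_pos_left I1 (by positivity)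
        _ = 10000*(21*(a*b+4))^6*(b*(c-a)) := by ring
        _ ≤ 10000*(25*(a*b))^6*(b*c) := by
          have : 0 ≤ b*(c-a) := mul_nonneg hb.le (by linarith)
          gcongr
        _ = (10000*25^6*(a^2*b^7))*(a^4*c) := by ring
    have s5 : 27^6*21^6*256*c^3 < 10000*25^6*(a^2*b^7) := lt_of_mul_lt_mul_right s4 (by positivity)
    have s6 : 0 < c^3 := by positivity
    have s7 : (150*c)^3 = 3375000*c^3 := by ring
    rw [s7]
    norm_num at s5
    linarith
  · have s1 : (4*(a*c))^5 ≤ (5*(a*(c-b)))^5 := pow_le_pow_left₀ (by positivity) hacb 5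
    have s2 : (21*(a*b+4))^2 ≤ (25*(a*b))^2 := pow_le_pow_left₀ (by positivity) hR 2
    have s4 : (21^2*4096*27^2*1024*a^3*c)*(a^2*c^4) < (3125*243*25^2*(b^2*(b-a)^4))*(a^2*c^4) := by
      calc (21^2*4096*27^2*1024*a^3*c)*(a^2*c^4) = 21^2*4096*27^2*(4*(a*c))^5 := by ring
        _ ≤ 21^2*4096*27^2*(5*(a*(c-b)))^5 := by gcongr
        _ = 21^2*3125*(4096*27^2*(a*(c-b))^5) := by ring
        _ < 21^2*3125*(243*(a*b+4)^2*(c*(b-a))^4) := mul_lt_mul_of_pos_left I2 (by positivity)
        _ = 3125*243*(21*(a*b+4))^2*(c*(b-a))^4 := by ring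
        _ ≤ 3125*243*(25*(a*b))^2*(c*(b-a))^4 := by gcongr
        _ = (3125*243*25^2*(b^2*(b-a)^4))*(a^2*c^4) := by ring
    have s5 : 21^2*4096*27^2*1024*a^3*c < 3125*243*25^2*(b^2*(b-a)^4) :=
      lt_of_mul_lt_mul_right s4 (by positivity)
    have s6 : (21^2*4096*27^2*1024*a^4)*b < (3125*243*25^2*(b*(b-a)^4))*b := by
      calc (21^2*4096*27^2*1024*a^4)*b = 21^2*4096*27^2*1024*a^3*(a*b) := by ring
        _ < 21^2*4096*27^2*1024*a^3*c := mul_lt_mul_of_pos_left hlarge (by positivity)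
        _ < 3125*243*25^2*(b^2*(b-a)^4) := s5
        _ = (3125*243*25^2*(b*(b-a)^4))*b := by ring
    have s7 : 21^2*4096*27^2*1024*a^4 < 3125*243*25^2*(b*(b-a)^4) :=
      lt_of_mul_lt_mul_right s6 hb.le
    have s8 : 0 < a^4 := by positivity
    have s9 : (7*a)^4 = 2401*a^4 := by ring
    rw [s9]
    norm_num at s7
    linarith

/-- two integer solutions `k` cannot coexist -/
theorem no_two_k (u R g kP kS : ℤ) (hu : 0 < u) (hR : 0 < R) (hg : 0 < g) (hgu : g < u^2)
    (h1 : kP*((3*u+kP)^2+3*R) = 2*R*g) (h2 : kS*((3*u+kS)^2+3*(R+4)) = 2*(R+4)*g) : False := by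
  have p1 : 0 < kP := by
    have : 0 < kP*((3*u+kP)^2+3*R) := by rw [h1]; positivity
    exact (mul_pos_iff_of_pos_right (by positivity)).mp this
  have p2 : 0 < kS := by
    have : 0 < kS*((3*u+kS)^2+3*(R+4)) := by rw [h2]; positivity
    exact (mul_pos_iff_of_pos_right (by positivity)).mp this
  have f1 : kP*(3*u+kP)^2 = R*(2*g-3*kP) := by linear_combination h1
  have f2 : kS*(3*u+kS)^2 = (R+4)*(2*g-3*kS) := by linear_combination h2
  have q2 : 0 < 2*g-3*kS := by
    have : 0 < (R+4)*(2*g-3*kS) := by rw [← f2]; positivity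
    exact (mul_pos_iff_of_pos_left (by linarith)).mp this
  rcases le_or_gt kS kP with h | h
  · have a1 : kS*(3*u+kS)^2 ≤ kP*(3*u+kP)^2 := by
      apply mul_le_mul h _ (by positivity) p1.le
      apply pow_le_pow_left₀ (by positivity); linarith
    have a2 : R*(2*g-3*kP) ≤ R*(2*g-3*kS) := by
      apply mul_le_mul_of_nonneg_left _ hR.le; linarith
    have a3 : R*(2*g-3*kS) < (R+4)*(2*g-3*kS) := mul_lt_mul_of_pos_right (by linarith) q2
    linarith
  · have h' : kP + 1 ≤ kS := h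
    have a1 : (kP+1)*(3*u+(kP+1))^2 ≤ kS*(3*u+kS)^2 := by
      apply mul_le_mul h' _ (by positivity) p2.le
      apply pow_le_pow_left₀ (by positivity); linarith
    have a2 : (R+4)*(2*g-3*kS) ≤ (R+4)*(2*g-3*(kP+1)) := by
      apply mul_le_mul_of_nonneg_left _ (by linarith); linarith
    have a3 : kP*(3*u+kP)^2 + (3*u+kP)^2 ≤ (kP+1)*(3*u+(kP+1))^2 := by
      have : (kP+1)*(3*u+(kP+1))^2 - (kP*(3*u+kP)^2 + (3*u+kP)^2) = (kP+1)*(2*(3*u+kP)+1) := by ring
      have : 0 ≤ (kP+1)*(2*(3*u+kP)+1) := by positivity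
      linarith
    have a4 : (3*u+kP)^2 + 3*(R+4) + 12*kP ≤ 8*g := by
      have : kP*(3*u+kP)^2 + (3*u+kP)^2 ≤ (R+4)*(2*g-3*(kP+1)) := by linarith
      rw [f1] at this
      linarith
    have a5 : (3*u)^2 ≤ (3*u+kP)^2 := by
      apply pow_le_pow_left₀ (by positivity); linarith
    have a6 : (3*u)^2 = 9*u^2 := by ring
    linarith

/-- `P` is never a cube. -/
theorem P_noncube (a b c r s t x u v w α : ℤ) (ha : 0 < a) (hab : a < b) (hbc : b < c)
    (hr : 0 < r) (hs : 0 < s) (ht : 0 < t)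
    (h1 : r^2 = a*b+4) (h2 : s^2 = a*c+4) (h3 : t^2 = b*c+4)
    (hu0 : 0 < u) (hv0 : 0 < v) (hw0 : 0 < w)
    (hu : u^2 = x+a*b) (hv : v^2 = x+a*c) (hw : w^2 = x+b*c)
    (huvw : u*(v+w) = v*w) (hα : u^3 + (v+w-u)*(a*b) - a*b*c = α^3) : False := by
  have hb : 0 < b := lt_trans ha hab
  have hc : 0 < c := lt_trans hb hbc
  have huv : u < v := by
    have : u^2 < v^2 := by
      have : 0 < a*(c-b) := mul_pos ha (by linarith)
      linarith
    exact lt_of_pow_lt_pow_left₀ 2 hv0.le this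
  have hvw : v < w := by
    have : v^2 < w^2 := by
      have : 0 < c*(b-a) := mul_pos hc (by linarith)
      linarith
    exact lt_of_pow_lt_pow_left₀ 2 hw0.le this
  obtain ⟨-, -, -, -, -, -, h21, -, hlarge, -, -, kS, hkS⟩ := integer_main a b c r s t x u v w
    ha hab hbc hr hs ht h1 h2 h3 hu0 hv0 hw0 hu hv hw huvw
  have hx := x_pos a b c r x u v w ha hab hr h1 hu0 huv (huv.trans hvw) hu hv hw huvw h21 hlarge
  have m1 : (u^3 + (v+w-u)*(a*b) - a*b*c) * (u^3 + (v+w-u)*(a*b) + a*b*c) = x^3 := by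
    have := norm_identity u v w (a*b) (a*c) (b*c) x (by linarith) (by linarith) (by linarith) huvw
    linear_combination this
  rw [hα] at m1
  have hαx : α ∣ x := by
    have : α^3 ∣ x^3 := ⟨_, m1.symm⟩
    exact (Int.pow_dvd_pow_iff (by norm_num)).mp this
  obtain ⟨β, hβ⟩ := hαx
  have hα0 : α ≠ 0 := by
    rintro rfl; rw [zero_mul] at hβ; linarith
  have hβ3 : u^3 + (v+w-u)*(a*b) + a*b*c = β^3 := by
    have : α^3 * (u^3 + (v+w-u)*(a*b) + a*b*c) = α^3*β^3 := by
      rw [m1, hβ]; ring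
    exact mul_left_cancel₀ (pow_ne_zero 3 hα0) this
  have kP := cubic_rel α β u v w (a*b) x (by linarith) hβ.symm (by rw [← hα, ← hβ3]; ring)
  have hmn : (v-u)*(w-u) = u^2 := by linear_combination -huvw
  have hg : 0 < v+w-4*u := by
    have : 0 < (v+w)*(v+w-4*u) := by
      have e : (v+w)*(v+w-4*u) = (w-v)^2 := by linear_combination (-4)*huvw
      rw [e]; have : 0 < w - v := by linarith
      positivity
    exact (mul_pos_iff_of_pos_left (by linarith)).mp this
  have hgu : v+w-4*u < u^2 := by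
    have h5 : v - u < u := by
      have : (v-u)^2 < u^2 := by
        rw [← hmn, sq]; exact mul_lt_mul_of_pos_left (by linarith) (by linarith)
      exact lt_of_pow_lt_pow_left₀ 2 hu0.le this
    have h6 : 1*(w-u) ≤ (v-u)*(w-u) := by
      apply mul_le_mul_of_nonneg_right _ (by linarith)
      have : 0 < v - u := by linarith
      exact this
    rw [hmn] at h6
    linarith
  exact no_two_k u (a*b) (v+w-4*u) _ _ hu0 (mul_pos ha hb) hg hgu kP hkS

end Pool.Agent.Helper590.Tors6.D4
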