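import Pool.Agent.Helper590.Tors6.D4Coprime

set_option autoImplicit false

namespace Pool.Agent.Helper590.Tors6.D4

open Pool.Agent.Helper590.Tors6

/-- the two-adic information needed for `(L, q)` -/
def Good2 (D L q : ℤ) : Prop := 4 ∣ D ∧ 8 ∣ L - q ∧ 8 ∣ L + q ∧ ¬ (16 ∣ L - q ∧ 16 ∣ L + q)

theorem good2_neg (D L q : ℤ) (h : Good2 D L q) : Good2 D L (-q) := by
  obtain ⟨h1, h2, h3, h4⟩ := h
  refine ⟨h1, ?_, ?_, ?_⟩
  · rw [sub_neg_eq_add]; exact h3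
  · rw [← sub_eq_add_neg]; exact h2
  · rw [sub_neg_eq_add, ← sub_eq_add_neg]; exact fun h => h4 ⟨h.2, h.1⟩

theorem odd_mul (a b : ℤ) (ha : ¬ 2 ∣ a) (hb : ¬ 2 ∣ b) : ¬ 2 ∣ a*b := by
  intro h
  rcases Int.prime_two.dvd_or_dvd h with h | h
  · exact ha h
  · exact hb h

/-- Exactly two of the entries are odd (`e`, `f` odd). -/
theorem caseO (e f g R S T X Y Z x : ℤ) (he : ¬ 2 ∣ e) (hf : ¬ 2 ∣ f)
    (h1 : R^2 = e*f+4) (h2 : S^2 = e*g+4) (h3 : T^2 = f*g+4)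
    (hX : X^2 = x+e*f) (hY : Y^2 = x+e*g) (hZ : Z^2 = x+f*g) (hs : X*Y+X*Z+Y*Z = 0) :
    32 ∣ g ∧ ¬ 2 ∣ R ∧ (∃ S1, S = 2*S1 ∧ ¬ 2 ∣ S1) ∧ (∃ T1, T = 2*T1 ∧ ¬ 2 ∣ T1) ∧
      Good2 (x-4) (X^3 - (X+Y+Z)*R^2) (R*S*T) := by
  have hR : ¬ 2 ∣ R := by
    intro h
    have h4 : 2 ∣ e*f := by
      have : e*f = R*R - 4 := by linarith [sq R]
      rw [this]; exact dvd_sub (Dvd.dvd.mul_left h _) (by norm_num)
    exact odd_mul e f he hf h4
  obtain ⟨j, hj⟩ := odd_sq_mod8 R hR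
  have hef : e*f = 8*j - 3 := by linarith
  obtain ⟨je, hje⟩ := odd_sq_mod8 e he
  obtain ⟨jf, hjf⟩ := odd_sq_mod8 f hf
  -- g even
  have hg : 2 ∣ g := by
    by_contra hg
    have hS : ¬ 2 ∣ S := by
      intro h
      have h4 : 2 ∣ e*g := by
        have : e*g = S*S - 4 := by linarith [sq S]
        rw [this]; exact dvd_sub (Dvd.dvd.mul_left h _) (by norm_num)
      exact odd_mul e g he hg h4
    have hT : ¬ 2 ∣ T := by
      intro h
      have h4 : 2 ∣ f*g := by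
        have : f*g = T*T - 4 := by linarith [sq T]
        rw [this]; exact dvd_sub (Dvd.dvd.mul_left h _) (by norm_num)
      exact odd_mul f g hf hg h4
    obtain ⟨j2, hj2⟩ := odd_sq_mod8 S hS
    obtain ⟨j3, hj3⟩ := odd_sq_mod8 T hT
    have heg : e*g = 8*j2 - 3 := by linarith
    have hfg : f*g = 8*j3 - 3 := by linarith
    have : (e*f)*(e*g) = e^2*(f*g) := by ring
    rw [hef, heg, hfg, hje] at this
    have h5 : 8*(8*(j*j2) - 3*j - 3*j2 + 1 - 8*(je*j3) + 3*je - j3) = -4 := by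
      linear_combination this
    omega
  -- 4 ∣ g
  have hS : 2 ∣ S := by
    apply Int.prime_two.dvd_of_dvd_pow (n := 2)
    rw [h2]; exact dvd_add (Dvd.dvd.mul_left hg _) (by norm_num)
  have hT : 2 ∣ T := by
    apply Int.prime_two.dvd_of_dvd_pow (n := 2)
    rw [h3]; exact dvd_add (Dvd.dvd.mul_left hg _) (by norm_num)
  obtain ⟨S1, hS1⟩ := hS
  obtain ⟨T1, hT1⟩ := hT
  obtain ⟨g0, hg0⟩ := hg
  have hg0' : 2 ∣ g0 := by
    have h4 : 2 ∣ e*g0 := by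
      refine ⟨S1^2-1, ?_⟩
      rw [hS1, hg0] at h2
      linarith
    exact (Int.prime_two.dvd_or_dvd h4).resolve_left he
  obtain ⟨g1, hg1⟩ := hg0'
  have hgg : g = 4*g1 := by rw [hg0, hg1]; ring
  have s1 : S1^2 = e*g1+1 := by
    rw [hS1, hgg] at h2; linarith
  have t1 : T1^2 = f*g1+1 := by
    rw [hT1, hgg] at h3; linarith
  -- parity of x
  have hxe : 2 ∣ x := by
    by_contra hxo
    have hYo : ¬ 2 ∣ Y := by
      intro h
      apply hxo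
      have : x = Y*Y - 2*(2*(e*g1)) := by rw [hgg] at hY; linarith [sq Y]
      rw [this]; exact dvd_sub (Dvd.dvd.mul_left h _) (Dvd.intro _ rfl)
    have hZo : ¬ 2 ∣ Z := by
      intro h
      apply hxo
      have : x = Z*Z - 2*(2*(f*g1)) := by rw [hgg] at hZ; linarith [sq Z]
      rw [this]; exact dvd_sub (Dvd.dvd.mul_left h _) (Dvd.intro _ rfl)
    have h5 : 2 ∣ X*(Y+Z) := Dvd.dvd.mul_left (by omega) _
    have h6 : 2 ∣ Y*Z := by
      have : Y*Z = -(X*(Y+Z)) := by linarith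
      rw [this]; exact (dvd_neg).mpr h5
    exact odd_mul Y Z hYo hZo h6
  have hXo : ¬ 2 ∣ X := by
    intro h
    have : 2 ∣ e*f := by
      have e1 : e*f = X*X - x := by linarith [sq X]
      rw [e1]; exact dvd_sub (Dvd.dvd.mul_left h _) hxe
    exact odd_mul e f he hf this
  obtain ⟨i, hi⟩ := odd_sq_mod8 X hXo
  have hx4 : x = 8*(i-j)+4 := by linarith
  have hYe : 2 ∣ Y := by
    apply Int.prime_two.dvd_of_dvd_pow (n := 2)
    rw [hY, hgg]; exact dvd_add hxe (Dvd.dvd.mul_left (Dvd.dvd.mul_right (by norm_num) _) _)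
  have hZe : 2 ∣ Z := by
    apply Int.prime_two.dvd_of_dvd_pow (n := 2)
    rw [hZ, hgg]; exact dvd_add hxe (Dvd.dvd.mul_left (Dvd.dvd.mul_right (by norm_num) _) _)
  obtain ⟨Y1, hY1⟩ := hYe
  obtain ⟨Z1, hZ1⟩ := hZe
  have y1 : Y1^2 = 2*(i-j)+1 + e*g1 := by
    rw [hY1, hgg, hx4] at hY; linarith
  have z1 : Z1^2 = 2*(i-j)+1 + f*g1 := by
    rw [hZ1, hgg, hx4] at hZ; linarith
  have rel : X*(Y1+Z1) = -2*(Y1*Z1) := by
    rw [hY1, hZ1] at hs; linarith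
  -- g1 even
  have hg1e : 2 ∣ g1 := by
    by_contra hg1o
    have hego : ¬ 2 ∣ e*g1 := odd_mul e g1 he hg1o
    have hfgo : ¬ 2 ∣ f*g1 := odd_mul f g1 hf hg1o
    have a1 : 2 ∣ S1 := by
      apply Int.prime_two.dvd_of_dvd_pow (n := 2); rw [s1]; omega
    have a2 : 2 ∣ T1 := by
      apply Int.prime_two.dvd_of_dvd_pow (n := 2); rw [t1]; omega
    have a3 : 2 ∣ Y1 := by
      apply Int.prime_two.dvd_of_dvd_pow (n := 2); rw [y1]; omega
    have a4 : 2 ∣ Z1 := by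
      apply Int.prime_two.dvd_of_dvd_pow (n := 2); rw [z1]; omega
    obtain ⟨S2, hS2⟩ := a1
    obtain ⟨T2, hT2⟩ := a2
    obtain ⟨Y2, hY2⟩ := a3
    obtain ⟨Z2, hZ2⟩ := a4
    have b1 : 4*(f*S2^2 - e*T2^2) = f - e := by
      rw [hS2] at s1; rw [hT2] at t1
      linear_combination f*s1 - e*t1
    have b2 : Y2^2 - S2^2 = Z2^2 - T2^2 := by
      rw [hS2] at s1; rw [hT2] at t1; rw [hY2] at y1; rw [hZ2] at z1
      linarith
    have b3 : X*(Y2+Z2) = -4*(Y2*Z2) := by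
      rw [hY2, hZ2] at rel; linarith
    have b4 : 2 ∣ Y2 + Z2 := by
      have : 2 ∣ X*(Y2+Z2) := ⟨-2*(Y2*Z2), by rw [b3]; ring⟩
      exact (Int.prime_two.dvd_or_dvd this).resolve_left hXo
    have b5 : 2 ∣ (S2 - T2)*(S2 + T2) := by
      have : (S2 - T2)*(S2 + T2) = (Y2+Z2)*(Y2-Z2) := by linear_combination -b2
      rw [this]; exact Dvd.dvd.mul_right b4 _
    have b6 : 2 ∣ S2 - T2 := by
      rcases Int.prime_two.dvd_or_dvd b5 with h | h <;> omega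
    -- f S2^2 - e T2^2 is even
    obtain ⟨k, hk⟩ := b6
    obtain ⟨l, hl⟩ : ∃ l, f - e = 2*l := ⟨(f-e)/2, by omega⟩
    have hS2' : S2 = T2 + 2*k := by linarith
    have b7 : f - e = 8*(l*T2^2 + 2*f*T2*k + 2*f*k^2) := by
      have e1 : f*S2^2 - e*T2^2 = 2*(l*T2^2 + 2*f*T2*k + 2*f*k^2) := by
        rw [hS2']; linear_combination T2^2*hl
      rw [e1] at b1; linarith
    obtain ⟨n, hn⟩ : ∃ n, f - e = 8*n := ⟨_, b7⟩
    have hf' : f = e + 8*n := by linarith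
    have b8 : e*f = 8*je + 1 + 8*(e*n) := by
      rw [hf']; linear_combination hje
    rw [hef] at b8
    omega
  obtain ⟨g2, hg2⟩ := hg1e
  have hS1o : ¬ 2 ∣ S1 := by
    intro h
    have : 2 ∣ S1^2 := Dvd.dvd.pow h (by norm_num)
    rw [s1, hg2] at this
    have e1 : e*(2*g2) = 2*(e*g2) := by ring
    rw [e1] at this
    omega
  have hT1o : ¬ 2 ∣ T1 := by
    intro h
    have : 2 ∣ T1^2 := Dvd.dvd.pow h (by norm_num)
    rw [t1, hg2] at this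
    have e1 : f*(2*g2) = 2*(f*g2) := by ring
    rw [e1] at this
    omega
  have hY1o : ¬ 2 ∣ Y1 := by
    intro h
    have : 2 ∣ Y1^2 := Dvd.dvd.pow h (by norm_num)
    rw [y1, hg2] at this
    have e1 : e*(2*g2) = 2*(e*g2) := by ring
    rw [e1] at this
    omega
  have hZ1o : ¬ 2 ∣ Z1 := by
    intro h
    have : 2 ∣ Z1^2 := Dvd.dvd.pow h (by norm_num)
    rw [z1, hg2] at this
    have e1 : f*(2*g2) = 2*(f*g2) := by ring
    rw [e1] at this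
    omega
  obtain ⟨j4, hj4⟩ := odd_sq_mod8 S1 hS1o
  obtain ⟨j5, hj5⟩ := odd_sq_mod8 Y1 hY1o
  have heg8 : e*g1 = 8*j4 := by linarith
  have hg32 : 32 ∣ g := by
    have h8 : (2:ℤ)^3 ∣ e*g1 := ⟨j4, by rw [heg8]; norm_num⟩
    have hcop : IsCoprime ((2:ℤ)^3) e :=
      IsCoprime.pow_left ((Prime.coprime_iff_not_dvd Int.prime_two).mpr he)
    obtain ⟨k, hk⟩ := hcop.dvd_of_dvd_mul_left h8
    exact ⟨k, by rw [hgg, hk]; ring⟩
  have hD : x - 4 = 32*(j5 - j4) := by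
    have : 2*(i-j) = 8*j5 - 8*j4 := by linarith
    rw [hx4]; linarith
  -- Y1 + Z1 = 2κ, κ odd
  obtain ⟨κ, hκ⟩ : ∃ κ, Y1 + Z1 = 2*κ := ⟨(Y1+Z1)/2, by omega⟩
  have hκo : ¬ 2 ∣ κ := by
    intro h
    have h5 : X*κ = -(Y1*Z1) := by rw [hκ] at rel; linarith
    have h6 : 2 ∣ Y1*Z1 := by
      have : Y1*Z1 = -(X*κ) := by linarith
      rw [this]; exact (dvd_neg).mpr (Dvd.dvd.mul_left h _)
    exact odd_mul Y1 Z1 hY1o hZ1o h6
  have hL : X^3 - (X+Y+Z)*R^2 = 4*(8*(X*(j5-j4)) - κ*R^2) := by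
    have e1 : X^2 - R^2 = x - 4 := by linarith
    have e2 : X^3 - (X+Y+Z)*R^2 = X*(X^2-R^2) - (Y+Z)*R^2 := by ring
    rw [e2, e1, hD, hY1, hZ1]
    linear_combination (-2*R^2)*hκ
  have hq : R*S*T = 4*(R*(S1*T1)) := by rw [hS1, hT1]; ring
  have o1 : ¬ 2 ∣ κ*R^2 := odd_mul _ _ hκo (by rw [sq]; exact odd_mul _ _ hR hR)
  have o2 : ¬ 2 ∣ R*(S1*T1) := odd_mul _ _ hR (odd_mul _ _ hS1o hT1o)
  refine ⟨hg32, hR, ⟨S1, hS1, hS1o⟩, ⟨T1, hT1, hT1o⟩, ?_, ?_, ?_, ?_⟩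
  · rw [hD]; exact ⟨8*(j5-j4), by ring⟩
  · rw [hL, hq]
    generalize κ*R^2 = p1 at o1 ⊢
    generalize R*(S1*T1) = p2 at o2 ⊢
    generalize X*(j5-j4) = p3
    omega
  · rw [hL, hq]
    generalize κ*R^2 = p1 at o1 ⊢
    generalize R*(S1*T1) = p2 at o2 ⊢
    generalize X*(j5-j4) = p3
    omega
  · rw [hL, hq]
    generalize κ*R^2 = p1 at o1 ⊢
    generalize R*(S1*T1) = p2 at o2 ⊢
    generalize X*(j5-j4) = p3
    omega

end Pool.Agent.Helper590.Tors6.D4
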