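import Pool.Agent.Helper590.Tors6.D4Local

set_option autoImplicit false

namespace Pool.Agent.Helper590.Tors6.D4

open Pool.Agent.Helper590.Tors6

theorem notBoth (a b c r1 s1 t1 : ℤ) (h1 : a*b = 4*(r1^2-1)) (h2 : a*c = 4*(s1^2-1))
    (h3 : b*c = 4*(t1^2-1)) : ¬ (2 ∣ r1 ∧ 2 ∣ s1) := by
  rintro ⟨⟨r2, hr2⟩, ⟨s2, hs2⟩⟩
  have e : (a*b)*(a*c) = a^2*(b*c) := by ring
  rw [h1, h2, h3] at e
  have e1 : 4*(4*(4*r2^2*s2^2-r2^2-s2^2)+1) = a^2*(t1^2-1) := by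
    rw [hr2, hs2] at e; linarith
  by_cases ht : 2 ∣ t1
  · obtain ⟨t2, ht2⟩ := ht
    have ha : 2 ∣ a := by
      have h4 : 2 ∣ a^2*(t1^2-1) := ⟨2*(4*(4*r2^2*s2^2-r2^2-s2^2)+1), by rw [← e1]; ring⟩
      rcases Int.prime_two.dvd_or_dvd h4 with h | h
      · exact Int.prime_two.dvd_of_dvd_pow h
      · exfalso
        rw [ht2] at h
        have : (2*t2)^2 - 1 = 4*t2^2 - 1 := by ring
        rw [this] at h
        omega
    obtain ⟨a2, ha2⟩ := ha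
    have e2 : 4*(4*r2^2*s2^2-r2^2-s2^2)+1 = a2^2*(4*t2^2-1) := by
      rw [ha2, ht2] at e1; linarith
    have ha2o : ¬ 2 ∣ a2 := by
      rintro ⟨a3, ha3⟩
      rw [ha3] at e2
      have : (2*a3)^2*(4*t2^2-1) = 4*(a3^2*(4*t2^2-1)) := by ring
      rw [this] at e2
      omega
    obtain ⟨j, hj⟩ := odd_sq_mod8 a2 ha2o
    rw [hj] at e2
    have : (8*j+1)*(4*t2^2-1) = 4*(8*(j*t2^2) - 2*j + t2^2) - 1 := by ring
    rw [this] at e2
    omega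
  · obtain ⟨j, hj⟩ := odd_sq_mod8 t1 ht
    rw [hj] at e1
    have : a^2*(8*j+1-1) = 8*(a^2*j) := by ring
    rw [this] at e1
    omega

/-- All of `r, s, t` even. -/
theorem caseE (a b c r s t x u v w : ℤ) (ha : 0 < a) (hb : 0 < b) (hc : 0 < c)
    (hr0 : 0 < r) (hs0 : 0 < s) (ht0 : 0 < t)
    (h1 : r^2 = a*b+4) (h2 : s^2 = a*c+4) (h3 : t^2 = b*c+4)
    (hu : u^2 = x+a*b) (hv : v^2 = x+a*c) (hw : w^2 = x+b*c) (huvw : u*(v+w) = v*w)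
    (hr : 2 ∣ r) (hs : 2 ∣ s) (ht : 2 ∣ t) :
    (¬ 4 ∣ r ∧ ¬ 4 ∣ s ∧ ¬ 4 ∣ t) ∧ Good2 (x-4) (u^3+(v+w-u)*r^2) (r*s*t) := by
  have nt (p : ℤ) (hp : Prime p) (hp2 : ¬ p ∣ 2) : NoTwo p r s t :=
    noTwo p hp hp2 a b c r s t ha hb hc hr0 hs0 ht0 h1 h2 h3
  obtain ⟨r1, hr1⟩ := hr
  obtain ⟨s1, hs1⟩ := hs
  obtain ⟨t1, ht1⟩ := ht
  have k1 : a*b = 4*(r1^2-1) := by rw [hr1] at h1; linarith
  have k2 : a*c = 4*(s1^2-1) := by rw [hs1] at h2; linarith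
  have k3 : b*c = 4*(t1^2-1) := by rw [ht1] at h3; linarith
  have nb1 := notBoth a b c r1 s1 t1 k1 k2 k3
  have nb2 := notBoth b a c r1 t1 s1 (by linarith) k3 k2
  have nb3 := notBoth c a b s1 t1 r1 (by linarith) (by linarith) k1
  have cop (y z : ℤ) (hy0 : y ≠ 0) (h : ¬ (2 ∣ y ∧ 2 ∣ z))
      (h' : ∀ p : ℤ, Prime p → ¬ p ∣ 2 → ¬ (p ∣ y ∧ p ∣ z)) : IsCoprime y z := by
    apply isCoprime_of_prime_dvd
    · rintro ⟨e1, _⟩; exact hy0 e1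
    · intro p hp p1 p2
      by_cases hp2 : p ∣ 2
      · have : Associated p 2 := (hp.dvd_prime_iff_associated Int.prime_two).mp hp2
        exact h ⟨this.symm.dvd.trans p1, this.symm.dvd.trans p2⟩
      · exact h' p hp hp2 ⟨p1, p2⟩
  have c1 : IsCoprime r1 s1 := cop r1 s1 (by rintro rfl; linarith) nb1 (fun p hp hp2 h =>
    (nt p hp hp2).1 ⟨by rw [hr1]; exact Dvd.dvd.mul_left h.1 _, by rw [hs1]; exact Dvd.dvd.mul_left h.2 _⟩)
  have c2 : IsCoprime r1 t1 := cop r1 t1 (by rintro rfl; linarith) nb2 (fun p hp hp2 h =>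
    (nt p hp hp2).2.1 ⟨by rw [hr1]; exact Dvd.dvd.mul_left h.1 _, by rw [ht1]; exact Dvd.dvd.mul_left h.2 _⟩)
  have c3 : IsCoprime s1 t1 := cop s1 t1 (by rintro rfl; linarith) nb3 (fun p hp hp2 h =>
    (nt p hp hp2).2.2 ⟨by rw [hs1]; exact Dvd.dvd.mul_left h.1 _, by rw [ht1]; exact Dvd.dvd.mul_left h.2 _⟩)
  have hxe : 2 ∣ x := by
    by_contra hxo
    have ev (y z : ℤ) (hy : y^2 = x + 4*z) : ¬ 2 ∣ y := by
      intro h
      apply hxo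
      have : x = y*y - 2*(2*z) := by linarith [sq y]
      rw [this]; exact dvd_sub (Dvd.dvd.mul_left h _) (Dvd.intro _ rfl)
    have hvo := ev v _ (by rw [hv, k2])
    have hwo := ev w _ (by rw [hw, k3])
    have h5 : 2 ∣ v*w := by
      rw [← huvw]; exact Dvd.dvd.mul_left (by omega) _
    exact odd_mul v w hvo hwo h5
  have ev (y z : ℤ) (hy : y^2 = x + 4*z) : 2 ∣ y := by
    apply Int.prime_two.dvd_of_dvd_pow (n := 2)
    rw [hy]; exact dvd_add hxe (Dvd.dvd.mul_right (by norm_num) _)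
  obtain ⟨u1, hu1⟩ := ev u _ (by rw [hu, k1])
  obtain ⟨v1, hv1⟩ := ev v _ (by rw [hv, k2])
  obtain ⟨w1, hw1⟩ := ev w _ (by rw [hw, k3])
  have q1 : u1^2-r1^2 = v1^2-s1^2 := by
    rw [hu1, k1] at hu; rw [hv1, k2] at hv; linarith
  have q2 : v1^2-s1^2 = w1^2-t1^2 := by
    rw [hv1, k2] at hv; rw [hw1, k3] at hw; linarith
  have q3 : u1*(v1+w1) = v1*w1 := by
    rw [hu1, hv1, hw1] at huvw; linarith
  obtain ⟨-, -, -, hr2, hs2, ht2⟩ := local2a u1 v1 w1 r1 s1 t1 q1 q2 q3 c1 c2 c3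
  obtain ⟨⟨u2, hu2⟩, -, -⟩ := local2b u1 v1 w1 r1 s1 t1 q1 q2 q3 c1 c2 c3
  obtain ⟨⟨_, _⟩, ⟨v2, hv2⟩, ⟨w2, hw2⟩⟩ := local2b u1 v1 w1 r1 s1 t1 q1 q2 q3 c1 c2 c3
  have hq : r*s*t = 8*(r1*(s1*t1)) := by rw [hr1, hs1, ht1]; ring
  have hL : u^3+(v+w-u)*r^2 = 8*(2*(32*u2^3 + 2*(v2+w2-u2)*r1^2)) := by
    rw [hu1, hv1, hw1, hr1, hu2, hv2, hw2]; ring
  have o2 : ¬ 2 ∣ r1*(s1*t1) := odd_mul _ _ hr2 (odd_mul _ _ hs2 ht2)
  refine ⟨⟨?_, ?_, ?_⟩, ?_, ?_, ?_, ?_⟩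
  · rw [hr1]; intro h; apply hr2; omega
  · rw [hs1]; intro h; apply hs2; omega
  · rw [ht1]; intro h; apply ht2; omega
  · have : x - 4 = 4*(u1^2 - r1^2) := by
      rw [hu1, k1] at hu; linarith
    exact ⟨_, this⟩
  · rw [hL, hq]
    generalize r1*(s1*t1) = p2 at o2 ⊢
    generalize 32*u2^3 + 2*(v2+w2-u2)*r1^2 = p3
    omega
  · rw [hL, hq]
    generalize r1*(s1*t1) = p2 at o2 ⊢
    generalize 32*u2^3 + 2*(v2+w2-u2)*r1^2 = p3
    omega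
  · rw [hL, hq]
    generalize r1*(s1*t1) = p2 at o2 ⊢
    generalize 32*u2^3 + 2*(v2+w2-u2)*r1^2 = p3
    omega

theorem not_dvd_of_sq (r m : ℤ) (h : r^2 = m+4) (hr : ¬ 2 ∣ r) : ¬ 2 ∣ m := by
  obtain ⟨j, hj⟩ := odd_sq_mod8 r hr
  omega

/-- The two-adic structure in all cases. -/
theorem good2_all (a b c r s t x u v w : ℤ) (ha : 0 < a) (hb : 0 < b) (hc : 0 < c)
    (hr0 : 0 < r) (hs0 : 0 < s) (ht0 : 0 < t)
    (h1 : r^2 = a*b+4) (h2 : s^2 = a*c+4) (h3 : t^2 = b*c+4)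
    (hu : u^2 = x+a*b) (hv : v^2 = x+a*c) (hw : w^2 = x+b*c) (huvw : u*(v+w) = v*w) :
    (¬ 4 ∣ r ∧ ¬ 4 ∣ s ∧ ¬ 4 ∣ t) ∧
    (¬ 2 ∣ a → ¬ 2 ∣ b → 32 ∣ c) ∧ (¬ 2 ∣ a → ¬ 2 ∣ c → 32 ∣ b) ∧ (¬ 2 ∣ b → ¬ 2 ∣ c → 32 ∣ a) ∧
    Good2 (x-4) (u^3+(v+w-u)*r^2) (r*s*t) := by
  have hs' : u*(-v)+u*(-w)+(-v)*(-w) = 0 := by linear_combination -huvw
  have od (y z : ℤ) (h : ¬ 2 ∣ y*z) : ¬ 2 ∣ y ∧ ¬ 2 ∣ z :=
    ⟨fun h' => h (Dvd.dvd.mul_right h' _), fun h' => h (Dvd.dvd.mul_left h' _)⟩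
  have quad (S1 S : ℤ) (e : S = 2*S1) (o : ¬ 2 ∣ S1) : ¬ 4 ∣ S := by
    rw [e]; intro h; apply o; omega
  have odd4 (S : ℤ) (o : ¬ 2 ∣ S) : ¬ 4 ∣ S := fun h => o (by omega)
  have ev32 (g : ℤ) (h : 32 ∣ g) : 2 ∣ g := by omega
  by_cases hr : 2 ∣ r
  · by_cases hs : 2 ∣ s
    · by_cases ht : 2 ∣ t
      · have key := caseE a b c r s t x u v w ha hb hc hr0 hs0 ht0 h1 h2 h3 hu hv hw huvw hr hs ht
        have no (y z m : ℤ) (hm : m^2 = y*z+4) (h2m : 2 ∣ m) (hy : ¬ 2 ∣ y) (hz : ¬ 2 ∣ z) : False := by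
          apply odd_mul y z hy hz
          have : y*z = m*m - 4 := by linarith [sq m]
          rw [this]; exact dvd_sub (Dvd.dvd.mul_left h2m _) (by norm_num)
        exact ⟨key.1, fun p q => (no a b r h1 hr p q).elim, fun p q => (no a c s h2 hs p q).elim,
          fun p q => (no b c t h3 ht p q).elim, key.2⟩
      · -- t odd : b, c odd
        obtain ⟨ob, oc⟩ := od b c (not_dvd_of_sq t _ h3 ht)
        obtain ⟨g1, g2, ⟨S1, gS, gS'⟩, ⟨T1, gT, gT'⟩, g5⟩ :=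
          caseO b c a t r s (-w) u (-v) x ob oc h3 (by linarith) (by linarith)
          (by linear_combination hw) (by linear_combination hu) (by linear_combination hv)
          (by linear_combination hs')
        refine ⟨⟨quad S1 r gS gS', quad T1 s gT gT', odd4 t g2⟩,
          fun p _ => (p (ev32 a g1)).elim, fun p _ => (p (ev32 a g1)).elim, fun _ _ => g1, ?_⟩
        have e1 : (-w)^3 - (-w+u+(-v))*t^2 = u^3+(v+w-u)*r^2 := by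
          have e2 : t^2 = w^2 - x + 4 := by linarith
          have e3 : r^2 = u^2 - x + 4 := by linarith
          rw [e2, e3]; linear_combination (-(u+w))*huvw
        have e2 : t*r*s = r*s*t := by ring
        rw [e1, e2] at g5
        exact g5
    · -- s odd : a, c odd
      obtain ⟨oa, oc⟩ := od a c (not_dvd_of_sq s _ h2 hs)
      obtain ⟨g1, g2, ⟨S1, gS, gS'⟩, ⟨T1, gT, gT'⟩, g5⟩ :=
        caseO a c b s r t (-v) u (-w) x oa oc h2 h1 (by linarith)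
        (by linear_combination hv) (by linear_combination hu) (by linear_combination hw)
        (by linear_combination hs')
      refine ⟨⟨quad S1 r gS gS', odd4 s g2, quad T1 t gT gT'⟩,
        fun _ p => (p (ev32 b g1)).elim, fun _ _ => g1, fun p _ => (p (ev32 b g1)).elim, ?_⟩
      have e1 : (-v)^3 - (-v+u+(-w))*s^2 = u^3+(v+w-u)*r^2 := by
        have e2 : s^2 = v^2 - x + 4 := by linarith
        have e3 : r^2 = u^2 - x + 4 := by linarith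
        rw [e2, e3]; linear_combination (-(u+v))*huvw
      have e2 : s*r*t = r*s*t := by ring
      rw [e1, e2] at g5
      exact g5
  · -- r odd : a, b odd
    obtain ⟨oa, ob⟩ := od a b (not_dvd_of_sq r _ h1 hr)
    obtain ⟨g1, g2, ⟨S1, gS, gS'⟩, ⟨T1, gT, gT'⟩, g5⟩ :=
      caseO a b c r s t u (-v) (-w) x oa ob h1 h2 h3
      (by linear_combination hu) (by linear_combination hv) (by linear_combination hw)
      (by linear_combination hs')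
    refine ⟨⟨odd4 r g2, quad S1 s gS gS', quad T1 t gT gT'⟩,
      fun _ _ => g1, fun _ p => (p (ev32 c g1)).elim, fun _ p => (p (ev32 c g1)).elim, ?_⟩
    have e1 : u^3 - (u+(-v)+(-w))*r^2 = u^3+(v+w-u)*r^2 := by ring
    rw [e1] at g5
    exact g5

end Pool.Agent.Helper590.Tors6.D4
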