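import Pool.Agent.Helper590.Tors6.CubeP
import Pool.Agent.Helper590.Tors6.Curve

set_option autoImplicit false

namespace Pool.Agent.Helper590.Tors6

theorem x_pos (a b c r x u v w : ℤ) (ha : 0 < a) (hab : a < b)
    (hr : 0 < r) (h1 : r^2 = a*b+1)
    (hu0 : 0 < u) (huv0 : u < v) (huw0 : u < w)
    (hu : u^2 = x+a*b) (hv : v^2 = x+a*c) (hw : w^2 = x+b*c)
    (huvw : u*(v+w) = v*w) (hlarge : 4*a*b < c) : 0 < x := by
  by_contra hx
  push Not at hx
  have hb : 0 < b := lt_trans ha hab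
  have hur : u < r := by
    have : u^2 < r^2 := by linarith
    exact lt_of_pow_lt_pow_left₀ 2 hr.le this
  have hrab : r ≤ a*b := by
    have h2 : 2 ≤ a*b := by nlinarith
    have : r^2 ≤ (a*b)^2 := by nlinarith
    exact (sq_le_sq₀ hr.le (by positivity)).mp this
  have hab1 : a + b ≤ a*b + 1 := by nlinarith
  have hprod : (v-u)*(w-u) = u^2 := by linear_combination -huvw
  have k1 : a < v - u := by
    by_contra hle
    push Not at hle
    have h2 : (v-u)*(v+u) ≤ a*(a+2*u) := by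
      apply mul_le_mul hle (by linarith) (by linarith) ha.le
    have h3 : a*(c-b) ≤ a*(a+2*u) := by
      have : (v-u)*(v+u) = a*(c-b) := by linear_combination hv - hu
      linarith
    have h4 : c - b ≤ a + 2*u := le_of_mul_le_mul_left h3 ha
    nlinarith
  have k2 : b < w - u := by
    by_contra hle
    push Not at hle
    have h2 : (w-u)*(w+u) ≤ b*(b+2*u) := by
      apply mul_le_mul hle (by linarith) (by linarith) hb.le
    have h3 : b*(c-a) ≤ b*(b+2*u) := by
      have : (w-u)*(w+u) = b*(c-a) := by linear_combination hw - hu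
      linarith
    have h4 : c - a ≤ b + 2*u := le_of_mul_le_mul_left h3 hb
    nlinarith
  have k3 : a*b < (v-u)*(w-u) := by
    apply mul_lt_mul k1 k2.le hb (by linarith)
  nlinarith

theorem cubic_rel (α β u v w R D : ℤ) (hR : D = u^2 - R) (hαβ : α*β = D)
    (hs : α^3 + β^3 = 2*(u^3 + (v+w-u)*R)) :
    (α+β-2*u)*((3*u+(α+β-2*u))^2+3*R) = 2*R*(v+w-4*u) := by
  have e : (α+β)^3 = α^3 + β^3 + 3*(α*β)*(α+β) := by ring
  rw [hs, hαβ, hR] at e
  linear_combination e

/-- two integer solutions `k` cannot coexist -/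
theorem no_two_k (u R g kP kS : ℤ) (hu : 0 < u) (hR : 0 < R) (hg : 0 < g) (hgu : g < u^2)
    (h1 : kP*((3*u+kP)^2+3*R) = 2*R*g) (h2 : kS*((3*u+kS)^2+3*(R+1)) = 2*(R+1)*g) : False := by
  have p1 : 0 < kP := by
    have : 0 < kP*((3*u+kP)^2+3*R) := by rw [h1]; positivity
    exact (mul_pos_iff_of_pos_right (by positivity)).mp this
  have p2 : 0 < kS := by
    have : 0 < kS*((3*u+kS)^2+3*(R+1)) := by rw [h2]; positivity
    exact (mul_pos_iff_of_pos_right (by positivity)).mp this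
  have f1 : kP*(3*u+kP)^2 = R*(2*g-3*kP) := by linear_combination h1
  have f2 : kS*(3*u+kS)^2 = (R+1)*(2*g-3*kS) := by linear_combination h2
  have q2 : 0 < 2*g-3*kS := by
    have : 0 < (R+1)*(2*g-3*kS) := by rw [← f2]; positivity
    exact (mul_pos_iff_of_pos_left (by linarith)).mp this
  rcases le_or_gt kS kP with h | h
  · have a1 : kS*(3*u+kS)^2 ≤ kP*(3*u+kP)^2 := by
      apply mul_le_mul h _ (by positivity) p1.le
      apply pow_le_pow_left₀ (by positivity); linarith
    have a2 : R*(2*g-3*kP) ≤ R*(2*g-3*kS) := by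
      apply mul_le_mul_of_nonneg_left _ hR.le; linarith
    have a3 : R*(2*g-3*kS) < (R+1)*(2*g-3*kS) := by nlinarith
    linarith
  · have h' : kP + 1 ≤ kS := h
    have a1 : (kP+1)*(3*u+(kP+1))^2 ≤ kS*(3*u+kS)^2 := by
      apply mul_le_mul h' _ (by positivity) p2.le
      apply pow_le_pow_left₀ (by positivity); linarith
    have a2 : (R+1)*(2*g-3*kS) ≤ (R+1)*(2*g-3*(kP+1)) := by
      apply mul_le_mul_of_nonneg_left _ (by linarith); linarith
    have a3 : kP*(3*u+kP)^2 + (3*u+kP)^2 ≤ (kP+1)*(3*u+(kP+1))^2 := by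
      have : (kP+1)*(3*u+(kP+1))^2 - (kP*(3*u+kP)^2 + (3*u+kP)^2) = (kP+1)*(2*(3*u+kP)+1) := by ring
      have : 0 ≤ (kP+1)*(2*(3*u+kP)+1) := by positivity
      linarith
    have a4 : (3*u+kP)^2 + 3*(R+1) + 3*kP ≤ 2*g := by
      have : kP*(3*u+kP)^2 + (3*u+kP)^2 ≤ (R+1)*(2*g-3*(kP+1)) := by linarith
      rw [f1] at this
      linarith
    nlinarith

/-- `P` is never a cube. -/
theorem P_noncube (a b c r s t x u v w α : ℤ) (ha : 0 < a) (hab : a < b) (hbc : b < c)
    (hr : 0 < r) (hs : 0 < s) (ht : 0 < t)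
    (h1 : r^2 = a*b+1) (h2 : s^2 = a*c+1) (h3 : t^2 = b*c+1)
    (hu0 : 0 < u) (hv0 : 0 < v) (hw0 : 0 < w)
    (hu : u^2 = x+a*b) (hv : v^2 = x+a*c) (hw : w^2 = x+b*c)
    (huvw : u*(v+w) = v*w) (hα : u^3 + (v+w-u)*(a*b) - a*b*c = α^3) : False := by
  have hb : 0 < b := lt_trans ha hab
  have hc : 0 < c := lt_trans hb hbc
  obtain ⟨c1, c2, c3⟩ := coprime_triple a b c r s t ha hb hc hr hs ht h1 h2 h3
  have huv : u < v := by
    have : u^2 < v^2 := by nlinarith
    exact lt_of_pow_lt_pow_left₀ 2 hv0.le this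
  have hvw : v < w := by
    have : v^2 < w^2 := by nlinarith
    exact lt_of_pow_lt_pow_left₀ 2 hw0.le this
  obtain ⟨-, -, hlarge, -, -⟩ := integer_main a b c r s t x u v w ha hab hbc hr hs ht h1 h2 h3
    hu0 hv0 hw0 hu hv hw huvw
  have hx := x_pos a b c r x u v w ha hab hr h1 hu0 huv (huv.trans hvw) hu hv hw huvw hlarge
  -- beta
  have m1 : (u^3 + (v+w-u)*(a*b) - a*b*c) * (u^3 + (v+w-u)*(a*b) + a*b*c) = x^3 := by
    have := norm_identity u v w (a*b) (a*c) (b*c) x (by linarith) (by linarith) (by linarith) huvw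
    linear_combination this
  rw [hα] at m1
  have hαx : α ∣ x := by
    have : α^3 ∣ x^3 := ⟨_, m1.symm⟩
    exact (Int.pow_dvd_pow_iff (by norm_num)).mp this
  obtain ⟨β, hβ⟩ := hαx
  have hα0 : α ≠ 0 := by
    rintro rfl; rw [zero_mul] at hβ; linarith
  have hβ3 : u^3 + (v+w-u)*(a*b) + a*b*c = β^3 := by
    have : α^3 * (u^3 + (v+w-u)*(a*b) + a*b*c) = α^3*β^3 := by
      rw [m1, hβ]; ring
    exact mul_left_cancel₀ (pow_ne_zero 3 hα0) this
  have kP := cubic_rel α β u v w (a*b) x (by linarith) hβ.symm (by rw [← hα, ← hβ3]; ring)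
  -- S
  obtain ⟨hx16, -, -, -⟩ := local2c a b c r s t x u v w h1 h2 h3 hu hv hw huvw c1 c2 c3
  have hodd : ¬ 2 ∣ (x-1) := by omega
  obtain ⟨α', β', hα', hβ', hαβ'⟩ := exists_cubes u v w r s t (x-1) (by linarith) (by linarith)
    (by linarith) huvw c1 c2 c3 hodd
  have kS := cubic_rel α' β' u v w (a*b+1) (x-1) (by linarith) hαβ'
    (by rw [hα', hβ', h1]; ring)
  -- g < u^2
  have hmn : (v-u)*(w-u) = u^2 := by linear_combination -huvw
  have hg : 0 < v+w-4*u := by
    have : 0 < (v+w)*(v+w-4*u) := by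
      have e : (v+w)*(v+w-4*u) = (w-v)^2 := by linear_combination (-4)*huvw
      rw [e]; have : 0 < w - v := by linarith
      positivity
    exact (mul_pos_iff_of_pos_left (by linarith)).mp this
  have hgu : v+w-4*u < u^2 := by
    have h5 : v - u < u := by
      have : (v-u)^2 < u^2 := by
        rw [← hmn, sq]; exact mul_lt_mul_of_pos_left (by linarith) (by linarith)
      exact lt_of_pow_lt_pow_left₀ 2 hu0.le this
    have h6 : 1*(w-u) ≤ (v-u)*(w-u) := by
      apply mul_le_mul_of_nonneg_right _ (by linarith)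
      have : 0 < v - u := by linarith
      exact this
    rw [hmn] at h6
    linarith
  exact no_two_k u (a*b) (v+w-4*u) _ _ hu0 (mul_pos ha hb) hg hgu kP kS

end Pool.Agent.Helper590.Tors6
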