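import Pool.Agent.Helper590.Tors6.Coprime

set_option autoImplicit false

namespace Pool.Agent.Helper590.Tors6

set_option synthInstance.maxSize 2000 in
set_option maxRecDepth 100000 in
theorem zmod4_fact : ∀ u v w r s t : ZMod 4, u^2-r^2 = v^2-s^2 → v^2-s^2 = w^2-t^2 →
    u*(v+w) = v*w → ¬ (2*r = 0 ∧ 2*s = 0) → ¬ (2*r = 0 ∧ 2*t = 0) → ¬ (2*s = 0 ∧ 2*t = 0) →
    2*u = 0 ∧ 2*v = 0 ∧ 2*w = 0 ∧ 2*r = 2 ∧ 2*s = 2 ∧ 2*t = 2 := by
  decide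

set_option synthInstance.maxSize 2000 in
set_option maxRecDepth 100000 in
theorem zmod3_fact : ∀ u v w r s t : ZMod 3, u^2-r^2 = v^2-s^2 → v^2-s^2 = w^2-t^2 →
    u*(v+w) = v*w → ¬ (r = 0 ∧ s = 0) → ¬ (r = 0 ∧ t = 0) → ¬ (s = 0 ∧ t = 0) →
    v + w - u = 0 ∧ r ≠ 0 ∧ s ≠ 0 ∧ t ≠ 0 := by
  decide

theorem two_mul_zmod4 (z : ℤ) : 2*(z : ZMod 4) = 0 ↔ 2 ∣ z := by
  have : 2*(z : ZMod 4) = ((2*z : ℤ) : ZMod 4) := by push_cast; ring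
  rw [this, ZMod.intCast_zmod_eq_zero_iff_dvd]
  constructor
  · intro h; push_cast at h; omega
  · intro h; push_cast; omega

theorem two_mul_zmod4' (z : ℤ) : 2*(z : ZMod 4) = 2 ↔ ¬ 2 ∣ z := by
  have : 2*(z : ZMod 4) = 2 ↔ ((2*z-2 : ℤ) : ZMod 4) = 0 := by
    push_cast
    constructor
    · intro h; rw [h]; ring
    · intro h; linear_combination h
  rw [this, ZMod.intCast_zmod_eq_zero_iff_dvd]
  constructor
  · intro h; push_cast at h; omega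
  · intro h; push_cast; omega

theorem not_both_dvd {r s : ℤ} (h : IsCoprime r s) (p : ℤ) (hp : ¬ IsUnit p) : ¬ (p ∣ r ∧ p ∣ s) := by
  rintro ⟨h1, h2⟩
  exact hp (h.isUnit_of_dvd' h1 h2)

theorem local2a (u v w r s t : ℤ) (h12 : u^2-r^2 = v^2-s^2) (h23 : v^2-s^2 = w^2-t^2)
    (huvw : u*(v+w) = v*w) (c1 : IsCoprime r s) (c2 : IsCoprime r t) (c3 : IsCoprime s t) :
    2 ∣ u ∧ 2 ∣ v ∧ 2 ∣ w ∧ ¬ 2 ∣ r ∧ ¬ 2 ∣ s ∧ ¬ 2 ∣ t := by
  have n2 : ¬ IsUnit (2:ℤ) := by decide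
  have key := zmod4_fact (u : ZMod 4) v w r s t (by exact_mod_cast congrArg (Int.cast : ℤ → ZMod 4) h12)
    (by exact_mod_cast congrArg (Int.cast : ℤ → ZMod 4) h23)
    (by exact_mod_cast congrArg (Int.cast : ℤ → ZMod 4) huvw)
    (by rw [two_mul_zmod4, two_mul_zmod4]; exact not_both_dvd c1 2 n2)
    (by rw [two_mul_zmod4, two_mul_zmod4]; exact not_both_dvd c2 2 n2)
    (by rw [two_mul_zmod4, two_mul_zmod4]; exact not_both_dvd c3 2 n2)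
  simpa only [two_mul_zmod4, two_mul_zmod4'] using key

theorem local3 (u v w r s t : ℤ) (h12 : u^2-r^2 = v^2-s^2) (h23 : v^2-s^2 = w^2-t^2)
    (huvw : u*(v+w) = v*w) (c1 : IsCoprime r s) (c2 : IsCoprime r t) (c3 : IsCoprime s t) :
    3 ∣ (v+w-u) ∧ ¬ 3 ∣ r ∧ ¬ 3 ∣ s ∧ ¬ 3 ∣ t := by
  have n3 : ¬ IsUnit (3:ℤ) := by decide
  have e (z : ℤ) : ((z : ℤ) : ZMod 3) = 0 ↔ (3:ℤ) ∣ z := by
    rw [ZMod.intCast_zmod_eq_zero_iff_dvd]; norm_num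
  have key := zmod3_fact (u : ZMod 3) v w r s t (by exact_mod_cast congrArg (Int.cast : ℤ → ZMod 3) h12)
    (by exact_mod_cast congrArg (Int.cast : ℤ → ZMod 3) h23)
    (by exact_mod_cast congrArg (Int.cast : ℤ → ZMod 3) huvw)
    (by rw [e, e]; exact not_both_dvd c1 3 n3)
    (by rw [e, e]; exact not_both_dvd c2 3 n3)
    (by rw [e, e]; exact not_both_dvd c3 3 n3)
  obtain ⟨k1, k2, k3, k4⟩ := key
  refine ⟨?_, ?_, ?_, ?_⟩
  · rw [← e]; push_cast; exact k1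
  · rw [← e]; exact k2
  · rw [← e]; exact k3
  · rw [← e]; exact k4

theorem odd_sq_mod8 (r : ℤ) (h : ¬ 2 ∣ r) : ∃ j : ℤ, r^2 = 8*j+1 := by
  obtain ⟨i, hi⟩ : ∃ i, r = 2*i+1 := ⟨r/2, by omega⟩
  obtain ⟨j, hj⟩ : ∃ j, i*(i+1) = 2*j := by
    have := Int.even_mul_succ_self i
    obtain ⟨j, hj⟩ := this
    exact ⟨j, by linarith⟩
  exact ⟨j, by rw [hi]; linear_combination 4*hj⟩

/-- all three of `u, v, w` are divisible by `4` -/
theorem local2b (u v w r s t : ℤ) (h12 : u^2-r^2 = v^2-s^2) (h23 : v^2-s^2 = w^2-t^2)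
    (huvw : u*(v+w) = v*w) (c1 : IsCoprime r s) (c2 : IsCoprime r t) (c3 : IsCoprime s t) :
    4 ∣ u ∧ 4 ∣ v ∧ 4 ∣ w := by
  obtain ⟨⟨u1, rfl⟩, ⟨v1, rfl⟩, ⟨w1, rfl⟩, hr, hs, ht⟩ := local2a u v w r s t h12 h23 huvw c1 c2 c3
  obtain ⟨j1, hj1⟩ := odd_sq_mod8 r hr
  obtain ⟨j2, hj2⟩ := odd_sq_mod8 s hs
  obtain ⟨j3, hj3⟩ := odd_sq_mod8 t ht
  have e1 : u1*(v1+w1) = v1*w1 := by linarith
  have e2 : u1^2 - v1^2 = 2*(j1-j2) := by linarith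
  have e3 : v1^2 - w1^2 = 2*(j2-j3) := by linarith
  have f1 : 2 ∣ (u1 - v1) * (u1 + v1) := ⟨j1-j2, by linear_combination e2⟩
  have f2 : 2 ∣ (v1 - w1) * (v1 + w1) := ⟨j2-j3, by linear_combination e3⟩
  have g1 : 2 ∣ (u1 - v1) := by
    rcases Int.prime_two.dvd_or_dvd f1 with h | h <;> omega
  have g2 : 2 ∣ (v1 - w1) := by
    rcases Int.prime_two.dvd_or_dvd f2 with h | h <;> omega
  have g3 : 2 ∣ v1 * w1 := by
    rw [← e1]; exact Dvd.dvd.mul_left (by omega) _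
  have g4 : 2 ∣ v1 := by
    rcases Int.prime_two.dvd_or_dvd g3 with h | h <;> omega
  refine ⟨?_, ?_, ?_⟩ <;> omega

theorem local2c (a b c r s t x u v w : ℤ)
    (h1 : r^2 = a*b+1) (h2 : s^2 = a*c+1) (h3 : t^2 = b*c+1)
    (hu : u^2 = x+a*b) (hv : v^2 = x+a*c) (hw : w^2 = x+b*c)
    (huvw : u*(v+w) = v*w) (c1 : IsCoprime r s) (c2 : IsCoprime r t) (c3 : IsCoprime s t) :
    16 ∣ x ∧ 16 ∣ a*b ∧ 16 ∣ a*c ∧ 16 ∣ b*c := by
  have h12 : u^2-r^2 = v^2-s^2 := by linarith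
  have h23 : v^2-s^2 = w^2-t^2 := by linarith
  obtain ⟨-, -, -, hr, hs, ht⟩ := local2a u v w r s t h12 h23 huvw c1 c2 c3
  obtain ⟨⟨u1, rfl⟩, ⟨v1, rfl⟩, ⟨w1, rfl⟩⟩ := local2b u v w r s t h12 h23 huvw c1 c2 c3
  obtain ⟨j1, hj1⟩ := odd_sq_mod8 r hr
  obtain ⟨j2, hj2⟩ := odd_sq_mod8 s hs
  obtain ⟨j3, hj3⟩ := odd_sq_mod8 t ht
  have e1 : a*b = 8*j1 := by linarith
  have e2 : a*c = 8*j2 := by linarith
  have e3 : b*c = 8*j3 := by linarith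
  have d1 : 16*u1^2 = x + 8*j1 := by linarith
  have d2 : 16*v1^2 = x + 8*j2 := by linarith
  have d3 : 16*w1^2 = x + 8*j3 := by linarith
  -- j1, j2, j3 have the same parity; if all odd contradiction
  have hj : 2 ∣ j1 := by
    by_contra hodd
    have o2 : ¬ 2 ∣ j2 := by
      intro h; apply hodd; omega
    have o3 : ¬ 2 ∣ j3 := by
      intro h; apply hodd; omega
    have m1 : 8*(j1*j2) = a^2*j3 := by
      have : (a*b)*(a*c) = a^2*(b*c) := by ring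
      rw [e1, e2, e3] at this
      linarith
    have m2 : 2 ∣ a^2 * j3 := ⟨4*(j1*j2), by linarith⟩
    have m3 : 2 ∣ a := by
      rcases Int.prime_two.dvd_or_dvd m2 with h | h
      · exact Int.prime_two.dvd_of_dvd_pow h
      · exact absurd h o3
    obtain ⟨a1, rfl⟩ := m3
    have m4 : 2*(j1*j2) = a1^2*j3 := by linarith
    have m5 : 2 ∣ a1^2 * j3 := ⟨j1*j2, by linarith⟩
    have m6 : 2 ∣ a1 := by
      rcases Int.prime_two.dvd_or_dvd m5 with h | h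
      · exact Int.prime_two.dvd_of_dvd_pow h
      · exact absurd h o3
    obtain ⟨a2, rfl⟩ := m6
    have m7 : j1*j2 = 2*(a2^2*j3) := by linarith
    have m8 : 2 ∣ j1*j2 := ⟨_, m7⟩
    rcases Int.prime_two.dvd_or_dvd m8 with h | h
    · exact hodd h
    · exact o2 h
  have hx : 16 ∣ x := by omega
  refine ⟨hx, ?_, ?_, ?_⟩
  · rw [e1]; omega
  · rw [e2]; omega
  · rw [e3]; omega

theorem not3_sq (r m : ℤ) (h : ¬ 3 ∣ r) (h1 : r^2 = m + 1) : 3 ∣ m := by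
  have h3 : r % 3 = 1 ∨ r % 3 = 2 := by omega
  have : 3 ∣ (r-1)*(r+1) := by
    rcases h3 with h3 | h3
    · exact Dvd.dvd.mul_right (by omega) _
    · exact Dvd.dvd.mul_left (by omega) _
  have e : m = (r-1)*(r+1) := by linear_combination -h1
  rw [e]; exact this

/-- `48` divides `ab, ac, bc`. -/
theorem dvd48 (a b c r s t x u v w : ℤ)
    (h1 : r^2 = a*b+1) (h2 : s^2 = a*c+1) (h3 : t^2 = b*c+1)
    (hu : u^2 = x+a*b) (hv : v^2 = x+a*c) (hw : w^2 = x+b*c)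
    (huvw : u*(v+w) = v*w) (c1 : IsCoprime r s) (c2 : IsCoprime r t) (c3 : IsCoprime s t) :
    48 ∣ a*b ∧ 48 ∣ a*c ∧ 48 ∣ b*c := by
  have h12 : u^2-r^2 = v^2-s^2 := by linarith
  have h23 : v^2-s^2 = w^2-t^2 := by linarith
  obtain ⟨-, p1, p2, p3⟩ := local2c a b c r s t x u v w h1 h2 h3 hu hv hw huvw c1 c2 c3
  obtain ⟨-, q1, q2, q3⟩ := local3 u v w r s t h12 h23 huvw c1 c2 c3
  have k1 := not3_sq r _ q1 h1
  have k2 := not3_sq s _ q2 h2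
  have k3 := not3_sq t _ q3 h3
  refine ⟨?_, ?_, ?_⟩ <;> omega

end Pool.Agent.Helper590.Tors6
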